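import Pool.Agent.R975.BG.Srg

/-!
# The 2-neighbour graphs percolate in every dimension (helper975): the differential inequality
-/

set_option autoImplicit false

namespace Pool.Agent.R975.BG

open Finset H974
open Pool.Agent.R975.BN (V stp stp_opp opp_opp stp_inj stp_ne back box mem_box bnd zero_box
  inner_step outd pS phi phi_ge_one EF mem_EF CS dirE tgt_eq)

/-- the connection of the origin with the boundary of the box -/
noncomputable def Gf (n : ℕ) (ζ : V → S4) : ℝ := ind (RB ↑(Ub n) (bnd n) {0} ζ)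

/-- the empty configuration -/
def e0 : V → S4 := fun _ => ∅

/-- the strongly pivotal vertices -/
def Mv (n : ℕ) (x : V) (ζ : V → S4) : Prop :=
  Mul (fun s => RB ↑(Ub n) (bnd n) {0} (Function.update ζ x s))

noncomputable def LL (n : ℕ) : List V := (Ub n).toList

/-- the connection probability for the mixture -/
noncomputable def hm (n : ℕ) (t : ℝ) : ℝ := EL (fun _ => MM t) (LL n) (Gf n) e0

theorem SB_sub (n : ℕ) (ζ : V → S4) : SB n ζ ⊆ Ub n := fun _ h => (mem_SB.1 h).1

theorem SB_iff {n : ℕ} {S : Finset V} (hS : S ⊆ Ub n) (ζ : V → S4) :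
    SB n ζ = S ↔ (∀ z ∈ Ub n, z ∉ S → RB (↑(Ub n) \ ↑S) (bnd n) {z} ζ) ∧
      ∀ v ∈ S, Disjoint (ζ v) (outd S v) := by
  constructor
  · rintro rfl
    constructor
    · intro z hz hzS
      have h1 : RB ↑(Ub n) (bnd n) {z} ζ := by
        by_contra h
        exact hzS (mem_SB.2 ⟨hz, h⟩)
      obtain ⟨b, hb, t, ht, h⟩ := h1
      rw [Set.mem_singleton_iff] at hb
      subst hb
      refine ⟨b, rfl, t, ht, ?_⟩
      clear hz hzS
      induction h using Relation.ReflTransGen.head_induction_on with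
      | refl => exact Relation.ReflTransGen.refl
      | @head z z' hzz hzt ih =>
        refine Relation.ReflTransGen.head ⟨⟨hzz.1, ?_⟩, hzz.2⟩ ih
        intro h
        exact (mem_SB.1 h).2 (RB_of (B := {z}) (Set.mem_singleton z) ht
          (Relation.ReflTransGen.head hzz hzt))
    · intro v hv
      rw [Finset.disjoint_left]
      intro c hc hco
      unfold BN.outd at hco
      rw [Finset.mem_filter] at hco
      exact hco.2 (SB_step hv hc)
  · rintro ⟨h1, h2⟩
    ext z
    constructor
    · intro hz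
      obtain ⟨h3, h4⟩ := mem_SB.1 hz
      by_contra h5
      obtain ⟨b, hb, t, ht, h⟩ := h1 z h3 h5
      exact h4 ⟨b, hb, t, ht, DS.mono Set.sdiff_subset (fun _ _ => subset_rfl) h⟩
    · intro hz
      rw [mem_SB]
      refine ⟨hS hz, ?_⟩
      rintro ⟨b, hb, t, ht, h⟩
      rw [Set.mem_singleton_iff] at hb
      subst hb
      have key : ∀ w, Relation.ReflTransGen (DS ↑(Ub n) ζ) b w → w ∈ S := by
        intro w hw
        induction hw with
        | refl => exact hz
        | @tail w w' _ hww ih =>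
          obtain ⟨-, c, hc, h3⟩ := hww
          by_contra h4
          have h5 := Finset.disjoint_left.1 (h2 w ih) hc
          apply h5
          unfold BN.outd
          rw [Finset.mem_filter]
          exact ⟨Finset.mem_univ _, by rw [← h3]; exact h4⟩
      exact Ub_bnd (hS (key t h)) ht

theorem ind_prod_list (L : List V) (P : V → Prop) :
    (L.map (fun v => ind (P v))).prod = ind (∀ v ∈ L, P v) := by
  induction L with
  | nil => simp [ind_of]
  | cons v L ih =>
    rw [List.map_cons, List.prod_cons, ih, ← ind_and]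
    apply ind_congr
    simp

theorem pS_le {S : Finset V} {x : V} (hx : x ∈ S) (h0 : (0:V) ∈ S) (ζ : V → S4) :
    pS S x ≤ EL (fun _ => muI) S.toList (fun ζ => ind (RB ↑(S.erase x) {x} {0} ζ)) ζ := by
  have e1 : EL (fun _ => muI) S.toList (fun ζ => ind (RB ↑(S.erase x) {x} {0} ζ)) ζ
      = qB muI (S.erase x) {x} {0} ζ := by
    rw [EL_perm (perm_erase hx)]
    show ∑ s, muI s * EL (fun _ => muI) (S.erase x).toList
      (fun ζ => ind (RB ↑(S.erase x) {x} {0} ζ)) (Function.update ζ x s) = _
    have : ∀ s, EL (fun _ => muI) (S.erase x).toList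
      (fun ζ => ind (RB ↑(S.erase x) {x} {0} ζ)) (Function.update ζ x s)
        = qB muI (S.erase x) {x} {0} ζ := fun s => qB_base muI (S.erase x) {x} {0} _ ζ
    rw [Finset.sum_congr rfl (fun s _ => by rw [this s]), ← Finset.sum_mul, muI_one, one_mul]
  rw [e1]
  refine le_trans ?_ (bond_le (p := 1 / 2) (by norm_num) (by norm_num) {x} (S.erase x).card
    (S.erase x) rfl (by
      intro u hu h
      rw [Set.mem_singleton_iff] at h
      subst h
      exact Finset.notMem_erase _ _ hu) {0} (EF S) ζ)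
  unfold BN.pS
  apply Pr_mono (okq (by norm_num) (by norm_num))
  intro F _ hr
  have key : ∀ w, Reach (↑F ∩ ↑(EF S)) 0 w →
      (Relation.ReflTransGen (DS ↑(S.erase x) (zF F)) 0 w ∧ w ∈ S) ∨
      Relation.ReflTransGen (DS ↑(S.erase x) (zF F)) 0 x := by
    intro w hw
    induction hw with
    | refl => exact Or.inl ⟨Relation.ReflTransGen.refl, h0⟩
    | @tail a c _ hac ih =>
      rcases ih with ⟨h3, h4⟩ | h3
      · by_cases hb : a = x
        · subst hb
          exact Or.inr h3
        · left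
          have hd : (∃ d, edge a d ∈ F ∧ c = a + stp d) ∧ c ∈ S := by
            obtain ⟨e, ⟨he, heS⟩, hcase⟩ := hac
            have heS' := mem_EF.1 heS
            rcases hcase with ⟨h5, h6⟩ | ⟨h5, h6⟩
            · refine ⟨⟨dirE e, ?_, ?_⟩, by rw [← h6]; exact heS'.2⟩
              · have : edge a (dirE e) = e := by
                  rw [← h5]
                  obtain ⟨x, y, b⟩ := e
                  cases b <;> simp [edge, dirE, src]
                rw [this]
                exact he
              · rw [← h6, ← h5, tgt_eq]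
            · refine ⟨⟨dirE e + 2, ?_, ?_⟩, by rw [← h5]; exact heS'.1⟩
              · have : edge a (dirE e + 2) = e := by
                  rw [← h6]
                  obtain ⟨x, y, b⟩ := e
                  cases b
                  · simp [edge, dirE, tgt]
                  · simp [edge, dirE, tgt]
                rw [this]
                exact he
              · rw [← h6, ← h5, tgt_eq, back]
          obtain ⟨⟨d, h5, h6⟩, h7⟩ := hd
          refine ⟨h3.tail ⟨?_, d, mem_zF.2 h5, h6⟩, h7⟩
          rw [Finset.mem_coe, Finset.mem_erase]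
          exact ⟨hb, h4⟩
      · exact Or.inr h3
  rcases key x hr with ⟨h3, -⟩ | h3
  · exact ⟨0, rfl, x, rfl, h3⟩
  · exact ⟨0, rfl, x, rfl, h3⟩

/-- conditionally on the set of vertices which do not reach the boundary -/
theorem inner_ineq {n : ℕ} {S : Finset V} (hS : S ⊆ Ub n) {x : V} (hx : x ∈ S)
    (hz : (0:V) ∈ S) {t : ℝ} (h0 : 0 ≤ t) (h1 : t ≤ 1) (η : V → S4) :
    EL (fun _ => MM t) S.toList (fun η => ind (SB n η = S)) η * pS S x ≤
      EL (fun _ => MM t) S.toList
        (fun η => ind (SB n η = S) * ind (RB ↑(S.erase x) {x} {0} η)) η := by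
  classical
  set k : V → S4 → ℝ := fun v s => ind (Disjoint s (outd S v)) with hk
  set a : ℝ := ind (∀ z ∈ Ub n, z ∉ S → RB (↑(Ub n) \ ↑S) (bnd n) {z} η) with ha
  have ha0 : 0 ≤ a := ind_nonneg _
  have hk0 : ∀ v s, 0 ≤ k v s := fun v s => ind_nonneg _
  have hfac : ∀ η' : V → S4, (∀ w, w ∉ S.toList → η' w = η w) →
      ind (SB n η' = S) = a * (S.toList.map (fun v => k v (η' v))).prod := by
    intro η' h'
    have h'' : ∀ w, w ∉ S → η' w = η w := by
      intro w hw
      exact h' w (by rw [Finset.mem_toList]; exact hw)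
    have hc : ∀ z, RB (↑(Ub n) \ ↑S) (bnd n) {z} η' ↔ RB (↑(Ub n) \ ↑S) (bnd n) {z} η := by
      intro z
      apply RB_congr
      intro w hw
      exact h'' w hw.2
    rw [ha, hk, ind_prod_list, ← ind_and]
    apply ind_congr
    rw [SB_iff hS]
    constructor
    · rintro ⟨h2, h3⟩
      refine ⟨fun z hz hzS => (hc z).1 (h2 z hz hzS), fun v hv => ?_⟩
      rw [Finset.mem_toList] at hv
      exact h3 v hv
    · rintro ⟨h2, h3⟩
      refine ⟨fun z hz hzS => (hc z).2 (h2 z hz hzS), fun v hv => ?_⟩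
      exact h3 v (by rw [Finset.mem_toList]; exact hv)
  have e1 : EL (fun _ => MM t) S.toList (fun η => ind (SB n η = S)) η
      = a * EL (fun v s => MM t s * k v s) S.toList (fun _ => 1) η := by
    rw [← EL_weight (m := fun _ => MM t) k (fun _ => 1) S.toList (Finset.nodup_toList S), ← EL_mul]
    apply EL_congr_off
    intro η' h'
    rw [hfac η' h', mul_one]
  have e2 : EL (fun _ => MM t) S.toList
        (fun η => ind (SB n η = S) * ind (RB ↑(S.erase x) {x} {0} η)) η
      = a * EL (fun v s => MM t s * k v s) S.toList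
        (fun η => ind (RB ↑(S.erase x) {x} {0} η)) η := by
    rw [← EL_weight (m := fun _ => MM t) k (fun η => ind (RB ↑(S.erase x) {x} {0} η)) S.toList
      (Finset.nodup_toList S), ← EL_mul]
    apply EL_congr_off
    intro η' h'
    rw [hfac η' h']
    ring
  rw [e1, e2, EL_one, mul_assoc]
  apply mul_le_mul_of_nonneg_left _ ha0
  have hprod : 0 ≤ (S.toList.map (fun v => ∑ s, MM t s * k v s)).prod := by
    apply List.prod_nonneg
    intro r hr
    obtain ⟨w, -, rfl⟩ := List.mem_map.1 hr
    exact Finset.sum_nonneg (fun s _ => mul_nonneg (MM_nonneg h0 h1 s) (hk0 w s))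
  refine le_trans (mul_le_mul_of_nonneg_left (pS_le hx hz η) hprod) ?_
  apply EL_compare (κ := fun v => ∑ s, MM t s * k v s)
  · intro v
    exact Finset.sum_nonneg (fun s _ => mul_nonneg (MM_nonneg h0 h1 s) (hk0 v s))
  · intro v s
    exact mul_nonneg (MM_nonneg h0 h1 s) (hk0 v s)
  · intro v s
    exact muI_nonneg s
  · exact Finset.nodup_toList S
  · intro v _ η''
    have hHf : ∃ A Y, Hf (fun s => RB ↑(S.erase x) {x} {0} (Function.update η'' v s)) A Y ∧
        Disjoint Y (outd S v) := by
      by_cases hvx : v = x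
      · refine ⟨RB ↑(S.erase x) {x} {0} η'', ∅, ?_, Finset.disjoint_empty_left _⟩
        intro s
        have h2 : RB ↑(S.erase x) {x} {0} (Function.update η'' v s)
            ↔ RB ↑(S.erase x) {x} {0} η'' := by
          apply RB_congr
          intro w hw
          rw [Function.update_of_ne]
          rintro rfl
          rw [Finset.mem_coe, Finset.mem_erase] at hw
          exact hw.1 hvx
        show RB ↑(S.erase x) {x} {0} (Function.update η'' v s) ↔ _
        rw [h2]
        simp
      · obtain ⟨A, Y, h2, h3⟩ := hf_RB (U := ↑(S.erase x)) (T := {x}) (v := v)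
          (by rw [Set.mem_singleton_iff]; exact hvx) {0} η''
        refine ⟨A, Y, h2, ?_⟩
        rw [Finset.disjoint_left]
        intro c hc hco
        unfold BN.outd at hco
        rw [Finset.mem_filter] at hco
        apply hco.2
        rcases h3 c hc with h4 | h4
        · rw [Set.mem_singleton_iff] at h4
          rw [h4]
          exact hx
        · rw [Finset.mem_coe, Finset.mem_erase] at h4
          exact h4.2
    obtain ⟨A, Y, h2, h3⟩ := hHf
    exact one_star_cond h2 h3 h0 h1

theorem perm_split {n : ℕ} {S : Finset V} (hS : S ⊆ Ub n) :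
    (LL n).Perm ((Ub n \ S).toList ++ S.toList) := by
  unfold LL
  rw [List.perm_ext_iff_of_nodup (Finset.nodup_toList _)]
  · intro v
    rw [List.mem_append, Finset.mem_toList, Finset.mem_toList, Finset.mem_toList, Finset.mem_sdiff]
    constructor
    · intro h
      by_cases hv : v ∈ S
      · exact Or.inr hv
      · exact Or.inl ⟨h, hv⟩
    · rintro (h | h)
      · exact h.1
      · exact hS h
  · rw [List.nodup_append]
    refine ⟨Finset.nodup_toList _, Finset.nodup_toList _, ?_⟩
    intro a ha b hb hab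
    rw [Finset.mem_toList] at ha hb
    subst hab
    exact (Finset.mem_sdiff.1 ha).2 hb

theorem box_ineq {n : ℕ} {S : Finset V} (hS : S ⊆ Ub n) {x : V} (hx : x ∈ S)
    (hz : (0:V) ∈ S) {t : ℝ} (h0 : 0 ≤ t) (h1 : t ≤ 1) (η : V → S4) :
    EL (fun _ => MM t) (LL n) (fun η => ind (SB n η = S)) η * pS S x ≤
      EL (fun _ => MM t) (LL n)
        (fun η => ind (SB n η = S) * ind (RB ↑(S.erase x) {x} {0} η)) η := by
  rw [EL_perm (perm_split hS), EL_perm (perm_split hS), EL_append, EL_append]
  have h2 := EL_mono (m := fun _ => MM t) (fun _ s => MM_nonneg h0 h1 s)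
    (f := fun η => pS S x * EL (fun _ => MM t) S.toList (fun η => ind (SB n η = S)) η)
    (g := EL (fun _ => MM t) S.toList
      (fun η => ind (SB n η = S) * ind (RB ↑(S.erase x) {x} {0} η)))
    (fun η => by rw [mul_comm]; exact inner_ineq hS hx hz h0 h1 η) (Ub n \ S).toList η
  rw [EL_mul, mul_comm] at h2
  exact h2

/-- the good pairs -/
def good (n : ℕ) (x : V) (d : Fin 4) (ζ : V → S4) : Prop :=
  (0:V) ∈ SB n ζ ∧ x ∈ SB n ζ ∧ x + stp d ∉ SB n ζ ∧ RB (↑(SB n ζ) \ {x}) {x} {0} ζ

/-- the centre of the surgery -/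
def ctr (x : V) : V := if nrm x ≤ 3 then 0 else x

/-- the vertices near `p` -/
noncomputable def QL (n : ℕ) (p : V) : List V := ((Ub n).filter (fun w => nrm (w - p) ≤ 4)).toList

theorem QL_len (n : ℕ) (p : V) : (QL n p).length ≤ 81 := by
  unfold QL
  rw [Finset.length_toList]
  have h1 : (((Ub n).filter (fun w => nrm (w - p) ≤ 4)).image (fun w => w - p)) ⊆ BN.box 4 := by
    intro z hz
    rw [Finset.mem_image] at hz
    obtain ⟨w, hw, rfl⟩ := hz
    rw [Finset.mem_filter] at hw
    rw [mem_box]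
    have h2 : (w - p).1.natAbs + (w - p).2.natAbs ≤ 4 := hw.2
    push_cast
    omega
  have h2 := Finset.card_le_card h1
  rw [Finset.card_image_of_injective _ (sub_left_injective)] at h2
  have h3 : (BN.box 4).card = 81 := by
    unfold BN.box
    rw [Finset.card_product, Int.card_Icc]
    norm_num
    rfl
  omega

theorem QL_sub {n : ℕ} {p v : V} (h : v ∈ QL n p) : v ∈ LL n := by
  unfold QL at h
  unfold LL
  rw [Finset.mem_toList, Finset.mem_filter] at h
  rw [Finset.mem_toList]
  exact h.1

theorem nrm_neg (z : V) : nrm (0 - z) = nrm z := by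
  unfold nrm
  rw [Prod.fst_sub, Prod.snd_sub, Prod.fst_zero, Prod.snd_zero]
  omega

theorem good_bound {n : ℕ} {t : ℝ} (h0 : 0 ≤ t) (h1 : t ≤ 1 / 2) (x : V)
    (d : Fin 4) (ζ : V → S4) :
    ind (good n x d ζ) ≤ 32 ^ 81 *
      EL (fun _ => MM t) (QL n (ctr x)) (fun ζ => ind (Mv n (ctr x) ζ)) ζ := by
  have hM0 : ∀ (v : V) s, 0 ≤ (fun _ : V => MM t) v s := fun _ s => MM_nonneg h0 (by linarith) s
  have hnn : 0 ≤ EL (fun _ => MM t) (QL n (ctr x)) (fun ζ => ind (Mv n (ctr x) ζ)) ζ :=
    EL_nonneg hM0 (fun _ => ind_nonneg _) _ ζ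
  by_cases hg : good n x d ζ
  · rw [ind_of hg]
    obtain ⟨g1, g2, g3, g4⟩ := hg
    have c1 : ctr x ∈ Ub n := by
      unfold ctr
      split_ifs
      · exact (mem_SB.1 g1).1
      · exact (mem_SB.1 g2).1
    have c2 : ctr x = 0 ∨ 4 ≤ nrm (0 - ctr x) := by
      unfold ctr
      split_ifs with h
      · exact Or.inl rfl
      · right
        rw [nrm_neg]
        omega
    have c3 : nrm (x - ctr x) ≤ 3 := by
      unfold ctr
      split_ifs with h
      · rw [sub_zero]
        exact h
      · rw [sub_self]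
        decide
    have c4 : nrm (x + stp d - ctr x) ≤ 4 := by
      have h6 := (nrm_step (x - ctr x) d).1
      have h7 : x + stp d - ctr x = x - ctr x + stp d := by abel
      rw [h7]
      omega
    obtain ⟨ζ', h3, h4⟩ := surgery c1 c2 (by omega) c4 g1 g2 g3 g4
    have h5 := EL_ge (m := fun _ => MM t) hM0 (c := 1 / 32) (by norm_num)
      (fun _ s => MM_lo h0 h1 s) (f := fun ζ => ind (Mv n (ctr x) ζ)) (fun _ => ind_nonneg _)
      (QL n (ctr x)) ζ ζ' (by
        intro w hw
        apply h3
        rintro ⟨h6, h7⟩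
        apply hw
        unfold QL
        rw [Finset.mem_toList, Finset.mem_filter]
        exact ⟨h6, h7⟩)
    have h6 : Mv n (ctr x) ζ' := h4
    rw [ind_of h6, mul_one] at h5
    have h7 : (1 / 32 : ℝ) ^ 81 ≤ (1 / 32) ^ (QL n (ctr x)).length :=
      pow_le_pow_of_le_one (by norm_num) (by norm_num) (QL_len n _)
    have h8 : (1:ℝ) = 32 ^ 81 * (1 / 32) ^ 81 := by
      rw [← mul_pow]
      norm_num
    rw [h8]
    exact mul_le_mul_of_nonneg_left (h7.trans h5) (by positivity)
  · rw [ind_not_of hg]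
    exact mul_nonneg (by positivity) hnn

theorem good_int {n : ℕ} {t : ℝ} (h0 : 0 ≤ t) (h1 : t ≤ 1 / 2) (x : V) (d : Fin 4) :
    EL (fun _ => MM t) (LL n) (fun ζ => ind (good n x d ζ)) e0 ≤
      32 ^ 81 * EL (fun _ => MM t) (LL n) (fun ζ => ind (Mv n (ctr x) ζ)) e0 := by
  have hM0 : ∀ (v : V) s, 0 ≤ (fun _ : V => MM t) v s := fun _ s => MM_nonneg h0 (by linarith) s
  have h2 := EL_mono (m := fun _ => MM t) hM0 (good_bound (n := n) h0 h1 x d) (LL n) e0
  rw [EL_mul] at h2
  have h3 := EL_tower_list (m := fun _ : V => MM t) (fun _ => MM_one t)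
    (fun ζ => ind (Mv n (ctr x) ζ)) (LL n) (Finset.nodup_toList _) (QL n (ctr x))
    (fun v hv => QL_sub hv) e0
  rw [h3] at h2
  exact h2

theorem zero_Ub {n : ℕ} (hn : 1 ≤ n) : (0:V) ∈ Ub n := by
  rw [mem_Ub', Prod.fst_zero, Prod.snd_zero]
  have : (1:ℤ) ≤ n := by exact_mod_cast hn
  omega

theorem not_ev_iff {n : ℕ} (hn : 1 ≤ n) (ζ : V → S4) :
    ¬ RB ↑(Ub n) (bnd n) {0} ζ ↔ (0:V) ∈ SB n ζ := by
  rw [mem_SB]
  constructor
  · intro h
    exact ⟨zero_Ub hn, h⟩
  · rintro ⟨-, h⟩
    exact h

/-- the analogue of the inequality of Duminil-Copin and Tassion -/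
theorem dct {n : ℕ} (hn : 1 ≤ n) {t : ℝ} (h0 : 0 ≤ t) (h1 : t ≤ 1 / 2) :
    1 - hm n t ≤ 200 * 32 ^ 81 *
      ∑ x ∈ Ub n, EL (fun _ => MM t) (LL n) (fun ζ => ind (Mv n x ζ)) e0 := by
  classical
  have h1' : t ≤ 1 := by linarith
  have hM0 : ∀ (v : V) s, 0 ≤ (fun _ : V => MM t) v s := fun _ s => MM_nonneg h0 h1' s
  set I : Finset (Finset V) := (Ub n).powerset.filter (fun S => (0:V) ∈ S) with hI
  -- decomposition of the complement
  have s1 : 1 - hm n t = ∑ S ∈ I, EL (fun _ => MM t) (LL n) (fun η => ind (SB n η = S)) e0 := by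
    rw [← EL_sum]
    have h2 : EL (fun _ => MM t) (LL n) (fun η => 1 + (-1) * Gf n η) e0 = 1 - hm n t := by
      rw [EL_add, EL_mul, EL_const (fun _ => MM_one t)]
      unfold hm
      ring
    rw [← h2]
    congr 1
    funext η
    unfold Gf
    by_cases hE : RB ↑(Ub n) (bnd n) {0} η
    · rw [ind_of hE]
      rw [Finset.sum_eq_zero]
      · norm_num
      · intro S hS
        rw [hI, Finset.mem_filter] at hS
        apply ind_not_of
        rintro rfl
        exact (not_ev_iff hn η).2 hS.2 hE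
    · rw [ind_not_of hE]
      have h3 := (not_ev_iff hn η).1 hE
      rw [Finset.sum_eq_single (SB n η)]
      · rw [ind_of rfl]; norm_num
      · intro S _ hS
        exact ind_not_of (fun h => hS h.symm)
      · intro h
        exfalso
        apply h
        rw [hI, Finset.mem_filter, Finset.mem_powerset]
        exact ⟨SB_sub n η, h3⟩
  have s2 : ∀ S ∈ I, EL (fun _ => MM t) (LL n) (fun η => ind (SB n η = S)) e0 ≤
      ∑ x ∈ S, ∑ d ∈ outd S x, EL (fun _ => MM t) (LL n)
        (fun η => ind (SB n η = S) * ind (RB ↑(S.erase x) {x} {0} η)) e0 := by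
    intro S hS
    rw [hI, Finset.mem_filter, Finset.mem_powerset] at hS
    have hSb : S ⊆ BN.box n := fun v hv => (mem_Ub.1 (hS.1 hv)).1
    have hp := phi_ge_one hSb hS.2
    have hE0 : 0 ≤ EL (fun _ => MM t) (LL n) (fun η => ind (SB n η = S)) e0 :=
      EL_nonneg hM0 (fun _ => ind_nonneg _) _ _
    calc EL (fun _ => MM t) (LL n) (fun η => ind (SB n η = S)) e0
        ≤ EL (fun _ => MM t) (LL n) (fun η => ind (SB n η = S)) e0 * phi S :=
          le_mul_of_one_le_right hE0 hp
      _ = ∑ x ∈ S, ∑ d ∈ outd S x,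
          EL (fun _ => MM t) (LL n) (fun η => ind (SB n η = S)) e0 * pS S x := by
          unfold BN.phi
          rw [Finset.mul_sum]
          apply Finset.sum_congr rfl
          intro x _
          rw [Finset.sum_const, nsmul_eq_mul]
          ring
      _ ≤ _ := Finset.sum_le_sum (fun x hx => Finset.sum_le_sum (fun d _ =>
          box_ineq hS.1 hx hS.2 h0 h1' e0))
  have s3 : ∑ S ∈ I, ∑ x ∈ S, ∑ d ∈ outd S x, EL (fun _ => MM t) (LL n)
        (fun η => ind (SB n η = S) * ind (RB ↑(S.erase x) {x} {0} η)) e0 ≤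
      ∑ x ∈ Ub n, ∑ d : Fin 4, EL (fun _ => MM t) (LL n) (fun η => ind (good n x d η)) e0 := by
    have e1 : ∑ S ∈ I, ∑ x ∈ S, ∑ d ∈ outd S x, EL (fun _ => MM t) (LL n)
        (fun η => ind (SB n η = S) * ind (RB ↑(S.erase x) {x} {0} η)) e0
        = EL (fun _ => MM t) (LL n) (fun η => ∑ S ∈ I, ∑ x ∈ S, ∑ d ∈ outd S x,
          ind (SB n η = S) * ind (RB ↑(S.erase x) {x} {0} η)) e0 := by
      rw [EL_sum]
      apply Finset.sum_congr rfl
      intro S _
      rw [EL_sum]
      apply Finset.sum_congr rfl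
      intro x _
      rw [EL_sum]
    have e2 : ∑ x ∈ Ub n, ∑ d : Fin 4, EL (fun _ => MM t) (LL n) (fun η => ind (good n x d η)) e0
        = EL (fun _ => MM t) (LL n) (fun η => ∑ x ∈ Ub n, ∑ d : Fin 4, ind (good n x d η)) e0 := by
      rw [EL_sum]
      apply Finset.sum_congr rfl
      intro x _
      rw [EL_sum]
    rw [e1, e2]
    apply EL_mono hM0
    intro η
    have hle : ∀ S ∈ I, ∑ x ∈ S, ∑ d ∈ outd S x,
        ind (SB n η = S) * ind (RB ↑(S.erase x) {x} {0} η) ≤
        if S = SB n η then ∑ x ∈ Ub n, ∑ d : Fin 4, ind (good n x d η) else 0 := by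
      intro S hS
      rw [hI, Finset.mem_filter, Finset.mem_powerset] at hS
      by_cases hSS : S = SB n η
      · rw [if_pos hSS]
        calc ∑ x ∈ S, ∑ d ∈ outd S x, ind (SB n η = S) * ind (RB ↑(S.erase x) {x} {0} η)
            ≤ ∑ x ∈ S, ∑ d ∈ outd S x, ind (good n x d η) := by
              apply Finset.sum_le_sum
              intro x hx
              apply Finset.sum_le_sum
              intro d hd
              rw [← ind_and]
              apply ind_mono
              rintro ⟨h3, hc⟩
              unfold BN.outd at hd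
              rw [Finset.mem_filter] at hd
              unfold good
              rw [h3]
              rw [Finset.coe_erase] at hc
              exact ⟨hS.2, hx, hd.2, hc⟩
          _ ≤ ∑ x ∈ S, ∑ d : Fin 4, ind (good n x d η) := by
              apply Finset.sum_le_sum
              intro x _
              exact Finset.sum_le_sum_of_subset_of_nonneg (Finset.subset_univ _)
                (fun _ _ _ => ind_nonneg _)
          _ ≤ _ := Finset.sum_le_sum_of_subset_of_nonneg hS.1
                (fun _ _ _ => Finset.sum_nonneg (fun _ _ => ind_nonneg _))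
      · rw [if_neg hSS]
        apply le_of_eq
        apply Finset.sum_eq_zero
        intro x _
        apply Finset.sum_eq_zero
        intro d _
        rw [ind_not_of (fun h => hSS h.symm), zero_mul]
    refine (Finset.sum_le_sum hle).trans ?_
    rw [Finset.sum_ite_eq']
    split_ifs
    · exact le_refl _
    · exact Finset.sum_nonneg (fun _ _ => Finset.sum_nonneg (fun _ _ => ind_nonneg _))
  set E : V → ℝ := fun x => EL (fun _ => MM t) (LL n) (fun ζ => ind (Mv n x ζ)) e0 with hE
  have hE0 : ∀ x, 0 ≤ E x := fun x => EL_nonneg hM0 (fun _ => ind_nonneg _) _ _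
  have s4 : ∑ x ∈ Ub n, ∑ d : Fin 4, EL (fun _ => MM t) (LL n) (fun η => ind (good n x d η)) e0
      ≤ 4 * 32 ^ 81 * ∑ x ∈ Ub n, E (ctr x) := by
    rw [Finset.mul_sum]
    apply Finset.sum_le_sum
    intro x hx
    calc ∑ d : Fin 4, EL (fun _ => MM t) (LL n) (fun η => ind (good n x d η)) e0
        ≤ ∑ _d : Fin 4, 32 ^ 81 * E (ctr x) :=
          Finset.sum_le_sum (fun d _ => good_int h0 h1 x d)
      _ = _ := by
          rw [Finset.sum_const, Finset.card_univ, Fintype.card_fin, nsmul_eq_mul]
          push_cast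
          ring
  have s5 : ∑ x ∈ Ub n, E (ctr x) ≤ 50 * ∑ x ∈ Ub n, E x := by
    have e1 : ∀ x ∈ Ub n, E (ctr x) ≤ E x + if nrm x ≤ 3 then E 0 else 0 := by
      intro x _
      unfold ctr
      split_ifs
      · have := hE0 x
        linarith
      · rw [add_zero]
    refine (Finset.sum_le_sum e1).trans ?_
    rw [Finset.sum_add_distrib, ← Finset.sum_filter, Finset.sum_const, nsmul_eq_mul]
    have e2 : E 0 ≤ ∑ x ∈ Ub n, E x :=
      Finset.single_le_sum (f := E) (fun x _ => hE0 x) (zero_Ub hn)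
    have e3 : (((Ub n).filter (fun x => nrm x ≤ 3)).card : ℝ) ≤ 49 := by
      have h4 : ((Ub n).filter (fun x => nrm x ≤ 3)) ⊆ BN.box 3 := by
        intro z hz
        rw [Finset.mem_filter] at hz
        rw [mem_box]
        have h2 : z.1.natAbs + z.2.natAbs ≤ 3 := hz.2
        push_cast
        omega
      have h5 := Finset.card_le_card h4
      have h6 : (BN.box 3).card = 49 := by
        unfold BN.box
        rw [Finset.card_product, Int.card_Icc]
        norm_num
        rfl
      rw [h6] at h5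
      exact_mod_cast h5
    have e4 := mul_le_mul e3 e2 (hE0 0) (by norm_num)
    linarith
  rw [s1]
  refine ((Finset.sum_le_sum s2).trans s3).trans (s4.trans ?_)
  have h9 := mul_le_mul_of_nonneg_left s5 (show (0:ℝ) ≤ 4 * 32 ^ 81 by positivity)
  refine h9.trans (le_of_eq ?_)
  ring

/-- the derivative -/
noncomputable def dh (n : ℕ) (t : ℝ) : ℝ :=
  ((LL n).map (fun v => EL (fun _ => MM t) (LL n) (AV (fun s => muO s - muI s) v (Gf n)) e0)).sum

theorem hm_deriv (n : ℕ) (t : ℝ) : HasDerivAt (hm n) (dh n t) t :=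
  EL_deriv MM_deriv MM_one (Gf n) t (LL n) (Finset.nodup_toList _) e0

theorem gain (n : ℕ) {x : V} (hx : x ∉ bnd n) (η : V → S4) :
    1 / 16 * ind (Mv n x η) ≤ AV (fun s => muO s - muI s) x (Gf n) η := by
  obtain ⟨A, Y, h2, -⟩ := hf_RB (U := ↑(Ub n)) (T := bnd n) (v := x) hx {0} η
  have h3 := one_star h2
  unfold AV Gf Mv
  simp only [sub_mul, Finset.sum_sub_distrib]
  exact h3

theorem dh_lower (n : ℕ) {t : ℝ} (h0 : 0 ≤ t) (h1 : t ≤ 1) :
    1 / 16 * ∑ x ∈ Ub n, EL (fun _ => MM t) (LL n) (fun η => ind (Mv n x η)) e0 ≤ dh n t := by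
  have e1 : dh n t = ∑ x ∈ Ub n,
      EL (fun _ => MM t) (LL n) (AV (fun s => muO s - muI s) x (Gf n)) e0 := by
    unfold dh LL
    rw [← Finset.sum_map_toList]
  rw [e1, Finset.mul_sum]
  apply Finset.sum_le_sum
  intro x hx
  rw [← EL_mul]
  exact EL_mono (fun _ s => MM_nonneg h0 h1 s) (fun η => gain n (Ub_bnd hx) η) _ _

/-- the constant of the differential inequality -/
noncomputable def cst : ℝ := 1 / 16 * (1 / (200 * 32 ^ 81))

theorem cst_pos : 0 < cst := by unfold cst; positivity

theorem cst_le : cst ≤ 1 := by unfold cst; norm_num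

theorem diff_ineq {n : ℕ} (hn : 1 ≤ n) {t : ℝ} (h0 : 0 ≤ t) (h1 : t ≤ 1 / 2) :
    cst * (1 - hm n t) ≤ dh n t := by
  have h2 := dct hn h0 h1
  have h3 := dh_lower n h0 (by linarith : t ≤ 1)
  refine le_trans ?_ h3
  unfold cst
  rw [mul_assoc]
  apply mul_le_mul_of_nonneg_left _ (by norm_num)
  rw [div_mul_eq_mul_div, one_mul, div_le_iff₀ (by positivity)]
  linarith

theorem hm_le_one {n : ℕ} {t : ℝ} (h0 : 0 ≤ t) (h1 : t ≤ 1) : hm n t ≤ 1 := by
  unfold hm
  have h2 := EL_mono (m := fun _ => MM t) (fun _ s => MM_nonneg h0 h1 s) (f := Gf n)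
    (g := fun _ => 1) (fun η => ind_le_one _) (LL n) e0
  rwa [EL_const (fun _ => MM_one t)] at h2

theorem hm_nonneg {n : ℕ} {t : ℝ} (h0 : 0 ≤ t) (h1 : t ≤ 1) : 0 ≤ hm n t :=
  EL_nonneg (fun _ s => MM_nonneg h0 h1 s) (fun _ => ind_nonneg _) _ _

theorem half_lower {n : ℕ} (hn : 1 ≤ n) : cst / 4 ≤ hm n (1 / 2) := by
  by_contra hlt
  rw [not_le] at hlt
  have hc := cst_pos
  have hc1 := cst_le
  have hcont : ContinuousOn (hm n) (Set.Icc 0 (1 / 2)) :=
    fun t _ => (hm_deriv n t).continuousAt.continuousWithinAt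
  have hdiff : DifferentiableOn ℝ (hm n) (interior (Set.Icc 0 (1 / 2))) :=
    fun t _ => (hm_deriv n t).differentiableAt.differentiableWithinAt
  have hmono : MonotoneOn (hm n) (Set.Icc 0 (1 / 2)) := by
    apply monotoneOn_of_deriv_nonneg (convex_Icc _ _) hcont hdiff
    intro t ht
    rw [interior_Icc] at ht
    rw [(hm_deriv n t).deriv]
    have h1 := diff_ineq hn ht.1.le ht.2.le
    have h2 := hm_le_one (n := n) ht.1.le (by linarith [ht.2] : t ≤ 1)
    nlinarith
  have hb : ∀ t ∈ Set.Icc (0:ℝ) (1 / 2), hm n t ≤ 1 / 2 := by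
    intro t ht
    have h1 := hmono ht ⟨by norm_num, le_refl _⟩ ht.2
    linarith
  have hmv := Convex.mul_sub_le_image_sub_of_le_deriv (convex_Icc (0:ℝ) (1 / 2)) hcont hdiff
    (C := cst / 2) (by
      intro t ht
      rw [interior_Icc] at ht
      rw [(hm_deriv n t).deriv]
      have h1 := diff_ineq hn ht.1.le ht.2.le
      have h2 := hb t ⟨ht.1.le, ht.2.le⟩
      nlinarith) 0 ⟨le_refl _, by norm_num⟩ (1 / 2) ⟨by norm_num, le_refl _⟩ (by norm_num)
  have h3 := hm_nonneg (n := n) (t := 0) (le_refl _) (by norm_num)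
  linarith

/-- the connection probabilities when every vertex picks exactly two directions -/
theorem two_lower {n : ℕ} (hn : 1 ≤ n) (ζ : V → S4) :
    cst / 4 ≤ qB muO (Ub n) (bnd n) {0} ζ := by
  rw [qB_base muO (Ub n) (bnd n) {0} ζ e0]
  refine (half_lower hn).trans ?_
  have h1 := EL_compare (r := fun _ => muO) (μ := fun _ => MM (1 / 2)) (κ := fun _ => 1)
    (fun _ => by norm_num) (fun _ s => muO_nonneg s)
    (fun _ s => MM_nonneg (by norm_num) (by norm_num) s) (f := Gf n) (LL n)
    (Finset.nodup_toList _) (by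
      intro v hv η
      rw [one_mul]
      unfold LL at hv
      rw [Finset.mem_toList] at hv
      have h2 := gain n (Ub_bnd hv) η
      have h3 := ind_nonneg (Mv n v η)
      unfold AV at h2 ⊢
      unfold MM
      simp only [sub_mul, add_mul, Finset.sum_sub_distrib, Finset.sum_add_distrib, mul_assoc,
        ← Finset.mul_sum] at h2 ⊢
      linarith) e0
  have h2 : (List.map (fun _ : V => (1:ℝ)) (LL n)).prod = 1 := by
    simp
  rw [h2, one_mul] at h1
  exact h1

end Pool.Agent.R975.BG
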