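import Pool.Agent.R975.BG.Gen
import Pool.Agent.R975.BN.Inf
import Pool.Agent.H974R2.FinalFin

/-!
# The 2-neighbour graphs percolate in every dimension (helper975): directed star models on `ℤ²`
-/

set_option autoImplicit false

namespace Pool.Agent.R975.BG

open Finset H974
open Pool.Agent.R975.BN (V stp stp_opp opp_opp stp_inj stp_ne back box mem_box bnd zero_box
  inner_step dirE tgt_eq)

abbrev S4 := Finset (Fin 4)

/-- a directed step from a vertex of `U` -/
def DS (U : Set V) (ζ : V → S4) (a b : V) : Prop := a ∈ U ∧ ∃ c ∈ ζ a, b = a + stp c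

/-- a directed path from `B` to `T` through vertices of `U` -/
def RB (U T B : Set V) (ζ : V → S4) : Prop := ∃ b ∈ B, ∃ t ∈ T, Relation.ReflTransGen (DS U ζ) b t

/-- the new starting points when `v` is explored -/
def nxt (B : Set V) (v : V) (s : S4) : Set V := (B \ {v}) ∪ {w | ∃ c ∈ s, w = v + stp c}

theorem DS.mono {U U' : Set V} {ζ ζ' : V → S4} (hU : U ⊆ U') (hζ : ∀ a ∈ U, ζ a ⊆ ζ' a) {a b : V}
    (h : Relation.ReflTransGen (DS U ζ) a b) : Relation.ReflTransGen (DS U' ζ') a b := by
  induction h with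
  | refl => exact Relation.ReflTransGen.refl
  | tail _ h2 ih =>
    obtain ⟨h3, c, h4, h5⟩ := h2
    exact ih.tail ⟨hU h3, c, hζ _ h3 h4, h5⟩

theorem RB.mono {U T B B' : Set V} {ζ ζ' : V → S4} (hB : B ⊆ B') (hζ : ∀ a ∈ U, ζ a ⊆ ζ' a)
    (h : RB U T B ζ) : RB U T B' ζ' := by
  obtain ⟨b, hb, t, ht, h⟩ := h
  exact ⟨b, hB hb, t, ht, DS.mono subset_rfl hζ h⟩

theorem RB_congr {U T B : Set V} {ζ ζ' : V → S4} (h : ∀ a ∈ U, ζ a = ζ' a) :
    RB U T B ζ ↔ RB U T B ζ' :=
  ⟨RB.mono subset_rfl (fun a ha => by rw [h a ha]), RB.mono subset_rfl (fun a ha => by rw [h a ha])⟩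

theorem last_visit {U : Set V} {ζ : V → S4} {v b t : V} (htv : t ≠ v)
    (h : Relation.ReflTransGen (DS U ζ) b t) :
    Relation.ReflTransGen (DS (U \ {v}) ζ) b t ∨
      ∃ c ∈ ζ v, Relation.ReflTransGen (DS (U \ {v}) ζ) (v + stp c) t := by
  induction h using Relation.ReflTransGen.head_induction_on with
  | refl => exact Or.inl Relation.ReflTransGen.refl
  | @head a c hac _ ih =>
    rcases ih with ih | ih
    · by_cases hav : a = v
      · subst hav
        obtain ⟨-, d, hd, hd2⟩ := hac
        right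
        exact ⟨d, hd, hd2 ▸ ih⟩
      · left
        exact Relation.ReflTransGen.head ⟨⟨hac.1, hav⟩, hac.2⟩ ih
    · exact Or.inr ih

theorem RB_iff {U T B : Set V} {v : V} (hvU : v ∈ U) (hvB : v ∈ B) (hvT : v ∉ T) (ζ : V → S4) :
    RB U T B ζ ↔ RB (U \ {v}) T (nxt B v (ζ v)) ζ := by
  constructor
  · rintro ⟨b, hb, t, ht, h⟩
    have htv : t ≠ v := fun h => hvT (h ▸ ht)
    rcases last_visit htv h with h1 | ⟨c, hc, h1⟩
    · by_cases hbv : b = v
      · subst hbv
        rcases Relation.ReflTransGen.cases_head h1 with h2 | ⟨w, h2, -⟩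
        · exact absurd h2.symm htv
        · exact absurd rfl h2.1.2
      · exact ⟨b, Or.inl ⟨hb, hbv⟩, t, ht, h1⟩
    · exact ⟨v + stp c, Or.inr ⟨c, hc, rfl⟩, t, ht, h1⟩
  · rintro ⟨b, hb | ⟨c, hc, hb⟩, t, ht, h⟩
    · exact ⟨b, hb.1, t, ht, DS.mono Set.sdiff_subset (fun _ _ => subset_rfl) h⟩
    · refine ⟨v, hvB, t, ht, Relation.ReflTransGen.head ⟨hvU, c, hc, hb⟩ ?_⟩
      exact DS.mono Set.sdiff_subset (fun _ _ => subset_rfl) h

/-- nothing to explore -/
theorem RB_stuck {U T B : Set V} (h : ∀ b ∈ B, b ∉ U) (ζ : V → S4) :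
    RB U T B ζ ↔ ∃ b ∈ B, b ∈ T := by
  constructor
  · rintro ⟨b, hb, t, ht, hbt⟩
    rcases Relation.ReflTransGen.cases_head hbt with h2 | ⟨w, h2, -⟩
    · exact ⟨b, hb, h2 ▸ ht⟩
    · exact absurd h2.1 (h b hb)
  · rintro ⟨b, hb, hbT⟩
    exact ⟨b, hb, b, hbT, Relation.ReflTransGen.refl⟩

/-- the connection probability of the star model on `U` -/
noncomputable def qB (μ : S4 → ℝ) (U : Finset V) (T B : Set V) (ζ : V → S4) : ℝ :=
  EL (fun _ => μ) U.toList (fun ζ => ind (RB ↑U T B ζ)) ζ

theorem perm_erase {U : Finset V} {v : V} (hv : v ∈ U) :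
    U.toList.Perm (v :: (U.erase v).toList) := by
  rw [List.perm_ext_iff_of_nodup (Finset.nodup_toList _)]
  · intro w
    rw [List.mem_cons, Finset.mem_toList, Finset.mem_toList, Finset.mem_erase]
    constructor
    · intro h
      by_cases hw : w = v
      · exact Or.inl hw
      · exact Or.inr ⟨hw, h⟩
    · rintro (h | h)
      · exact h ▸ hv
      · exact h.2
  · rw [List.nodup_cons]
    refine ⟨?_, Finset.nodup_toList _⟩
    rw [Finset.mem_toList]
    exact Finset.notMem_erase v U

theorem dep_RB (U : Finset V) (T B : Set V) :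
    Dep (↑U : Set V) (fun ζ : V → S4 => ind (RB ↑U T B ζ)) := by
  intro ζ ζ' h
  exact ind_congr (RB_congr h)

/-- the base configuration is irrelevant -/
theorem qB_base (μ : S4 → ℝ) (U : Finset V) (T B : Set V) (ζ ζ' : V → S4) :
    qB μ U T B ζ = qB μ U T B ζ' := by
  unfold qB
  have key : ∀ (L : List V) (ζ ζ' : V → S4), (∀ v ∈ U, v ∈ L ∨ ζ v = ζ' v) →
      EL (fun _ => μ) L (fun ζ => ind (RB ↑U T B ζ)) ζ
        = EL (fun _ => μ) L (fun ζ => ind (RB ↑U T B ζ)) ζ' := by
    intro L
    induction L with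
    | nil =>
      intro ζ ζ' h
      apply dep_RB U T B
      intro v hv
      rcases h v hv with h | h
      · simp at h
      · exact h
    | cons w L ih =>
      intro ζ ζ' h
      show ∑ s, μ s * EL (fun _ => μ) L _ (Function.update ζ w s)
        = ∑ s, μ s * EL (fun _ => μ) L _ (Function.update ζ' w s)
      apply Finset.sum_congr rfl
      intro s _
      rw [ih (Function.update ζ w s) (Function.update ζ' w s)]
      intro v hv
      by_cases hvw : v = w
      · right
        rw [hvw, Function.update_self, Function.update_self]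
      · rw [Function.update_of_ne hvw, Function.update_of_ne hvw]
        rcases h v hv with h | h
        · rcases List.mem_cons.1 h with h | h
          · exact absurd h hvw
          · exact Or.inl h
        · exact Or.inr h
  apply key
  intro v hv
  left
  rw [Finset.mem_toList]
  exact hv

theorem qB_rec (μ : S4 → ℝ) {U : Finset V} {T B : Set V} {v : V} (hvU : v ∈ U) (hvB : v ∈ B)
    (hvT : v ∉ T) (ζ : V → S4) :
    qB μ U T B ζ = ∑ s, μ s * qB μ (U.erase v) T (nxt B v s) ζ := by
  have h1 : qB μ U T B ζ = ∑ s, μ s * EL (fun _ => μ) (U.erase v).toList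
      (fun ζ => ind (RB ↑U T B ζ)) (Function.update ζ v s) := by
    unfold qB
    rw [EL_perm (perm_erase hvU)]
    rfl
  rw [h1]
  apply Finset.sum_congr rfl
  intro s _
  congr 1
  rw [qB_base μ (U.erase v) T (nxt B v s) ζ (Function.update ζ v s)]
  unfold qB
  apply EL_congr_off
  intro η' h'
  apply ind_congr
  rw [RB_iff (U := ↑U) hvU hvB hvT]
  have h2 : η' v = s := by
    rw [h' v, Function.update_self]
    rw [Finset.mem_toList]
    exact Finset.notMem_erase v U
  rw [h2, Finset.coe_erase]

/-- independent directions -/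
noncomputable def muP (p : ℝ) (s : S4) : ℝ := (∏ _d ∈ s, p) * ∏ _d ∈ univ \ s, (1 - p)

theorem sum_muP (p : ℝ) (f : S4 → ℝ) :
    ∑ s, muP p s * f s = Ex (fun _ => p) (univ : Finset (Fin 4)) f := by
  unfold Ex muP
  rw [Finset.powerset_univ]

theorem muP_nonneg {p : ℝ} (h0 : 0 ≤ p) (h1 : p ≤ 1) (s : S4) : 0 ≤ muP p s := by
  unfold muP
  apply mul_nonneg
  · exact Finset.prod_nonneg (fun _ _ => h0)
  · exact Finset.prod_nonneg (fun _ _ => by linarith)

theorem muP_one (p : ℝ) : ∑ s, muP p s = 1 := by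
  have h := sum_muP p (fun _ => 1)
  simp only [mul_one] at h
  rw [h, Ex_const]

theorem muP_miss (p : ℝ) (Y : S4) : ∑ s, muP p s * ind (Disjoint s Y) = (1 - p) ^ Y.card := by
  have e1 : ∑ s : S4, (∏ d ∈ s, (if d ∈ Y then (0:ℝ) else p)) * ∏ _d ∈ univ \ s, (1 - p)
      = ∏ d : Fin 4, ((if d ∈ Y then (0:ℝ) else p) + (1 - p)) := by
    rw [Finset.prod_add, Finset.powerset_univ]
  have e2 : ∏ d : Fin 4, ((if d ∈ Y then (0:ℝ) else p) + (1 - p)) = (1 - p) ^ Y.card := by
    have e3 : ∀ d : Fin 4, ((if d ∈ Y then (0:ℝ) else p) + (1 - p)) = if d ∈ Y then 1 - p else 1 := by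
      intro d
      split_ifs <;> ring
    rw [Finset.prod_congr rfl (fun d _ => e3 d), Finset.prod_ite_mem, Finset.univ_inter,
      Finset.prod_const]
  rw [← e2, ← e1]
  apply Finset.sum_congr rfl
  intro s _
  unfold muP
  by_cases hd : Disjoint s Y
  · rw [ind_of hd, mul_one]
    congr 1
    apply Finset.prod_congr rfl
    intro d hds
    rw [if_neg (Finset.disjoint_left.1 hd hds)]
  · rw [ind_not_of hd, mul_zero]
    rw [Finset.not_disjoint_iff] at hd
    obtain ⟨d, h1, h2⟩ := hd
    rw [Finset.prod_eq_zero h1 (by rw [if_pos h2]), zero_mul]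

/-! ### Comparison with bond percolation -/

/-- the edge from `v` in direction `c` -/
def edge (v : V) (c : Fin 4) : Edg :=
  ![(v.1, v.2, true), (v.1, v.2, false), (v.1 - 1, v.2, true), (v.1, v.2 - 1, false)] c

theorem edge_ends (v : V) (c : Fin 4) :
    (src (edge v c) = v ∧ tgt (edge v c) = v + stp c) ∨
      (src (edge v c) = v + stp c ∧ tgt (edge v c) = v) := by
  obtain ⟨x, y⟩ := v
  fin_cases c
  · left
    constructor
    · rfl
    · simp [edge, stp, tgt]
  · left
    constructor
    · rfl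
    · simp [edge, stp, tgt]
  · right
    constructor
    · simp [edge, stp, src]
      ring
    · simp [edge, tgt]
  · right
    constructor
    · simp [edge, stp, src]
      ring
    · simp [edge, tgt]

theorem edge_inj (v : V) : Function.Injective (edge v) := by
  intro c c' h
  have h1 : stp c = stp c' ∨ stp c = - stp c' := by
    rcases edge_ends v c with ⟨h1, h2⟩ | ⟨h1, h2⟩ <;> rcases edge_ends v c' with ⟨h3, h4⟩ | ⟨h3, h4⟩
    · left
      rw [h, h4] at h2
      exact (add_left_cancel h2).symm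
    · exfalso
      rw [h, h3] at h1
      apply stp_ne c'
      have : v + stp c' = v + 0 := by rw [add_zero]; exact h1
      exact add_left_cancel this
    · exfalso
      rw [h, h3] at h1
      apply stp_ne c
      have : v + stp c = v + 0 := by rw [add_zero]; exact h1.symm
      exact add_left_cancel this
    · left
      rw [h, h3] at h1
      exact (add_left_cancel h1).symm
  rcases h1 with h1 | h1
  · exact stp_inj h1
  · rw [← stp_opp] at h1
    have h2 := stp_inj h1
    subst h2
    exfalso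
    revert h
    obtain ⟨x, y⟩ := v
    fin_cases c' <;> simp [edge] <;> omega

theorem edge_eq {a v : V} {c c' : Fin 4} (h : edge a c = edge v c') : a = v ∨ a + stp c = v := by
  rcases edge_ends a c with ⟨h1, h2⟩ | ⟨h1, h2⟩ <;> rcases edge_ends v c' with ⟨h3, h4⟩ | ⟨h3, h4⟩
  · left; rw [← h1, h, h3]
  · right; rw [← h2, h, h4]
  · right; rw [← h1, h, h3]
  · left; rw [← h2, h, h4]

/-- the directed stars of a set of edges -/
noncomputable def zF (F : Finset Edg) : V → S4 := by
  classical exact fun a => univ.filter (fun c => edge a c ∈ F)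

theorem mem_zF {F : Finset Edg} {a : V} {c : Fin 4} : c ∈ zF F a ↔ edge a c ∈ F := by
  classical
  unfold zF
  simp

noncomputable def Ev4 (v : V) : Finset Edg := (univ : Finset (Fin 4)).map ⟨edge v, edge_inj v⟩

theorem bond_le {p : ℝ} (h0 : 0 ≤ p) (h1 : p ≤ 1) (T : Set V) : ∀ (k : ℕ) (U : Finset V),
    U.card = k → (∀ u ∈ U, u ∉ T) → ∀ (B : Set V) (S : Finset Edg) (ζ : V → S4),
    Pr (fun _ => p) S (fun F => RB ↑U T B (zF F)) ≤ qB (muP p) U T B ζ := by
  classical
  have ok := okq h0 h1
  intro k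
  induction k with
  | zero =>
    intro U hU _ B S ζ
    rw [Finset.card_eq_zero] at hU
    subst hU
    have hs : ∀ ζ' : V → S4, RB ↑(∅ : Finset V) T B ζ' ↔ ∃ b ∈ B, b ∈ T := fun ζ' =>
      RB_stuck (by simp) ζ'
    unfold qB
    simp only [Finset.toList_empty]
    show _ ≤ ind (RB ↑(∅ : Finset V) T B ζ)
    rw [ind_congr (hs ζ)]
    unfold Pr
    rw [Ex_congr (g := fun _ => ind (∃ b ∈ B, b ∈ T)) (fun F _ => ind_congr (hs _)), Ex_const]
  | succ k ih =>
    intro U hU hUT B S ζ
    by_cases hB : ∃ v ∈ B, v ∈ U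
    · obtain ⟨v, hvB, hvU⟩ := hB
      have hvT := hUT v hvU
      rw [qB_rec (muP p) hvU hvB hvT, sum_muP]
      have hcard : (U.erase v).card = k := by
        rw [Finset.card_erase_of_mem hvU, hU]
        rfl
      have ih' := ih (U.erase v) hcard (fun u hu => hUT u (Finset.mem_of_mem_erase hu))
      have hinc : IncrE (Ev4 v ∪ (S \ Ev4 v)) (fun F => RB ↑U T B (zF F)) := by
        intro F F' hFF _ h
        apply h.mono subset_rfl
        intro a _ c hc
        rw [mem_zF] at hc ⊢
        exact hFF hc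
      have hSsub : S ⊆ Ev4 v ∪ (S \ Ev4 v) := by
        intro e he
        by_cases hev : e ∈ Ev4 v
        · exact Finset.mem_union_left _ hev
        · exact Finset.mem_union_right _ (Finset.mem_sdiff.2 ⟨he, hev⟩)
      refine (Pr_mono_set ok hSsub hinc).trans ?_
      unfold Pr
      rw [Ex_union Finset.disjoint_sdiff]
      unfold Ev4
      rw [Ex_map]
      apply Ex_mono (fun _ => ⟨h0, h1⟩)
      intro s _
      refine le_trans ?_ (ih' (nxt B v s) (S \ Ev4 v) ζ)
      unfold Pr
      apply Ex_mono ok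
      intro F hF
      apply ind_mono
      intro hRB
      have hRB2 : RB ↑U T B (zF (s.map ⟨edge v, edge_inj v⟩ ∪ F)) := hRB
      rw [RB_iff (U := ↑U) hvU hvB hvT] at hRB2
      obtain ⟨b, hb, t, ht, hbt⟩ := hRB2
      show RB ↑(U.erase v) T (nxt B v s) (zF F)
      have hzv : ∀ c, c ∈ zF (s.map ⟨edge v, edge_inj v⟩ ∪ F) v → c ∈ s := by
        intro c hc
        rw [mem_zF, Finset.mem_union] at hc
        rcases hc with hc | hc
        · rw [Finset.mem_map] at hc
          obtain ⟨c', hc', h⟩ := hc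
          exact edge_inj v h ▸ hc'
        · exfalso
          have h5 := (Finset.mem_sdiff.1 (hF hc)).2
          apply h5
          rw [Finset.mem_map]
          exact ⟨c, Finset.mem_univ _, rfl⟩
      refine ⟨b, ?_, t, ht, ?_⟩
      · rcases hb with hb | ⟨c, hc, hb⟩
        · exact Or.inl hb
        · exact Or.inr ⟨c, hzv c hc, hb⟩
      · have htv : t ≠ v := fun h => hvT (h ▸ ht)
        rw [Finset.coe_erase]
        clear hb
        induction hbt using Relation.ReflTransGen.head_induction_on with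
        | refl => exact Relation.ReflTransGen.refl
        | @head a c hac hct ih2 =>
          refine Relation.ReflTransGen.head ?_ ih2
          obtain ⟨h5, d, hd, h6⟩ := hac
          refine ⟨h5, d, ?_, h6⟩
          rw [mem_zF, Finset.mem_union] at hd
          rw [mem_zF]
          rcases hd with hd | hd
          · exfalso
            rw [Finset.mem_map] at hd
            obtain ⟨c', -, h7⟩ := hd
            have h8 : edge v c' = edge a d := h7
            rcases edge_eq h8.symm with h9 | h9
            · exact h5.2 h9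
            · rw [← h6] at h9
              subst h9
              rcases Relation.ReflTransGen.cases_head hct with h10 | ⟨w, h10, -⟩
              · exact htv h10.symm
              · exact h10.1.2 rfl
          · exact hd
    · have hB' : ∀ b ∈ B, b ∉ U := fun b hb hbU => hB ⟨b, hb, hbU⟩
      have hs : ∀ ζ' : V → S4, RB ↑U T B ζ' ↔ ∃ b ∈ B, b ∈ T := fun ζ' =>
        RB_stuck (fun b hb => hB' b hb) ζ'
      unfold qB Pr
      rw [Ex_congr (g := fun _ => ind (∃ b ∈ B, b ∈ T)) (fun F _ => ind_congr (hs _)), Ex_const,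
        EL_congr_off (g := fun _ => ind (∃ b ∈ B, b ∈ T)) _ _ (fun η' _ => ind_congr (hs η')),
        EL_const (fun _ => muP_one p)]

/-- the interior of the box -/
noncomputable def Ub (n : ℕ) : Finset V := by
  classical exact (box n).filter (fun v => v ∉ bnd n)

theorem mem_Ub {n : ℕ} {v : V} : v ∈ Ub n ↔ v ∈ box n ∧ v ∉ bnd n := by
  classical
  unfold Ub
  simp only [Finset.mem_filter]

theorem arm_le_q {p : ℝ} (h0 : 0 ≤ p) (h1 : p ≤ 1) (n : ℕ) (ζ : V → S4) :
    arm p n ≤ qB (muP p) (Ub n) (bnd n) {0} ζ := by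
  refine le_trans ?_ (bond_le h0 h1 (bnd n) (Ub n).card (Ub n) rfl
    (fun u hu => (mem_Ub.1 hu).2) {0} (boxE n) ζ)
  unfold arm
  apply Pr_mono (okq h0 h1)
  rintro F _ ⟨v, hv, hr⟩
  have key : ∀ w, Reach (↑F ∩ ↑(boxE n)) (0, 0) w →
      (Relation.ReflTransGen (DS ↑(Ub n) (zF F)) 0 w ∧ w ∈ box n) ∨
      RB ↑(Ub n) (bnd n) {0} (zF F) := by
    intro w hw
    induction hw with
    | refl => exact Or.inl ⟨Relation.ReflTransGen.refl, zero_box n⟩
    | @tail a c _ hac ih =>
      rcases ih with ⟨h3, h4⟩ | h3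
      · by_cases hb : a ∈ bnd n
        · exact Or.inr ⟨0, rfl, a, hb, h3⟩
        · left
          have hd : ∃ d, edge a d ∈ F ∧ c = a + stp d := by
            obtain ⟨e, ⟨he, -⟩, hcase⟩ := hac
            rcases hcase with ⟨h5, h6⟩ | ⟨h5, h6⟩
            · refine ⟨dirE e, ?_, ?_⟩
              · have : edge a (dirE e) = e := by
                  rw [← h5]
                  obtain ⟨x, y, b⟩ := e
                  cases b <;> simp [edge, dirE, src]
                rw [this]
                exact he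
              · rw [← h6, ← h5, tgt_eq]
            · refine ⟨dirE e + 2, ?_, ?_⟩
              · have : edge a (dirE e + 2) = e := by
                  rw [← h6]
                  obtain ⟨x, y, b⟩ := e
                  cases b
                  · simp [edge, dirE, tgt]
                  · simp [edge, dirE, tgt]
                rw [this]
                exact he
              · rw [← h6, ← h5, tgt_eq, back]
          obtain ⟨d, h5, h6⟩ := hd
          refine ⟨h3.tail ⟨?_, d, mem_zF.2 h5, h6⟩, ?_⟩
          · exact mem_Ub.2 ⟨h4, hb⟩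
          · rw [h6]
            exact inner_step h4 hb d
      · exact Or.inr h3
  rcases key v hr with ⟨h3, h4⟩ | h3
  · refine ⟨0, rfl, v, ⟨h4, ?_⟩, h3⟩
    unfold onB at hv
    omega
  · exact h3

/-- the directed model with parameter `0.503` percolates -/
theorem q_lower : ∃ c : ℝ, 0 < c ∧ ∀ (n : ℕ) (ζ : V → S4),
    c ≤ qB (muP (503 / 1000)) (Ub n) (bnd n) {0} ζ := by
  obtain ⟨c, hc, h⟩ := fin_bound
  refine ⟨c * Real.sqrt (503 / 1000 - 1 / 2), ?_, fun n ζ => ?_⟩
  · apply mul_pos hc
    apply Real.sqrt_pos.2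
    norm_num
  · exact (h (503 / 1000) (by norm_num) (by norm_num) n).trans
      (arm_le_q (by norm_num) (by norm_num) n ζ)

end Pool.Agent.R975.BG
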