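import Pool.Agent.R975.BG.Dir

/-!
# The 2-neighbour graphs percolate in every dimension (helper975): domination of a star model

A directed star model on a group `G` with a projection to `ℤ²` is compared with a star model on
`ℤ²` by exploring, at the first visit of a fibre, the vertices of the fibre near the entrance.
-/

set_option autoImplicit false

namespace Pool.Agent.R975.BG

open Finset H974
open Pool.Agent.R975.BN (V stp)

/-- a group with steps and a projection to the plane -/
structure Fib (G D : Type) [AddCommGroup G] where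
  step : D → G
  pr : G → V
  cl : D → Option (Fin 4)
  hsome : ∀ x δ c, cl δ = some c → pr (x + step δ) = pr x + stp c
  hnone : ∀ x δ, cl δ = none → pr (x + step δ) = pr x

variable {G D : Type} [AddCommGroup G] [DecidableEq G] [Fintype D] [DecidableEq D]

/-- at most `k` steps -/
def Nr (Φ : Fib G D) : ℕ → G → G → Prop
  | 0, p, y => y = p
  | k + 1, p, y => Nr Φ k p y ∨ ∃ z, Nr Φ k p z ∧ ∃ δ, y = z + Φ.step δ

variable (Φ : Fib G D)

theorem Nr.succ {k : ℕ} {p y : G} (h : Nr Φ k p y) : Nr Φ (k + 1) p y := Or.inl h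

theorem Nr.mono {k l : ℕ} (hkl : k ≤ l) {p y : G} (h : Nr Φ k p y) : Nr Φ l p y := by
  induction l with
  | zero =>
    have : k = 0 := by omega
    subst this
    exact h
  | succ l ih =>
    rcases Nat.lt_or_ge k (l + 1) with h1 | h1
    · exact Or.inl (ih (by omega))
    · have : k = l + 1 := by omega
      subst this
      exact h

theorem Nr.trans {k l : ℕ} {p q y : G} (h : Nr Φ k p q) (h' : Nr Φ l q y) : Nr Φ (k + l) p y := by
  induction l generalizing y with
  | zero =>
    have : y = q := h'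
    subst this
    exact h
  | succ l ih =>
    rcases h' with h' | ⟨z, hz, δ, hδ⟩
    · exact Or.inl (ih h')
    · exact Or.inr ⟨z, ih hz, δ, hδ⟩

theorem Nr.self (k : ℕ) (p : G) : Nr Φ k p p := by
  have h : Nr Φ 0 p p := rfl
  exact Nr.mono Φ (Nat.zero_le k) h

/-- a directed step -/
def XS (W : Set G) (U : Set V) (η : G → Finset D) (a b : G) : Prop :=
  a ∈ W ∧ Φ.pr a ∈ U ∧ ∃ δ ∈ η a, b = a + Φ.step δ

/-- a directed path from `P` to a fibre over `T` -/
def RX (W : Set G) (U T : Set V) (P : Set G) (η : G → Finset D) : Prop :=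
  ∃ x ∈ P, ∃ y, Φ.pr y ∈ T ∧ Relation.ReflTransGen (XS Φ W U η) x y

theorem XS.mono {W W' : Set G} {U U' : Set V} {η η' : G → Finset D}
    (h : ∀ a, a ∈ W → Φ.pr a ∈ U → a ∈ W' ∧ Φ.pr a ∈ U' ∧ η a ⊆ η' a) {a b : G}
    (hab : Relation.ReflTransGen (XS Φ W U η) a b) : Relation.ReflTransGen (XS Φ W' U' η') a b := by
  induction hab with
  | refl => exact Relation.ReflTransGen.refl
  | tail _ h2 ih =>
    obtain ⟨h3, h4, δ, h5, h6⟩ := h2
    obtain ⟨h7, h8, h9⟩ := h _ h3 h4
    exact ih.tail ⟨h7, h8, δ, h9 h5, h6⟩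

/-- the exits of the fibre of `x` which are found near `x` -/
def Ext (x : G) (η : G → Finset D) : Set G :=
  {e | (∃ c, Φ.pr e = Φ.pr x + stp c) ∧ Nr Φ 3 x e ∧
    Relation.ReflTransGen (XS Φ {y | Nr Φ 2 x y} {Φ.pr x} η) x e}

/-- the directions of these exits -/
noncomputable def Sx (x : G) (η : G → Finset D) : S4 := by
  classical exact univ.filter (fun c => ∃ e ∈ Ext Φ x η, Φ.pr e = Φ.pr x + stp c)

theorem mem_Sx {x : G} {η : G → Finset D} {c : Fin 4} :
    c ∈ Sx Φ x η ↔ ∃ e ∈ Ext Φ x η, Φ.pr e = Φ.pr x + stp c := by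
  classical
  unfold Sx
  simp only [Finset.mem_filter, Finset.mem_univ, true_and]

theorem Ext_congr {x : G} {η η' : G → Finset D} (h : ∀ a, Φ.pr a = Φ.pr x → η a = η' a) :
    Ext Φ x η = Ext Φ x η' := by
  ext e
  constructor
  · rintro ⟨h1, h2, h3⟩
    refine ⟨h1, h2, XS.mono Φ ?_ h3⟩
    intro a ha hb
    exact ⟨ha, hb, by rw [h a hb]⟩
  · rintro ⟨h1, h2, h3⟩
    refine ⟨h1, h2, XS.mono Φ ?_ h3⟩
    intro a ha hb
    exact ⟨ha, hb, by rw [h a hb]⟩

theorem Sx_congr {x : G} {η η' : G → Finset D} (h : ∀ a, Φ.pr a = Φ.pr x → η a = η' a) :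
    Sx Φ x η = Sx Φ x η' := by
  ext c
  rw [mem_Sx, mem_Sx, Ext_congr Φ h]

/-- Fubini -/
theorem EL_swap {G1 T1 G2 T2 : Type} [DecidableEq G1] [Fintype T1] [DecidableEq G2] [Fintype T2]
    (m1 : G1 → T1 → ℝ) (m2 : G2 → T2 → ℝ) (h : (G1 → T1) → (G2 → T2) → ℝ) (L1 : List G1)
    (L2 : List G2) : ∀ (η : G1 → T1) (ζ : G2 → T2),
    EL m1 L1 (fun η => EL m2 L2 (fun ζ => h η ζ) ζ) η
      = EL m2 L2 (fun ζ => EL m1 L1 (fun η => h η ζ) η) ζ := by
  induction L2 with
  | nil => intro η ζ; rfl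
  | cons v L2 ih =>
    intro η ζ
    have e1 : EL m1 L1 (fun η => EL m2 (v :: L2) (fun ζ => h η ζ) ζ) η
        = EL m1 L1 (fun η => ∑ s, m2 v s * EL m2 L2 (fun ζ => h η ζ) (Function.update ζ v s)) η := rfl
    rw [e1, EL_sum]
    show _ = ∑ s, m2 v s * EL m2 L2 (fun ζ => EL m1 L1 (fun η => h η ζ) η) (Function.update ζ v s)
    apply Finset.sum_congr rfl
    intro s _
    rw [EL_mul, ih]

theorem RB_union (U T B1 B2 : Set V) (ζ : V → S4) :
    RB U T (B1 ∪ B2) ζ ↔ RB U T B1 ζ ∨ RB U T B2 ζ := by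
  constructor
  · rintro ⟨b, hb | hb, h⟩
    · exact Or.inl ⟨b, hb, h⟩
    · exact Or.inr ⟨b, hb, h⟩
  · rintro (⟨b, hb, h⟩ | ⟨b, hb, h⟩)
    · exact ⟨b, Or.inl hb, h⟩
    · exact ⟨b, Or.inr hb, h⟩

/-- the hitting form of the recursion -/
theorem ind_nxt (U T B : Set V) (v : V) (ζ : V → S4) :
    ∃ Y : S4, ∀ s : S4, ind (RB U T (nxt B v s) ζ)
      = 1 - ind (¬ RB U T (B \ {v}) ζ) * ind (Disjoint s Y) := by
  classical
  refine ⟨univ.filter (fun c => RB U T {v + stp c} ζ), fun s => ?_⟩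
  have h1 : RB U T (nxt B v s) ζ ↔ ¬ (¬ RB U T (B \ {v}) ζ ∧
      Disjoint s (univ.filter (fun c => RB U T {v + stp c} ζ))) := by
    unfold nxt
    rw [RB_union, not_and_or, not_not]
    apply or_congr Iff.rfl
    rw [Finset.not_disjoint_iff]
    constructor
    · rintro ⟨b, ⟨c, hc, hb⟩, h⟩
      refine ⟨c, hc, ?_⟩
      rw [Finset.mem_filter]
      exact ⟨Finset.mem_univ _, b, hb, h⟩
    · rintro ⟨c, hc, h⟩
      rw [Finset.mem_filter] at h
      obtain ⟨-, b, hb, h⟩ := h
      exact ⟨b, ⟨c, hc, hb⟩, h⟩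
  rw [ind_congr h1, ind_not, ind_and]

/-- **Domination.** -/
theorem domination {ν : Finset D → ℝ} (hν0 : ∀ s, 0 ≤ ν s) (hν1 : ∑ s, ν s = 1) {μ : S4 → ℝ}
    (hμ0 : ∀ s, 0 ≤ μ s) (hμ1 : ∑ s, μ s = 1)
    (hit : ∀ (x : G) (W : Finset G) (η : G → Finset D), (∀ y, Nr Φ 2 x y → y ∈ W) → ∀ Y : S4,
      EL (fun _ => ν) W.toList (fun η => ind (Disjoint (Sx Φ x η) Y)) η
        ≤ ∑ s, μ s * ind (Disjoint s Y))
    (T : Set V) (W : Finset G) : ∀ (k : ℕ) (U : Finset V), U.card = k → (∀ u ∈ U, u ∉ T) →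
    ∀ (P : Set G), (∀ p ∈ P, ∀ y, Nr Φ (3 * k) p y → y ∈ W) → ∀ (η : G → Finset D) (ζ : V → S4),
    qB μ U T (Φ.pr '' P) ζ ≤ EL (fun _ => ν) W.toList (fun η => ind (RX Φ ↑W ↑U T P η)) η := by
  classical
  intro k
  induction k with
  | zero =>
    intro U hU _ P _ η ζ
    rw [Finset.card_eq_zero] at hU
    subst hU
    unfold qB
    simp only [Finset.toList_empty]
    show ind (RB ↑(∅ : Finset V) T (Φ.pr '' P) ζ) ≤ _
    rw [ind_congr (RB_stuck (by simp) ζ)]
    have h1 := EL_mono (m := fun _ => ν) (fun _ s => hν0 s)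
      (f := fun _ => ind (∃ b ∈ Φ.pr '' P, b ∈ T))
      (g := fun η => ind (RX Φ ↑W ↑(∅ : Finset V) T P η)) (fun η => by
        apply ind_mono
        rintro ⟨b, ⟨p, hp, rfl⟩, hb⟩
        exact ⟨p, hp, p, hb, Relation.ReflTransGen.refl⟩) W.toList η
    rwa [EL_const (fun _ => hν1)] at h1
  | succ k ih =>
    intro U hU hUT P hP η ζ
    by_cases hB : ∃ x ∈ P, Φ.pr x ∈ U
    · obtain ⟨x, hxP, hxU⟩ := hB
      set v : V := Φ.pr x with hv
      have hvT := hUT v hxU
      have hcard : (U.erase v).card = k := by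
        rw [Finset.card_erase_of_mem hxU, hU]
        rfl
      have ih' := ih (U.erase v) hcard (fun u hu => hUT u (Finset.mem_of_mem_erase hu))
      have hball : ∀ y, Nr Φ 2 x y → y ∈ W := fun y hy => hP x hxP y (Nr.mono Φ (by omega) hy)
      set P' : Set G := {p | p ∈ P ∧ Φ.pr p ≠ v} with hP'
      set Q : (G → Finset D) → Set G := fun η => P' ∪ Ext Φ x η with hQ
      have hprQ : ∀ η, Φ.pr '' (Q η) = nxt (Φ.pr '' P) v (Sx Φ x η) := by
        intro η
        ext w
        constructor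
        · rintro ⟨p, hp | hp, rfl⟩
          · exact Or.inl ⟨⟨p, hp.1, rfl⟩, hp.2⟩
          · obtain ⟨c, hc⟩ := hp.1
            exact Or.inr ⟨c, (mem_Sx Φ).2 ⟨p, hp, hc⟩, hc⟩
        · rintro (⟨⟨p, hp, rfl⟩, hw⟩ | ⟨c, hc, hw⟩)
          · exact ⟨p, Or.inl ⟨hp, hw⟩, rfl⟩
          · obtain ⟨e, he, hec⟩ := (mem_Sx Φ).1 hc
            exact ⟨e, Or.inr he, by rw [hec, hw]⟩
      have hQrad : ∀ η, ∀ q ∈ Q η, ∀ y, Nr Φ (3 * k) q y → y ∈ W := by
        rintro η q (hq | hq) y hy
        · exact hP q hq.1 y (Nr.mono Φ (by omega) hy)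
        · apply hP x hxP y
          have := Nr.trans Φ hq.2.1 hy
          exact Nr.mono Φ (by omega) this
      -- first step: the inclusion of events
      have s1 : EL (fun _ => ν) W.toList (fun η => ind (RX Φ ↑W ↑(U.erase v) T (Q η) η)) η ≤
          EL (fun _ => ν) W.toList (fun η => ind (RX Φ ↑W ↑U T P η)) η := by
        apply EL_mono (fun _ s => hν0 s)
        intro η
        apply ind_mono
        have hUU : ∀ a b, Relation.ReflTransGen (XS Φ ↑W ↑(U.erase v) η) a b →
            Relation.ReflTransGen (XS Φ ↑W ↑U η) a b := by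
          intro a b hab
          apply XS.mono Φ _ hab
          intro c hc hc2
          exact ⟨hc, Finset.mem_of_mem_erase hc2, subset_rfl⟩
        rintro ⟨q, hq | hq, y, hy, hr⟩
        · exact ⟨q, hq.1, y, hy, hUU _ _ hr⟩
        · refine ⟨x, hxP, y, hy, ?_⟩
          refine Relation.ReflTransGen.trans ?_ (hUU _ _ hr)
          apply XS.mono Φ _ hq.2.2
          intro a ha hb
          have hb' : Φ.pr a = v := hb
          exact ⟨hball a ha, by rw [hb']; exact hxU, subset_rfl⟩
      refine le_trans ?_ s1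
      -- split the list
      set Lv : List G := (W.filter (fun a => Φ.pr a = v)).toList with hLv
      set Lr : List G := (W.filter (fun a => ¬ Φ.pr a = v)).toList with hLr
      have hperm : W.toList.Perm (Lv ++ Lr) := by
        rw [List.perm_ext_iff_of_nodup (Finset.nodup_toList _)]
        · intro a
          rw [List.mem_append, hLv, hLr, Finset.mem_toList, Finset.mem_toList, Finset.mem_toList,
            Finset.mem_filter, Finset.mem_filter]
          tauto
        · rw [List.nodup_append]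
          refine ⟨Finset.nodup_toList _, Finset.nodup_toList _, ?_⟩
          intro a ha b hb hab
          rw [hLv, Finset.mem_toList, Finset.mem_filter] at ha
          rw [hLr, Finset.mem_toList, Finset.mem_filter] at hb
          exact hb.2 (hab ▸ ha.2)
      have hsplit : ∀ (f : (G → Finset D) → ℝ) (η : G → Finset D),
          EL (fun _ => ν) W.toList f η = EL (fun _ => ν) Lv (EL (fun _ => ν) Lr f) η := by
        intro f η
        rw [EL_perm hperm, EL_append]
      have hinner : ∀ η' : G → Finset D, qB μ (U.erase v) T (nxt (Φ.pr '' P) v (Sx Φ x η')) ζ ≤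
          EL (fun _ => ν) Lr (fun η => ind (RX Φ ↑W ↑(U.erase v) T (Q η) η)) η' := by
        intro η'
        have e1 : EL (fun _ => ν) Lr (fun η => ind (RX Φ ↑W ↑(U.erase v) T (Q η) η)) η'
            = EL (fun _ => ν) Lr (fun η => ind (RX Φ ↑W ↑(U.erase v) T (Q η') η)) η' := by
          apply EL_congr_off
          intro η'' h''
          have : Q η'' = Q η' := by
            show P' ∪ Ext Φ x η'' = P' ∪ Ext Φ x η'
            rw [Ext_congr Φ]
            intro a ha
            apply h''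
            rw [hLr, Finset.mem_toList, Finset.mem_filter]
            rintro ⟨-, h3⟩
            exact h3 ha
          rw [this]
        have hdep : Dep {a : G | Φ.pr a ≠ v}
            (fun η => ind (RX Φ ↑W ↑(U.erase v) T (Q η') η)) := by
          intro η1 η2 h12
          apply ind_congr
          have key : ∀ η1 η2 : G → Finset D, (∀ a ∈ {a : G | Φ.pr a ≠ v}, η1 a = η2 a) →
              RX Φ ↑W ↑(U.erase v) T (Q η') η1 → RX Φ ↑W ↑(U.erase v) T (Q η') η2 := by
            rintro η1 η2 h12 ⟨q, hq, y, hy, hr⟩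
            refine ⟨q, hq, y, hy, XS.mono Φ ?_ hr⟩
            intro a ha hb
            refine ⟨ha, hb, ?_⟩
            rw [h12 a (by
              intro h
              rw [Finset.mem_coe, Finset.mem_erase] at hb
              exact hb.1 h)]
          exact ⟨key η1 η2 h12, key η2 η1 (fun a ha => (h12 a ha).symm)⟩
        have e2 : EL (fun _ => ν) W.toList (fun η => ind (RX Φ ↑W ↑(U.erase v) T (Q η') η)) η'
            = EL (fun _ => ν) Lr (fun η => ind (RX Φ ↑W ↑(U.erase v) T (Q η') η)) η' := by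
          rw [hsplit]
          apply EL_of_dep (fun _ => hν1) (W := {a : G | Φ.pr a ≠ v}) (hdep.EL Lr)
          intro a ha h
          rw [hLv, Finset.mem_toList, Finset.mem_filter] at ha
          exact h ha.2
        rw [e1, ← e2, ← hprQ]
        exact ih' (Q η') (hQrad η') η' ζ
      rw [hsplit]
      refine le_trans ?_ (EL_mono (m := fun _ => ν) (fun _ s => hν0 s) hinner Lv η)
      -- the comparison of the laws of the exits
      have hhit : ∀ Y : S4, EL (fun _ => ν) Lv (fun η => ind (Disjoint (Sx Φ x η) Y)) η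
          ≤ ∑ s, μ s * ind (Disjoint s Y) := by
        intro Y
        have h1 := hit x W η hball Y
        rw [hsplit] at h1
        have hdep : Dep {a : G | Φ.pr a = v} (fun η => ind (Disjoint (Sx Φ x η) Y)) := by
          intro η1 η2 h12
          show ind (Disjoint (Sx Φ x η1) Y) = ind (Disjoint (Sx Φ x η2) Y)
          rw [Sx_congr Φ (η := η1) (η' := η2)]
          intro a ha
          exact h12 a ha
        have h2 : EL (fun _ => ν) Lr (fun η => ind (Disjoint (Sx Φ x η) Y))
            = (fun η => ind (Disjoint (Sx Φ x η) Y)) := by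
          funext η'
          apply EL_of_dep (fun _ => hν1) hdep
          intro a ha h
          rw [hLr, Finset.mem_toList, Finset.mem_filter] at ha
          exact ha.2 h
        rw [h2] at h1
        exact h1
      have hvB : v ∈ Φ.pr '' P := ⟨x, hxP, rfl⟩
      rw [qB_rec μ hxU hvB hvT]
      unfold qB
      rw [EL_swap]
      have e5 : ∑ s, μ s * EL (fun _ => μ) (U.erase v).toList
          (fun ζ => ind (RB ↑(U.erase v) T (nxt (Φ.pr '' P) v s) ζ)) ζ
          = EL (fun _ => μ) (U.erase v).toList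
          (fun ζ => ∑ s, μ s * ind (RB ↑(U.erase v) T (nxt (Φ.pr '' P) v s) ζ)) ζ := by
        rw [EL_sum]
        apply Finset.sum_congr rfl
        intro s _
        rw [EL_mul]
      rw [e5]
      apply EL_mono (fun _ s => hμ0 s)
      intro ζ'
      obtain ⟨Y, hY⟩ := ind_nxt ↑(U.erase v) T (Φ.pr '' P) v ζ'
      set A0 : ℝ := ind (¬ RB ↑(U.erase v) T ((Φ.pr '' P) \ {v}) ζ') with hA0
      have hA0n : 0 ≤ A0 := ind_nonneg _
      have e6 : ∑ s, μ s * ind (RB ↑(U.erase v) T (nxt (Φ.pr '' P) v s) ζ')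
          = 1 - A0 * ∑ s, μ s * ind (Disjoint s Y) := by
        rw [Finset.mul_sum, ← hμ1, ← Finset.sum_sub_distrib]
        apply Finset.sum_congr rfl
        intro s _
        rw [hY]
        ring
      have e7 : EL (fun _ => ν) Lv (fun η => ind (RB ↑(U.erase v) T
          (nxt (Φ.pr '' P) v (Sx Φ x η)) ζ')) η
          = 1 - A0 * EL (fun _ => ν) Lv (fun η => ind (Disjoint (Sx Φ x η) Y)) η := by
        have : (fun η => ind (RB ↑(U.erase v) T (nxt (Φ.pr '' P) v (Sx Φ x η)) ζ'))
            = (fun η => 1 + (-A0) * ind (Disjoint (Sx Φ x η) Y)) := by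
          funext η
          rw [hY]
          ring
        rw [this, EL_add, EL_const (fun _ => hν1), EL_mul]
        ring
      rw [e6, e7]
      have := mul_le_mul_of_nonneg_left (hhit Y) hA0n
      linarith
    · have hB' : ∀ b ∈ Φ.pr '' P, b ∉ U := by
        rintro b ⟨p, hp, rfl⟩ hbU
        exact hB ⟨p, hp, hbU⟩
      have e0 : qB μ U T (Φ.pr '' P) ζ = ind (∃ b ∈ Φ.pr '' P, b ∈ T) := by
        unfold qB
        rw [EL_congr_off (g := fun _ => ind (∃ b ∈ Φ.pr '' P, b ∈ T)) _ _
          (fun η' _ => ind_congr (RB_stuck (fun b hb => hB' b hb) η')), EL_const (fun _ => hμ1)]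
      rw [e0]
      have h1 := EL_mono (m := fun _ => ν) (fun _ s => hν0 s)
        (f := fun _ => ind (∃ b ∈ Φ.pr '' P, b ∈ T))
        (g := fun η => ind (RX Φ ↑W ↑U T P η)) (fun η => by
          apply ind_mono
          rintro ⟨b, ⟨p, hp, rfl⟩, hb⟩
          exact ⟨p, hp, p, hb, Relation.ReflTransGen.refl⟩) W.toList η
      rwa [EL_const (fun _ => hν1)] at h1

end Pool.Agent.R975.BG
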