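import Pool.Agent.R975.BG.Vol
import Pool.Agent.R975.BG.Dct

/-!
# The 2-neighbour graphs percolate in every dimension (helper975): dimensions one and two
-/

set_option autoImplicit false

namespace Pool.Agent.R975.BG

open MeasureTheory ProbabilityTheory
open Finset H974
open Pool.Agent.R975.BN (V stp bnd mem_box)
open Pool.Agent.R975.BG2 (uvec Choice law Pick percD percU thetaD thetaU)

theorem hit_two (x : Fin 2 → ℤ) (W : Finset (Fin 2 → ℤ))
    (η : (Fin 2 → ℤ) → Finset (Fin 2 × Bool))
    (hW : ∀ y, Nr (Pd 2 1) 2 x y → y ∈ W) (Y : S4) :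
    EL (fun _ => nu2) W.toList (fun η => ind (Disjoint (Sx (Pd 2 1) x η) Y)) η
      ≤ ∑ s, muO s * ind (Disjoint s Y) := by
  have hD : 2 ≤ Fintype.card (Fin 2 × Bool) := by rw [card_dir]; omega
  have hzz : ZZ (Pd 2 1) = ∅ := by
    rw [← Finset.card_eq_zero, card_ZZ (by omega)]
  have h1 := EL_mono (m := fun _ : Fin 2 → ℤ => (nu2 : Finset (Fin 2 × Bool) → ℝ))
    (fun _ s => nu2_nonneg hD s) (f := fun η => ind (Disjoint (Sx (Pd 2 1) x η) Y))
    (g := fun η => ind (Disjoint (η x) (BB (Pd 2 1) Y)))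
    (fun η => by
      have h2 := miss_le (Pd 2 1) (opf 2) (Y := Y) (x := x) (η := η)
      have h3 : m2 (Pd 2 1) (opf 2) Y x η = ind (Disjoint (η x) (BB (Pd 2 1) Y)) := by
        unfold m2
        rw [hzz]
        simp
      rw [h3] at h2
      exact h2) W.toList η
  refine h1.trans ?_
  have hx : x ∈ W.toList := Finset.mem_toList.2 (hW x (Nr.self _ 2 x))
  have h2 := EL_single (m := fun _ : Fin 2 → ℤ => (nu2 : Finset (Fin 2 × Bool) → ℝ))
    (fun _ => nu2_one hD) (Finset.nodup_toList W) hx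
    (fun s => ind (Disjoint s (BB (Pd 2 1) Y))) η
  rw [h2, muO_miss]
  have h3 := nu2_miss (D := Fin 2 × Bool) (B := BB (Pd 2 1) Y) (A := ∅)
    (Finset.disjoint_empty_left _) 0
  have h4 : ∀ s : Finset (Fin 2 × Bool), (ind (Disjoint s (BB (Pd 2 1) Y)) *
      ∏ _w ∈ s.filter (fun w => w ∈ (∅ : Finset (Fin 2 × Bool))), (0:ℝ))
      = ind (Disjoint s (BB (Pd 2 1) Y)) := by
    intro s
    simp
  rw [Finset.sum_congr rfl (fun s _ => by rw [← h4 s]), h3, card_BB (by omega), card_dir]
  apply le_of_eq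
  unfold QQ mO
  simp only [Finset.card_empty]
  push_cast
  ring

theorem An_lower_two {d : ℕ} [NeZero d] (hd : d = 2) {n : ℕ} (hn : 1 ≤ n) :
    cst / 4 ≤ (law d).real (An RD n) := by
  subst hd
  classical
  set W : Finset (Gd 2) := ball 2 (3 * (Ub n).card) with hW
  have hD2 : 2 ≤ Fintype.card (Fin 2 × Bool) := by rw [card_dir]; omega
  have h1 := domination (Pd 2 1) (ν := nu2) (fun s => nu2_nonneg hD2 s) (nu2_one hD2)
    (μ := muO) (fun s => muO_nonneg s) muO_one
    hit_two (bnd n) W (Ub n).card (Ub n) rfl (fun u hu => (mem_Ub.1 hu).2) {0}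
    (by
      intro p hp y hy
      rw [Set.mem_singleton_iff] at hp
      subst hp
      exact Nr_ball hy) (fun _ => ∅) (fun _ => ∅)
  have h2 : (Pd 2 1).pr '' {0} = ({0} : Set V) := by
    have h3 : (Pd 2 1).pr 0 = 0 := by
      show prj 2 1 0 = 0
      unfold prj
      simp
    rw [Set.image_singleton, h3]
  rw [h2] at h1
  refine le_trans (two_lower hn (fun _ => ∅)) (le_trans h1 ?_)
  rw [← law_event W.toList (fun η => RX (Pd 2 1) ↑W ↑(Ub n) (bnd n) {0} η)
    (Finset.nodup_toList _)]
  refine measureReal_mono ?_ (measure_ne_top _ _)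
  intro ω hω
  exact RX_sap hω

/-- **the 2-neighbour graphs percolate in dimension two** -/
theorem theta_two {d : ℕ} [NeZero d] (hd : d = 2) : 0 < thetaD d ∧ 0 < thetaU d := by
  have h1 : cst / 4 ≤ thetaD d := by
    apply thetaD_ge
    intro n
    rcases Nat.eq_zero_or_pos n with hn | hn
    · subst hn
      refine (An_lower_two hd (n := 1) le_rfl).trans ?_
      exact measureReal_mono (An_anti RD (Nat.zero_le 1)) (measure_ne_top _ _)
    · exact An_lower_two hd hn
  have h2 := cst_pos
  exact ⟨by linarith, by linarith [thetaU_ge (d := d)]⟩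

theorem percD_one (ω : Gd 1 → Choice 1) : ω ∈ percD 1 := by
  refine ⟨fun n _ => (n:ℤ), ?_, ?_, ?_⟩
  · intro n m h
    have h' : (n:ℤ) = m := congrFun h 0
    exact_mod_cast h'
  · funext i
    rfl
  · intro n
    have h1 : (ω (fun _ => (n:ℤ))).1 = univ := by
      rw [← Finset.card_eq_iff_eq_univ, (ω (fun _ => (n:ℤ))).2]
      rfl
    refine ⟨(0, true), ?_, ?_⟩
    · rw [h1]
      exact Finset.mem_univ _
    · funext i
      rw [Pi.add_apply, uvec_apply, if_pos (Subsingleton.elim _ _), if_pos rfl]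
      push_cast
      rfl

theorem theta_one {d : ℕ} [NeZero d] (hd : d = 1) : 0 < thetaD d ∧ 0 < thetaU d := by
  subst hd
  have h1 : thetaD 1 = 1 := by
    unfold BG2.thetaD
    have : percD 1 = Set.univ := by
      ext ω
      simp only [Set.mem_univ, iff_true]
      exact percD_one ω
    rw [this]
    simp
  have h2 := thetaU_ge (d := 1)
  rw [h1] at h2
  rw [h1]
  exact ⟨one_pos, by linarith⟩

/-- **the 2-neighbour graphs percolate in every dimension** -/
theorem theta_all (d : ℕ) [hd0 : NeZero d] : 0 < thetaD d ∧ 0 < thetaU d := by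
  have h0 : d ≠ 0 := hd0.out
  rcases Nat.lt_or_ge d 3 with h | h
  · have : d = 1 ∨ d = 2 := by omega
    rcases this with h1 | h1
    · exact theta_one h1
    · exact theta_two h1
  · exact theta_pos h

end Pool.Agent.R975.BG
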