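import Pool.Agent.R975.BN.Conn

/-!
# The 2-neighbour graphs percolate in every dimension (helper975): the local picture
-/

set_option autoImplicit false

namespace Pool.Agent.R975.BG

open Pool.Agent.R975.BN (V stp stp_opp opp_opp back)

def nrm (z : V) : ℕ := z.1.natAbs + z.2.natAbs

/-- the next step towards the centre -/
def nx (z : V) : Fin 4 :=
  if z.2.natAbs ≤ z.1.natAbs then (if 0 < z.1 then 2 else 0) else (if 0 < z.2 then 3 else 1)

/-- the way from `z` to the centre, without the centre -/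
def slitL : ℕ → V → List V
  | 0, _ => []
  | k + 1, z => if z = 0 then [] else z :: slitL k (z + stp (nx z))

/-- the interior vertices which are not on the way from `a` to the centre -/
def Wb (a z : V) : Bool := decide (z ≠ 0) && decide (nrm z ≤ 3) && !decide (z ∈ slitL 4 a)

/-- check of a list of vertices with directions to earlier vertices -/
def okT (a : V) : List V → List (V × Fin 4) → Bool
  | _, [] => true
  | seen, t :: l => Wb a t.1 && decide (t.1 + stp t.2 ∈ seen) && okT a (t.1 :: seen) l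

def pts3 : List V :=
  [(-3, 0), (-2, -1), (-2, 0), (-2, 1), (-1, -2), (-1, -1), (-1, 0), (-1, 1), (-1, 2), (0, -3), (0,
    -2), (0, -1), (0, 0), (0, 1), (0, 2), (0, 3), (1, -2), (1, -1), (1, 0), (1, 1), (1, 2), (2,
    -1), (2, 0), (2, 1), (3, 0)]

def fr4 : List V :=
  [(-4, 0), (-3, -1), (-3, 1), (-2, -2), (-2, 2), (-1, -3), (-1, 3), (0, -4), (0, 4), (1, -3), (1,
    3), (2, -2), (2, 2), (3, -1), (3, 1), (4, 0)]

def dirs : List (Fin 4) := [0, 1, 2, 3]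

def chk (a base : V) (l : List (V × Fin 4)) : Bool :=
  Wb a base && okT a [base] l &&
  pts3.all (fun z => !Wb a z || decide (z = base) || decide (z ∈ l.map Prod.fst)) &&
  fr4.all (fun b => decide (b = a) || dirs.any (fun c => Wb a (b + stp c))) &&
  dirs.any (fun c => dirs.any (fun c' => !decide (c = c') && Wb a (stp c) && Wb a (stp c'))) &&
  (slitL 4 a).all (fun z => decide (z ≠ 0) && (decide (z = a) || decide (nrm z ≤ 3)) &&
    decide (nrm z ≤ 4) && (decide (z + stp (nx z) = 0) || decide (z + stp (nx z) ∈ slitL 4 a)) &&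
    decide (nrm (z + stp (nx z)) < nrm z) &&
    (decide (0 ≤ z.1 ∧ z.1 ≤ a.1) || decide (a.1 ≤ z.1 ∧ z.1 ≤ 0)) &&
    (decide (0 ≤ z.2 ∧ z.2 ≤ a.2) || decide (a.2 ≤ z.2 ∧ z.2 ≤ 0))) &&
  (decide (a = 0) || decide (a ∈ slitL 4 a))

def tab : List (V × V × List (V × Fin 4)) := [
((-4, 0), (1, 0), [((2, 0), 2), ((1, 1), 3), ((1, -1), 1), ((3, 0), 2), ((2, 1), 3), ((2, -1), 1),
    ((1, 2), 3), ((0, 1), 0), ((0, -1), 0), ((1, -2), 1), ((0, 2), 0), ((-1, 1), 0), ((-1, -1),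
    0), ((0, -2), 1), ((0, 3), 3), ((-1, 2), 0), ((-2, 1), 0), ((-2, -1), 0), ((-1, -2), 1), ((0,
    -3), 1)]),
((-3, -1), (1, 0), [((2, 0), 2), ((1, 1), 3), ((1, -1), 1), ((3, 0), 2), ((2, 1), 3), ((2, -1),
    1), ((1, 2), 3), ((0, 1), 0), ((1, -2), 1), ((0, 2), 0), ((-1, 1), 0), ((0, -2), 0), ((0, 3),
    3), ((-1, 2), 0), ((-2, 1), 0), ((-1, 0), 1), ((-1, -2), 0), ((0, -3), 1), ((-2, 0), 1), ((-3,
    0), 0)]),
((-3, 1), (1, 0), [((2, 0), 2), ((1, 1), 3), ((1, -1), 1), ((3, 0), 2), ((2, 1), 3), ((2, -1), 1),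
    ((1, 2), 3), ((0, -1), 0), ((1, -2), 1), ((0, 2), 0), ((-1, -1), 0), ((0, -2), 1), ((0, 3),
    3), ((-1, 2), 0), ((-1, 0), 3), ((-2, -1), 0), ((-1, -2), 1), ((0, -3), 1), ((-2, 0), 0),
    ((-3, 0), 0)]),
((-2, -2), (1, 0), [((2, 0), 2), ((1, 1), 3), ((1, -1), 1), ((3, 0), 2), ((2, 1), 3), ((2, -1),
    1), ((1, 2), 3), ((0, 1), 0), ((1, -2), 1), ((0, 2), 0), ((-1, 1), 0), ((0, -2), 0), ((0, 3),
    3), ((-1, 2), 0), ((-2, 1), 0), ((-1, 0), 1), ((0, -3), 1), ((-2, 0), 1), ((-3, 0), 0), ((-2,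
    -1), 1)]),
((-2, 2), (1, 0), [((2, 0), 2), ((1, 1), 3), ((1, -1), 1), ((3, 0), 2), ((2, 1), 3), ((2, -1), 1),
    ((1, 2), 3), ((0, -1), 0), ((1, -2), 1), ((0, 2), 0), ((-1, -1), 0), ((0, -2), 1), ((0, 3),
    3), ((-1, 0), 3), ((-2, -1), 0), ((-1, -2), 1), ((0, -3), 1), ((-2, 0), 0), ((-2, 1), 3),
    ((-3, 0), 0)]),
((-1, -3), (1, 0), [((2, 0), 2), ((1, 1), 3), ((1, -1), 1), ((3, 0), 2), ((2, 1), 3), ((2, -1),
    1), ((1, 2), 3), ((0, 1), 0), ((1, -2), 1), ((0, 2), 0), ((-1, 1), 0), ((0, -2), 0), ((0, 3),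
    3), ((-1, 2), 0), ((-2, 1), 0), ((-1, 0), 1), ((0, -3), 1), ((-2, 0), 1), ((-3, 0), 0), ((-2,
    -1), 1)]),
((-1, 3), (1, 0), [((2, 0), 2), ((1, 1), 3), ((1, -1), 1), ((3, 0), 2), ((2, 1), 3), ((2, -1), 1),
    ((1, 2), 3), ((0, -1), 0), ((1, -2), 1), ((0, 2), 0), ((-1, -1), 0), ((0, -2), 1), ((0, 3),
    3), ((-1, 0), 3), ((-2, -1), 0), ((-1, -2), 1), ((0, -3), 1), ((-2, 0), 0), ((-2, 1), 3),
    ((-3, 0), 0)]),
((0, -4), (1, 0), [((2, 0), 2), ((1, 1), 3), ((1, -1), 1), ((3, 0), 2), ((2, 1), 3), ((2, -1), 1),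
    ((1, 2), 3), ((0, 1), 0), ((1, -2), 1), ((0, 2), 0), ((-1, 1), 0), ((0, 3), 3), ((-1, 2), 0),
    ((-2, 1), 0), ((-1, 0), 1), ((-2, 0), 1), ((-1, -1), 1), ((-3, 0), 0), ((-2, -1), 1), ((-1,
    -2), 1)]),
((0, 0), (1, 0), [((2, 0), 2), ((1, 1), 3), ((1, -1), 1), ((3, 0), 2), ((2, 1), 3), ((2, -1), 1),
    ((1, 2), 3), ((0, 1), 0), ((0, -1), 0), ((1, -2), 1), ((0, 2), 0), ((-1, 1), 0), ((-1, -1),
    0), ((0, -2), 1), ((0, 3), 3), ((-1, 2), 0), ((-2, 1), 0), ((-1, 0), 1), ((-2, -1), 0), ((-1,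
    -2), 1), ((0, -3), 1), ((-2, 0), 1), ((-3, 0), 0)]),
((0, 4), (1, 0), [((2, 0), 2), ((1, 1), 3), ((1, -1), 1), ((3, 0), 2), ((2, 1), 3), ((2, -1), 1),
    ((1, 2), 3), ((0, -1), 0), ((1, -2), 1), ((-1, -1), 0), ((0, -2), 1), ((-1, 0), 3), ((-2, -1),
    0), ((-1, -2), 1), ((0, -3), 1), ((-1, 1), 3), ((-2, 0), 0), ((-1, 2), 3), ((-2, 1), 0), ((-3,
    0), 0)]),
((1, -3), (1, 0), [((2, 0), 2), ((1, 1), 3), ((3, 0), 2), ((2, 1), 3), ((2, -1), 1), ((1, 2), 3),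
    ((0, 1), 0), ((0, 2), 0), ((-1, 1), 0), ((0, 3), 3), ((-1, 2), 0), ((-2, 1), 0), ((-1, 0), 1),
    ((-2, 0), 1), ((-1, -1), 1), ((-3, 0), 0), ((-2, -1), 1), ((-1, -2), 1), ((0, -2), 2), ((0,
    -3), 1)]),
((1, 3), (1, 0), [((2, 0), 2), ((1, -1), 1), ((3, 0), 2), ((2, 1), 3), ((2, -1), 1), ((0, -1), 0),
    ((1, -2), 1), ((-1, -1), 0), ((0, -2), 1), ((-1, 0), 3), ((-2, -1), 0), ((-1, -2), 1), ((0,
    -3), 1), ((-1, 1), 3), ((-2, 0), 0), ((-1, 2), 3), ((-2, 1), 0), ((-3, 0), 0), ((0, 2), 2),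
    ((0, 3), 3)]),
((2, -2), (1, 0), [((2, 0), 2), ((1, 1), 3), ((3, 0), 2), ((2, 1), 3), ((2, -1), 1), ((1, 2), 3),
    ((0, 1), 0), ((0, 2), 0), ((-1, 1), 0), ((0, 3), 3), ((-1, 2), 0), ((-2, 1), 0), ((-1, 0), 1),
    ((-2, 0), 1), ((-1, -1), 1), ((-3, 0), 0), ((-2, -1), 1), ((-1, -2), 1), ((0, -2), 2), ((0,
    -3), 1)]),
((2, 2), (1, 0), [((2, 0), 2), ((1, -1), 1), ((3, 0), 2), ((2, 1), 3), ((2, -1), 1), ((0, -1), 0),
    ((1, -2), 1), ((-1, -1), 0), ((0, -2), 1), ((-1, 0), 3), ((-2, -1), 0), ((-1, -2), 1), ((0,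
    -3), 1), ((-1, 1), 3), ((-2, 0), 0), ((-1, 2), 3), ((-2, 1), 0), ((-3, 0), 0), ((0, 2), 2),
    ((0, 3), 3)]),
((3, -1), (1, 0), [((2, 0), 2), ((1, 1), 3), ((3, 0), 2), ((2, 1), 3), ((1, 2), 3), ((0, 1), 0),
    ((0, 2), 0), ((-1, 1), 0), ((0, 3), 3), ((-1, 2), 0), ((-2, 1), 0), ((-1, 0), 1), ((-2, 0),
    1), ((-1, -1), 1), ((-3, 0), 0), ((-2, -1), 1), ((-1, -2), 1), ((0, -2), 2), ((1, -2), 2),
    ((0, -3), 1)]),
((3, 1), (1, 0), [((2, 0), 2), ((1, -1), 1), ((3, 0), 2), ((2, -1), 1), ((0, -1), 0), ((1, -2),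
    1), ((-1, -1), 0), ((0, -2), 1), ((-1, 0), 3), ((-2, -1), 0), ((-1, -2), 1), ((0, -3), 1),
    ((-1, 1), 3), ((-2, 0), 0), ((-1, 2), 3), ((-2, 1), 0), ((-3, 0), 0), ((0, 2), 2), ((1, 2),
    2), ((0, 3), 3)]),
((4, 0), (0, 1), [((1, 1), 2), ((0, 2), 3), ((-1, 1), 0), ((2, 1), 2), ((1, 2), 3), ((0, 3), 3),
    ((-1, 2), 0), ((-2, 1), 0), ((-1, 0), 1), ((-2, 0), 1), ((-1, -1), 1), ((-3, 0), 0), ((-2,
    -1), 1), ((0, -1), 2), ((-1, -2), 1), ((1, -1), 2), ((0, -2), 1), ((2, -1), 2), ((1, -2), 1),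
    ((0, -3), 1)])]

theorem tab_ok : tab.all (fun t => chk t.1 t.2.1 t.2.2) = true := by decide +kernel

theorem a_mem {a : V} (h : a = 0 ∨ nrm a = 4) : ∃ t ∈ tab, t.1 = a := by
  obtain ⟨p, q⟩ := a
  have hm : (p, q) ∈ tab.map Prod.fst := by
    rcases h with h | h
    · rw [h]
      decide +kernel
    · have h' : p.natAbs + q.natAbs = 4 := h
      have hp1 : -4 ≤ p := by omega
      have hp2 : p ≤ 4 := by omega
      have hq1 : -4 ≤ q := by omega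
      have hq2 : q ≤ 4 := by omega
      interval_cases p <;> interval_cases q <;> first | (exfalso; revert h'; decide) | decide +kernel
  rw [List.mem_map] at hm
  exact hm

theorem pts3_mem {z : V} (h : nrm z ≤ 3) : z ∈ pts3 := by
  obtain ⟨p, q⟩ := z
  have h' : p.natAbs + q.natAbs ≤ 3 := h
  have hp1 : -3 ≤ p := by omega
  have hp2 : p ≤ 3 := by omega
  have hq1 : -3 ≤ q := by omega
  have hq2 : q ≤ 3 := by omega
  interval_cases p <;> interval_cases q <;> first | (exfalso; revert h'; decide) | decide +kernel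

theorem fr4_mem {z : V} (h : nrm z = 4) : z ∈ fr4 := by
  obtain ⟨p, q⟩ := z
  have h' : p.natAbs + q.natAbs = 4 := h
  have hp1 : -4 ≤ p := by omega
  have hp2 : p ≤ 4 := by omega
  have hq1 : -4 ≤ q := by omega
  have hq2 : q ≤ 4 := by omega
  interval_cases p <;> interval_cases q <;> first | (exfalso; revert h'; decide) | decide +kernel

/-- steps inside the interior -/
def RW (a z z' : V) : Prop := Wb a z = true ∧ Wb a z' = true ∧ ∃ c, z' = z + stp c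

theorem RW.symm {a z z' : V} (h : RW a z z') : RW a z' z := by
  obtain ⟨h1, h2, c, h3⟩ := h
  refine ⟨h2, h1, c + 2, ?_⟩
  rw [h3, back]

theorem RW.symm_path {a z z' : V} (h : Relation.ReflTransGen (RW a) z z') :
    Relation.ReflTransGen (RW a) z' z := by
  induction h with
  | refl => exact Relation.ReflTransGen.refl
  | tail _ h2 ih => exact Relation.ReflTransGen.head h2.symm ih

theorem okT_sound {a base : V} : ∀ (l : List (V × Fin 4)) (seen : List V),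
    (∀ z ∈ seen, Wb a z = true ∧ Relation.ReflTransGen (RW a) z base) → okT a seen l = true →
    ∀ z ∈ l.map Prod.fst, Relation.ReflTransGen (RW a) z base := by
  intro l
  induction l with
  | nil =>
    intro seen _ _ z hz
    simp at hz
  | cons t l ih =>
    intro seen hs hok z hz
    unfold okT at hok
    rw [Bool.and_eq_true, Bool.and_eq_true, decide_eq_true_iff] at hok
    obtain ⟨⟨h1, h2⟩, h3⟩ := hok
    have h4 : Relation.ReflTransGen (RW a) t.1 base :=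
      Relation.ReflTransGen.head ⟨h1, (hs _ h2).1, t.2, rfl⟩ (hs _ h2).2
    rw [List.map_cons, List.mem_cons] at hz
    rcases hz with rfl | hz
    · exact h4
    · refine ih (t.1 :: seen) ?_ h3 z hz
      intro w hw
      rcases List.mem_cons.1 hw with rfl | hw
      · exact ⟨h1, h4⟩
      · exact hs w hw

/-- steps inside the interior or to `b` -/
def RT (a b z z' : V) : Prop := Wb a z = true ∧ (Wb a z' = true ∨ z' = b) ∧ ∃ c, z' = z + stp c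

theorem RW.toRT {a b z z' : V} (h : Relation.ReflTransGen (RW a) z z') :
    Relation.ReflTransGen (RT a b) z z' := by
  induction h with
  | refl => exact Relation.ReflTransGen.refl
  | tail _ h2 ih => exact ih.tail ⟨h2.1, Or.inl h2.2.1, h2.2.2⟩

theorem slit_facts {a : V} (ha : a = 0 ∨ nrm a = 4) :
    (∀ z ∈ slitL 4 a, z ≠ 0 ∧ (z = a ∨ nrm z ≤ 3) ∧ nrm z ≤ 4 ∧
      (z + stp (nx z) = 0 ∨ z + stp (nx z) ∈ slitL 4 a) ∧ nrm (z + stp (nx z)) < nrm z ∧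
      ((0 ≤ z.1 ∧ z.1 ≤ a.1) ∨ (a.1 ≤ z.1 ∧ z.1 ≤ 0)) ∧
      ((0 ≤ z.2 ∧ z.2 ≤ a.2) ∨ (a.2 ≤ z.2 ∧ z.2 ≤ 0))) ∧ (a = 0 ∨ a ∈ slitL 4 a) ∧
    (∃ c c' : Fin 4, c ≠ c' ∧ Wb a (stp c) = true ∧ Wb a (stp c') = true) := by
  obtain ⟨t, ht, hta⟩ := a_mem ha
  have h := List.all_eq_true.1 tab_ok t ht
  rw [hta] at h
  unfold chk at h
  simp only [Bool.and_eq_true] at h
  obtain ⟨⟨⟨⟨⟨⟨h1, h2⟩, h3⟩, h4⟩, h5⟩, h6⟩, h7⟩ := h
  refine ⟨?_, ?_, ?_⟩
  · intro z hz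
    have h8 := List.all_eq_true.1 h6 z hz
    simp only [Bool.and_eq_true, Bool.or_eq_true, decide_eq_true_iff] at h8
    obtain ⟨⟨⟨⟨⟨⟨g1, g2⟩, g3⟩, g4⟩, g5⟩, g6⟩, g7⟩ := h8
    exact ⟨g1, g2, g3, g4, g5, g6, g7⟩
  · simp only [Bool.or_eq_true, decide_eq_true_iff] at h7
    exact h7
  · obtain ⟨c, -, hc⟩ := List.any_eq_true.1 h5
    obtain ⟨c', -, hc'⟩ := List.any_eq_true.1 hc
    simp only [Bool.and_eq_true, Bool.not_eq_true', decide_eq_false_iff_not] at hc'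
    exact ⟨c, c', hc'.1.1, hc'.1.2, hc'.2⟩

/-- every vertex of the interior is connected to `b` -/
theorem geo_conn {a b : V} (ha : a = 0 ∨ nrm a = 4)
    (hb : Wb a b = true ∨ (nrm b = 4 ∧ b ≠ a)) {u : V} (hu : Wb a u = true) :
    Relation.ReflTransGen (RT a b) u b := by
  obtain ⟨t, ht, hta⟩ := a_mem ha
  have h := List.all_eq_true.1 tab_ok t ht
  rw [hta] at h
  unfold chk at h
  simp only [Bool.and_eq_true] at h
  obtain ⟨⟨⟨⟨⟨⟨h1, h2⟩, h3⟩, h4⟩, h5⟩, h6⟩, h7⟩ := h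
  have key : ∀ z, Wb a z = true → Relation.ReflTransGen (RW a) z t.2.1 := by
    intro z hz
    have hz3 : nrm z ≤ 3 := by
      unfold Wb at hz
      simp only [Bool.and_eq_true, decide_eq_true_iff] at hz
      exact hz.1.2
    have h8 := List.all_eq_true.1 h3 z (pts3_mem hz3)
    simp only [Bool.or_eq_true, Bool.not_eq_true', decide_eq_true_iff] at h8
    rcases h8 with (h8 | h8) | h8
    · rw [hz] at h8
      cases h8
    · rw [h8]
    · refine okT_sound t.2.2 [t.2.1] ?_ h2 z h8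
      intro w hw
      rw [List.mem_singleton] at hw
      subst hw
      exact ⟨h1, Relation.ReflTransGen.refl⟩
  rcases hb with hb | ⟨hb, hba⟩
  · exact RW.toRT ((key u hu).trans (RW.symm_path (key b hb)))
  · have h8 := List.all_eq_true.1 h4 b (fr4_mem hb)
    simp only [Bool.or_eq_true, decide_eq_true_iff] at h8
    rcases h8 with h8 | h8
    · exact absurd h8 hba
    · obtain ⟨c, -, hc⟩ := List.any_eq_true.1 h8
      refine (RW.toRT ((key u hu).trans (RW.symm_path (key _ hc)))).tail ⟨hc, Or.inr rfl, c + 2, ?_⟩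
      rw [back]

end Pool.Agent.R975.BG
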