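import Mathlib

/-!
# The 2-neighbour graphs percolate in every dimension (helper975): numerical bounds
-/

set_option autoImplicit false

namespace Pool.Agent.R975.BG

/-- the value of the second elementary symmetric mean -/
noncomputable def QQ (n a z c : ℝ) : ℝ := ((a + z * c) ^ 2 - (a + z * c ^ 2)) / (n * (n - 1))

theorem QQ_le {n a z c : ℝ} (hn : 1 < n) (ha : 0 ≤ a) (hz : 0 ≤ z) (h : a + z ≤ n) (hc : 0 ≤ c) :
    QQ n a z c ≤ ((a + z * c) / n) ^ 2 := by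
  unfold QQ
  have hn0 : 0 < n := by linarith
  have hn1 : 0 < n - 1 := by linarith
  rw [div_pow, div_le_div_iff₀ (mul_pos hn0 hn1) (by positivity)]
  have h1 : (a + z * c) ^ 2 ≤ (a + z) * (a + z * c ^ 2) := by
    have : 0 ≤ a * z * (1 - c) ^ 2 := by positivity
    nlinarith [this]
  have h2 : (a + z) * (a + z * c ^ 2) ≤ n * (a + z * c ^ 2) :=
    mul_le_mul_of_nonneg_right h (by positivity)
  have h3 : (a + z * c) ^ 2 ≤ n * (a + z * c ^ 2) := le_trans h1 h2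
  have h4 : n * (a + z * c) ^ 2 ≤ n * (n * (a + z * c ^ 2)) :=
    mul_le_mul_of_nonneg_left h3 hn0.le
  nlinarith [h4]

theorem QQ_nonneg {n a z c : ℝ} (hn : 1 < n) (ha : 1 ≤ a) (hz : 0 ≤ z) (hc : 0 ≤ c) (hc1 : c ≤ 1) :
    0 ≤ QQ n a z c := by
  unfold QQ
  apply div_nonneg
  · have h1 : z * c ^ 2 ≤ z * c := by
      apply mul_le_mul_of_nonneg_left _ hz
      nlinarith
    have h2 : 0 ≤ z * c := mul_nonneg hz hc
    nlinarith
  · nlinarith

theorem QQ_le_one {n a z c : ℝ} (hn : 1 < n) (ha : 0 ≤ a) (hz : 0 ≤ z) (h : a + z ≤ n) (hc : 0 ≤ c)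
    (hc1 : c ≤ 1) : QQ n a z c ≤ 1 := by
  refine le_trans (QQ_le hn ha hz h hc) ?_
  have h1 : z * c ≤ z := by nlinarith
  have h2 : (a + z * c) / n ≤ 1 := by
    rw [div_le_one (by linarith)]
    linarith
  have h3 : 0 ≤ (a + z * c) / n := by positivity
  nlinarith

theorem big {n z be al R : ℝ} (hz : 2 ≤ z) (hal : 0 ≤ al) (hbe : 0 ≤ be)
    (hsum : al + z + be = n)
    (hP : 0 ≤ R * n ^ 7 - (al * n ^ 6 + z * ((al + 2) * n ^ 2 + (z - 2) * (n - be) ^ 2) ^ 2)) :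
    QQ n al z (QQ n (al + 2) (z - 2) (QQ n (n - be) 0 0)) ≤ R ^ 2 := by
  have hn : 1 < n := by linarith
  have hn0 : 0 < n := by linarith
  set γ := QQ n (n - be) 0 0 with hγ
  have g0 : 0 ≤ γ := QQ_nonneg hn (by linarith) le_rfl le_rfl zero_le_one
  have g1 : γ ≤ 1 := QQ_le_one hn (by linarith) le_rfl (by linarith) le_rfl zero_le_one
  have g2 : γ ≤ ((n - be) / n) ^ 2 := by
    have := QQ_le hn (a := n - be) (z := 0) (c := 0) (by linarith) le_rfl (by linarith) le_rfl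
    simpa using this
  set c := QQ n (al + 2) (z - 2) γ with hc
  have c0 : 0 ≤ c := QQ_nonneg hn (by linarith) (by linarith) g0 g1
  have c2 : c ≤ ((al + 2 + (z - 2) * ((n - be) / n) ^ 2) / n) ^ 2 := by
    refine le_trans (QQ_le hn (by linarith) (by linarith) (by linarith) g0) ?_
    apply pow_le_pow_left₀
    · apply div_nonneg _ hn0.le
      have := mul_nonneg (show 0 ≤ z - 2 by linarith) g0
      linarith
    · apply div_le_div_of_nonneg_right _ hn0.le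
      have := mul_le_mul_of_nonneg_left g2 (show 0 ≤ z - 2 by linarith)
      linarith
  refine le_trans (QQ_le hn hal (by linarith) (by linarith) c0) ?_
  have hz0 : 0 ≤ z := by linarith
  apply pow_le_pow_left₀
  · positivity
  · have h1 : (al + z * c) / n ≤
        (al + z * ((al + 2 + (z - 2) * ((n - be) / n) ^ 2) / n) ^ 2) / n := by
      apply div_le_div_of_nonneg_right _ hn0.le
      have := mul_le_mul_of_nonneg_left c2 hz0
      linarith
    refine le_trans h1 ?_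
    have h2 : (al + z * ((al + 2 + (z - 2) * ((n - be) / n) ^ 2) / n) ^ 2) / n
        = (al * n ^ 6 + z * ((al + 2) * n ^ 2 + (z - 2) * (n - be) ^ 2) ^ 2) / n ^ 7 := by
      field_simp
    rw [h2, div_le_iff₀ (by positivity)]
    linarith

theorem p01 {t : ℝ} (ht : 0 ≤ t) :
    0 ≤ 7049 / 10000 * (8 * (t + 2) - 4) ^ 7 - ((3 * (t + 2)) * (8 * (t + 2) - 4) ^ 6 +
      (4 * (t + 2) - 4) * (((3 * (t + 2)) + 2) * (8 * (t + 2) - 4) ^ 2 +
      ((4 * (t + 2) - 4) - 2) * ((8 * (t + 2) - 4) - (1 * (t + 2))) ^ 2) ^ 2) := by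
  have h : 7049 / 10000 * (8 * (t + 2) - 4) ^ 7 - ((3 * (t + 2)) * (8 * (t + 2) - 4) ^ 6 +
      (4 * (t + 2) - 4) * (((3 * (t + 2)) + 2) * (8 * (t + 2) - 4) ^ 2 +
      ((4 * (t + 2) - 4) - 2) * ((8 * (t + 2) - 4) - (1 * (t + 2))) ^ 2) ^ 2)
      = 18950912 / 625 * t ^ 0 + 809984256 / 625 * t ^ 1 + 3059728512 / 625 * t ^ 2 + 991118336 / 125 * t ^ 3 + 857058224 / 125 * t ^ 4 + 2073718448 / 625 * t ^ 5 + 530908544 / 625 * t ^ 6 + 56046528 / 625 * t ^ 7 := by ring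
  rw [h]
  positivity

theorem p02 {t : ℝ} (ht : 0 ≤ t) :
    0 ≤ 497 / 1000 * (8 * (t + 2) - 4) ^ 7 - ((2 * (t + 2)) * (8 * (t + 2) - 4) ^ 6 +
      (4 * (t + 2) - 4) * (((2 * (t + 2)) + 2) * (8 * (t + 2) - 4) ^ 2 +
      ((4 * (t + 2) - 4) - 2) * ((8 * (t + 2) - 4) - (2 * (t + 2))) ^ 2) ^ 2) := by
  have h : 497 / 1000 * (8 * (t + 2) - 4) ^ 7 - ((2 * (t + 2)) * (8 * (t + 2) - 4) ^ 6 +
      (4 * (t + 2) - 4) * (((2 * (t + 2)) + 2) * (8 * (t + 2) - 4) ^ 2 +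
      ((4 * (t + 2) - 4) - 2) * ((8 * (t + 2) - 4) - (2 * (t + 2))) ^ 2) ^ 2)
      = 241027072 / 125 * t ^ 0 + 1304846336 / 125 * t ^ 1 + 2967836672 / 125 * t ^ 2 + 736751616 / 25 * t ^ 3 + 539852544 / 25 * t ^ 4 + 1168953088 / 125 * t ^ 5 + 277182464 / 125 * t ^ 6 + 27757568 / 125 * t ^ 7 := by ring
  rw [h]
  positivity

theorem p03 {t : ℝ} (ht : 0 ≤ t) :
    0 ≤ 3503 / 10000 * (8 * (t + 2) - 4) ^ 7 - ((1 * (t + 2)) * (8 * (t + 2) - 4) ^ 6 +
      (4 * (t + 2) - 4) * (((1 * (t + 2)) + 2) * (8 * (t + 2) - 4) ^ 2 +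
      ((4 * (t + 2) - 4) - 2) * ((8 * (t + 2) - 4) - (3 * (t + 2))) ^ 2) ^ 2) := by
  have h : 3503 / 10000 * (8 * (t + 2) - 4) ^ 7 - ((1 * (t + 2)) * (8 * (t + 2) - 4) ^ 6 +
      (4 * (t + 2) - 4) * (((1 * (t + 2)) + 2) * (8 * (t + 2) - 4) ^ 2 +
      ((4 * (t + 2) - 4) - 2) * ((8 * (t + 2) - 4) - (3 * (t + 2))) ^ 2) ^ 2)
      = 3062686464 / 625 * t ^ 0 + 14953496832 / 625 * t ^ 1 + 31212353664 / 625 * t ^ 2 + 7215086592 / 125 * t ^ 3 + 4984279728 / 125 * t ^ 4 + 10284801456 / 625 * t ^ 5 + 2346384768 / 625 * t ^ 6 + 228065216 / 625 * t ^ 7 := by ring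
  rw [h]
  positivity

theorem p04 {t : ℝ} (ht : 0 ≤ t) :
    0 ≤ 247009 / 1000000 * (8 * (t + 2) - 4) ^ 7 - ((0 * (t + 2)) * (8 * (t + 2) - 4) ^ 6 +
      (4 * (t + 2) - 4) * (((0 * (t + 2)) + 2) * (8 * (t + 2) - 4) ^ 2 +
      ((4 * (t + 2) - 4) - 2) * ((8 * (t + 2) - 4) - (4 * (t + 2))) ^ 2) ^ 2) := by
  have h : 247009 / 1000000 * (8 * (t + 2) - 4) ^ 7 - ((0 * (t + 2)) * (8 * (t + 2) - 4) ^ 6 +
      (4 * (t + 2) - 4) * (((0 * (t + 2)) + 2) * (8 * (t + 2) - 4) ^ 2 +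
      ((4 * (t + 2) - 4) - 2) * ((8 * (t + 2) - 4) - (4 * (t + 2))) ^ 2) ^ 2)
      = 131893422848 / 15625 * t ^ 0 + 618489306624 / 15625 * t ^ 1 + 1242354613248 / 15625 * t ^ 2 + 277051602944 / 3125 * t ^ 3 + 185166135296 / 3125 * t ^ 4 + 370857070592 / 15625 * t ^ 5 + 82426904576 / 15625 * t ^ 6 + 7837990912 / 15625 * t ^ 7 := by ring
  rw [h]
  positivity

theorem p11 {t : ℝ} (ht : 0 ≤ t) :
    0 ≤ 7049 / 10000 * (8 * (t + 2) - 2) ^ 7 - ((3 * (t + 2)) * (8 * (t + 2) - 2) ^ 6 +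
      (4 * (t + 2) - 2) * (((3 * (t + 2)) + 2) * (8 * (t + 2) - 2) ^ 2 +
      ((4 * (t + 2) - 2) - 2) * ((8 * (t + 2) - 2) - (1 * (t + 2))) ^ 2) ^ 2) := by
  have h : 7049 / 10000 * (8 * (t + 2) - 2) ^ 7 - ((3 * (t + 2)) * (8 * (t + 2) - 2) ^ 6 +
      (4 * (t + 2) - 2) * (((3 * (t + 2)) + 2) * (8 * (t + 2) - 2) ^ 2 +
      ((4 * (t + 2) - 2) - 2) * ((8 * (t + 2) - 2) - (1 * (t + 2))) ^ 2) ^ 2)
      = 967716856 / 625 * t ^ 0 + 5008667424 / 625 * t ^ 1 + 10505175584 / 625 * t ^ 2 + 2358790016 / 125 * t ^ 3 + 1546989152 / 125 * t ^ 4 + 2982504832 / 625 * t ^ 5 + 628679968 / 625 * t ^ 6 + 56046528 / 625 * t ^ 7 := by ring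
  rw [h]
  positivity

theorem p12 {t : ℝ} (ht : 0 ≤ t) :
    0 ≤ 497 / 1000 * (8 * (t + 2) - 2) ^ 7 - ((2 * (t + 2)) * (8 * (t + 2) - 2) ^ 6 +
      (4 * (t + 2) - 2) * (((2 * (t + 2)) + 2) * (8 * (t + 2) - 2) ^ 2 +
      ((4 * (t + 2) - 2) - 2) * ((8 * (t + 2) - 2) - (2 * (t + 2))) ^ 2) ^ 2) := by
  have h : 497 / 1000 * (8 * (t + 2) - 2) ^ 7 - ((2 * (t + 2)) * (8 * (t + 2) - 2) ^ 6 +
      (4 * (t + 2) - 2) * (((2 * (t + 2)) + 2) * (8 * (t + 2) - 2) ^ 2 +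
      ((4 * (t + 2) - 2) - 2) * ((8 * (t + 2) - 2) - (2 * (t + 2))) ^ 2) ^ 2)
      = 921213936 / 125 * t ^ 0 + 3978983744 / 125 * t ^ 1 + 7315192704 / 125 * t ^ 2 + 1485181696 / 25 * t ^ 3 + 899622912 / 25 * t ^ 4 + 1626606592 / 125 * t ^ 5 + 325278208 / 125 * t ^ 6 + 27757568 / 125 * t ^ 7 := by ring
  rw [h]
  positivity

theorem p13 {t : ℝ} (ht : 0 ≤ t) :
    0 ≤ 3503 / 10000 * (8 * (t + 2) - 2) ^ 7 - ((1 * (t + 2)) * (8 * (t + 2) - 2) ^ 6 +
      (4 * (t + 2) - 2) * (((1 * (t + 2)) + 2) * (8 * (t + 2) - 2) ^ 2 +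
      ((4 * (t + 2) - 2) - 2) * ((8 * (t + 2) - 2) - (3 * (t + 2))) ^ 2) ^ 2) := by
  have h : 3503 / 10000 * (8 * (t + 2) - 2) ^ 7 - ((1 * (t + 2)) * (8 * (t + 2) - 2) ^ 6 +
      (4 * (t + 2) - 2) * (((1 * (t + 2)) + 2) * (8 * (t + 2) - 2) ^ 2 +
      ((4 * (t + 2) - 2) - 2) * ((8 * (t + 2) - 2) - (3 * (t + 2))) ^ 2) ^ 2)
      = 9611049032 / 625 * t ^ 0 + 39626076128 / 625 * t ^ 1 + 69894927648 / 625 * t ^ 2 + 13674647552 / 125 * t ^ 3 + 8012651744 / 125 * t ^ 4 + 14061976704 / 625 * t ^ 5 + 2737668896 / 625 * t ^ 6 + 228065216 / 625 * t ^ 7 := by ring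
  rw [h]
  positivity

theorem p14 {t : ℝ} (ht : 0 ≤ t) :
    0 ≤ 247009 / 1000000 * (8 * (t + 2) - 2) ^ 7 - ((0 * (t + 2)) * (8 * (t + 2) - 2) ^ 6 +
      (4 * (t + 2) - 2) * (((0 * (t + 2)) + 2) * (8 * (t + 2) - 2) ^ 2 +
      ((4 * (t + 2) - 2) - 2) * ((8 * (t + 2) - 2) - (4 * (t + 2))) ^ 2) ^ 2) := by
  have h : 247009 / 1000000 * (8 * (t + 2) - 2) ^ 7 - ((0 * (t + 2)) * (8 * (t + 2) - 2) ^ 6 +
      (4 * (t + 2) - 2) * (((0 * (t + 2)) + 2) * (8 * (t + 2) - 2) ^ 2 +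
      ((4 * (t + 2) - 2) - 2) * ((8 * (t + 2) - 2) - (4 * (t + 2))) ^ 2) ^ 2)
      = 379911065774 / 15625 * t ^ 0 + 1530632263096 / 15625 * t ^ 1 + 2641050736736 / 15625 * t ^ 2 + 505984673664 / 3125 * t ^ 3 + 290620727808 / 3125 * t ^ 4 + 500448790528 / 15625 * t ^ 5 + 95695388672 / 15625 * t ^ 6 + 7837990912 / 15625 * t ^ 7 := by ring
  rw [h]
  positivity

theorem p21 {t : ℝ} (ht : 0 ≤ t) :
    0 ≤ 7049 / 10000 * (8 * (t + 2)) ^ 7 - ((3 * (t + 2)) * (8 * (t + 2)) ^ 6 +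
      (4 * (t + 2)) * (((3 * (t + 2)) + 2) * (8 * (t + 2)) ^ 2 +
      ((4 * (t + 2)) - 2) * ((8 * (t + 2)) - (1 * (t + 2))) ^ 2) ^ 2) := by
  have h : 7049 / 10000 * (8 * (t + 2)) ^ 7 - ((3 * (t + 2)) * (8 * (t + 2)) ^ 6 +
      (4 * (t + 2)) * (((3 * (t + 2)) + 2) * (8 * (t + 2)) ^ 2 +
      ((4 * (t + 2)) - 2) * ((8 * (t + 2)) - (1 * (t + 2))) ^ 2) ^ 2)
      = 3377155584 / 625 * t ^ 0 + 13754444544 / 625 * t ^ 1 + 23515266816 / 625 * t ^ 2 + 4396811136 / 125 * t ^ 3 + 2435705568 / 125 * t ^ 4 + 4007258352 / 625 * t ^ 5 + 726451392 / 625 * t ^ 6 + 56046528 / 625 * t ^ 7 := by ring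
  rw [h]
  positivity

theorem p22 {t : ℝ} (ht : 0 ≤ t) :
    0 ≤ 497 / 1000 * (8 * (t + 2)) ^ 7 - ((2 * (t + 2)) * (8 * (t + 2)) ^ 6 +
      (4 * (t + 2)) * (((2 * (t + 2)) + 2) * (8 * (t + 2)) ^ 2 +
      ((4 * (t + 2)) - 2) * ((8 * (t + 2)) - (2 * (t + 2))) ^ 2) ^ 2) := by
  have h : 497 / 1000 * (8 * (t + 2)) ^ 7 - ((2 * (t + 2)) * (8 * (t + 2)) ^ 6 +
      (4 * (t + 2)) * (((2 * (t + 2)) + 2) * (8 * (t + 2)) ^ 2 +
      ((4 * (t + 2)) - 2) * ((8 * (t + 2)) - (2 * (t + 2))) ^ 2) ^ 2)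
      = 2527944704 / 125 * t ^ 0 + 9385406464 / 125 * t ^ 1 + 14871965696 / 125 * t ^ 2 + 2608879616 / 25 * t ^ 3 + 1368503808 / 25 * t ^ 4 + 2147283712 / 125 * t ^ 5 + 373373952 / 125 * t ^ 6 + 27757568 / 125 * t ^ 7 := by ring
  rw [h]
  positivity

theorem p23 {t : ℝ} (ht : 0 ≤ t) :
    0 ≤ 3503 / 10000 * (8 * (t + 2)) ^ 7 - ((1 * (t + 2)) * (8 * (t + 2)) ^ 6 +
      (4 * (t + 2)) * (((1 * (t + 2)) + 2) * (8 * (t + 2)) ^ 2 +
      ((4 * (t + 2)) - 2) * ((8 * (t + 2)) - (3 * (t + 2))) ^ 2) ^ 2) := by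
  have h : 3503 / 10000 * (8 * (t + 2)) ^ 7 - ((1 * (t + 2)) * (8 * (t + 2)) ^ 6 +
      (4 * (t + 2)) * (((1 * (t + 2)) + 2) * (8 * (t + 2)) ^ 2 +
      ((4 * (t + 2)) - 2) * ((8 * (t + 2)) - (3 * (t + 2))) ^ 2) ^ 2)
      = 24612187648 / 625 * t ^ 0 + 88676096768 / 625 * t ^ 1 + 136692625152 / 625 * t ^ 2 + 23374904192 / 125 * t ^ 3 + 11973712096 / 125 * t ^ 4 + 18374748144 / 625 * t ^ 5 + 3128953024 / 625 * t ^ 6 + 228065216 / 625 * t ^ 7 := by ring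
  rw [h]
  positivity

theorem p24 {t : ℝ} (ht : 0 ≤ t) :
    0 ≤ 247009 / 1000000 * (8 * (t + 2)) ^ 7 - ((0 * (t + 2)) * (8 * (t + 2)) ^ 6 +
      (4 * (t + 2)) * (((0 * (t + 2)) + 2) * (8 * (t + 2)) ^ 2 +
      ((4 * (t + 2)) - 2) * ((8 * (t + 2)) - (4 * (t + 2))) ^ 2) ^ 2) := by
  have h : 247009 / 1000000 * (8 * (t + 2)) ^ 7 - ((0 * (t + 2)) * (8 * (t + 2)) ^ 6 +
      (4 * (t + 2)) * (((0 * (t + 2)) + 2) * (8 * (t + 2)) ^ 2 +
      ((4 * (t + 2)) - 2) * ((8 * (t + 2)) - (4 * (t + 2))) ^ 2) ^ 2)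
      = 935678836736 / 15625 * t ^ 0 + 3317883928576 / 15625 * t ^ 1 + 5036729892864 / 15625 * t ^ 2 + 848670982144 / 3125 * t ^ 3 + 428559491072 / 3125 * t ^ 4 + 648599236608 / 15625 * t ^ 5 + 108963872768 / 15625 * t ^ 6 + 7837990912 / 15625 * t ^ 7 := by ring
  rw [h]
  positivity

theorem p31 {t : ℝ} (ht : 0 ≤ t) :
    0 ≤ 7049 / 10000 * (8 * (t + 2) + 2) ^ 7 - ((3 * (t + 2)) * (8 * (t + 2) + 2) ^ 6 +
      (4 * (t + 2) + 2) * (((3 * (t + 2)) + 2) * (8 * (t + 2) + 2) ^ 2 +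
      ((4 * (t + 2) + 2) - 2) * ((8 * (t + 2) + 2) - (1 * (t + 2))) ^ 2) ^ 2) := by
  have h : 7049 / 10000 * (8 * (t + 2) + 2) ^ 7 - ((3 * (t + 2)) * (8 * (t + 2) + 2) ^ 6 +
      (4 * (t + 2) + 2) * (((3 * (t + 2)) + 2) * (8 * (t + 2) + 2) ^ 2 +
      ((4 * (t + 2) + 2) - 2) * ((8 * (t + 2) + 2) - (1 * (t + 2))) ^ 2) ^ 2)
      = 7615347848 / 625 * t ^ 0 + 28077424416 / 625 * t ^ 1 + 43069425888 / 625 * t ^ 2 + 7182752576 / 125 * t ^ 3 + 3534136256 / 125 * t ^ 4 + 5147979008 / 625 * t ^ 5 + 824222816 / 625 * t ^ 6 + 56046528 / 625 * t ^ 7 := by ring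
  rw [h]
  positivity

theorem p32 {t : ℝ} (ht : 0 ≤ t) :
    0 ≤ 497 / 1000 * (8 * (t + 2) + 2) ^ 7 - ((2 * (t + 2)) * (8 * (t + 2) + 2) ^ 6 +
      (4 * (t + 2) + 2) * (((2 * (t + 2)) + 2) * (8 * (t + 2) + 2) ^ 2 +
      ((4 * (t + 2) + 2) - 2) * ((8 * (t + 2) + 2) - (2 * (t + 2))) ^ 2) ^ 2) := by
  have h : 497 / 1000 * (8 * (t + 2) + 2) ^ 7 - ((2 * (t + 2)) * (8 * (t + 2) + 2) ^ 6 +
      (4 * (t + 2) + 2) * (((2 * (t + 2)) + 2) * (8 * (t + 2) + 2) ^ 2 +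
      ((4 * (t + 2) + 2) - 2) * ((8 * (t + 2) + 2) - (2 * (t + 2))) ^ 2) ^ 2)
      = 5610377488 / 125 * t ^ 0 + 18763647296 / 125 * t ^ 1 + 26674905728 / 125 * t ^ 2 + 4184038656 / 25 * t ^ 3 + 1956865536 / 25 * t ^ 4 + 2730984448 / 125 * t ^ 5 + 421469696 / 125 * t ^ 6 + 27757568 / 125 * t ^ 7 := by ring
  rw [h]
  positivity

theorem p33 {t : ℝ} (ht : 0 ≤ t) :
    0 ≤ 3503 / 10000 * (8 * (t + 2) + 2) ^ 7 - ((1 * (t + 2)) * (8 * (t + 2) + 2) ^ 6 +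
      (4 * (t + 2) + 2) * (((1 * (t + 2)) + 2) * (8 * (t + 2) + 2) ^ 2 +
      ((4 * (t + 2) + 2) - 2) * ((8 * (t + 2) + 2) - (3 * (t + 2))) ^ 2) ^ 2) := by
  have h : 3503 / 10000 * (8 * (t + 2) + 2) ^ 7 - ((1 * (t + 2)) * (8 * (t + 2) + 2) ^ 6 +
      (4 * (t + 2) + 2) * (((1 * (t + 2)) + 2) * (8 * (t + 2) + 2) ^ 2 +
      ((4 * (t + 2) + 2) - 2) * ((8 * (t + 2) + 2) - (3 * (t + 2))) ^ 2) ^ 2)
      = 54068243256 / 625 * t ^ 0 + 175226192352 / 625 * t ^ 1 + 242328743136 / 625 * t ^ 2 + 37091863872 / 125 * t ^ 3 + 16972256832 / 125 * t ^ 4 + 23223115776 / 625 * t ^ 5 + 3520237152 / 625 * t ^ 6 + 228065216 / 625 * t ^ 7 := by ring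
  rw [h]
  positivity

theorem p34 {t : ℝ} (ht : 0 ≤ t) :
    0 ≤ 247009 / 1000000 * (8 * (t + 2) + 2) ^ 7 - ((0 * (t + 2)) * (8 * (t + 2) + 2) ^ 6 +
      (4 * (t + 2) + 2) * (((0 * (t + 2)) + 2) * (8 * (t + 2) + 2) ^ 2 +
      ((4 * (t + 2) + 2) - 2) * ((8 * (t + 2) + 2) - (4 * (t + 2))) ^ 2) ^ 2) := by
  have h : 247009 / 1000000 * (8 * (t + 2) + 2) ^ 7 - ((0 * (t + 2)) * (8 * (t + 2) + 2) ^ 6 +
      (4 * (t + 2) + 2) * (((0 * (t + 2)) + 2) * (8 * (t + 2) + 2) ^ 2 +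
      ((4 * (t + 2) + 2) - 2) * ((8 * (t + 2) + 2) - (4 * (t + 2))) ^ 2) ^ 2)
      = 2035262779442 / 15625 * t ^ 0 + 6488875758264 / 15625 * t ^ 1 + 8840370344352 / 15625 * t ^ 2 + 1334618539904 / 3125 * t ^ 3 + 602950106624 / 3125 * t ^ 4 + 815308408832 / 15625 * t ^ 5 + 122232356864 / 15625 * t ^ 6 + 7837990912 / 15625 * t ^ 7 := by ring
  rw [h]
  positivity

theorem num_bound {d m b : ℕ} (hd : 3 ≤ d) (hm : m = (d + 2) / 4) (hb : b ≤ 4) {n z be al : ℝ}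
    (hn : n = 2 * d) (hz : z = 2 * d - 4 * m) (hbe : be = m * b) (hal : al = 4 * m - m * b) :
    QQ n al z (QQ n (al + 2) (z - 2) (QQ n (n - be) 0 0)) ≤ (497 / 1000) ^ b := by
  rcases Nat.lt_or_ge d 6 with h | h
  · have : m = 1 := by omega
    subst this
    subst hn hz hbe hal
    interval_cases d <;> interval_cases b <;> (unfold QQ; norm_num)
  · obtain ⟨t, j, hj, h1⟩ : ∃ t j : ℕ, j < 4 ∧ d = 4 * t + 6 + j :=
      ⟨(d - 6) / 4, (d - 6) % 4, by omega, by omega⟩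
    have hm' : m = t + 2 := by omega
    have ht : (0:ℝ) ≤ t := Nat.cast_nonneg t
    have hj0 : (0:ℝ) ≤ j := Nat.cast_nonneg j
    have hb4 : (b:ℝ) ≤ 4 := by exact_mod_cast hb
    have hb0 : (0:ℝ) ≤ b := Nat.cast_nonneg b
    have hmr : (m:ℝ) = t + 2 := by rw [hm']; push_cast; ring
    have hdr : (d:ℝ) = 4 * t + 6 + j := by rw [h1]; push_cast; ring
    have h2z : 2 ≤ z := by rw [hz, hmr, hdr]; linarith
    have h2a : 0 ≤ al := by rw [hal, hmr]; nlinarith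
    have h2b : 0 ≤ be := by rw [hbe, hmr]; positivity
    have h2s : al + z + be = n := by rw [hal, hz, hbe, hn]; ring
    interval_cases j <;> interval_cases b
    · have hn1 : 1 < n := by linarith
      have g0 : 0 ≤ QQ n (n - be) 0 0 := QQ_nonneg hn1 (by linarith) le_rfl le_rfl zero_le_one
      have g1 : QQ n (n - be) 0 0 ≤ 1 := QQ_le_one hn1 (by linarith) le_rfl (by linarith) le_rfl zero_le_one
      have c0 := QQ_nonneg hn1 (show 1 ≤ al + 2 by linarith) (show 0 ≤ z - 2 by linarith) g0 g1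
      have c1 := QQ_le_one hn1 (show 0 ≤ al + 2 by linarith) (show 0 ≤ z - 2 by linarith) (by linarith) g0 g1
      have := QQ_le_one hn1 h2a (show 0 ≤ z by linarith) (by linarith) c0 c1
      simpa using this
    · refine le_trans (big (R := 7049 / 10000) (n := n) (z := z) (be := be) (al := al) h2z h2a h2b h2s ?_) ?_
      · have h3 := p01 ht
        have e1 : n = 8 * ((t:ℝ) + 2) - 4 + 2 * 0 := by rw [hn, h1]; push_cast; ring
        have e2 : z = 4 * ((t:ℝ) + 2) - 4 + 2 * 0 := by rw [hz, h1, hm']; push_cast; ring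
        have e3 : be = 1 * ((t:ℝ) + 2) := by rw [hbe, hm']; push_cast; ring
        have e4 : al = 3 * ((t:ℝ) + 2) := by rw [hal, hm']; push_cast; ring
        rw [e1, e2, e3, e4]
        ring_nf at h3 ⊢
        linarith
      · norm_num
    · refine le_trans (big (R := 497 / 1000) (n := n) (z := z) (be := be) (al := al) h2z h2a h2b h2s ?_) ?_
      · have h3 := p02 ht
        have e1 : n = 8 * ((t:ℝ) + 2) - 4 + 2 * 0 := by rw [hn, h1]; push_cast; ring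
        have e2 : z = 4 * ((t:ℝ) + 2) - 4 + 2 * 0 := by rw [hz, h1, hm']; push_cast; ring
        have e3 : be = 2 * ((t:ℝ) + 2) := by rw [hbe, hm']; push_cast; ring
        have e4 : al = 2 * ((t:ℝ) + 2) := by rw [hal, hm']; push_cast; ring
        rw [e1, e2, e3, e4]
        ring_nf at h3 ⊢
        linarith
      · norm_num
    · refine le_trans (big (R := 3503 / 10000) (n := n) (z := z) (be := be) (al := al) h2z h2a h2b h2s ?_) ?_
      · have h3 := p03 ht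
        have e1 : n = 8 * ((t:ℝ) + 2) - 4 + 2 * 0 := by rw [hn, h1]; push_cast; ring
        have e2 : z = 4 * ((t:ℝ) + 2) - 4 + 2 * 0 := by rw [hz, h1, hm']; push_cast; ring
        have e3 : be = 3 * ((t:ℝ) + 2) := by rw [hbe, hm']; push_cast; ring
        have e4 : al = 1 * ((t:ℝ) + 2) := by rw [hal, hm']; push_cast; ring
        rw [e1, e2, e3, e4]
        ring_nf at h3 ⊢
        linarith
      · norm_num
    · refine le_trans (big (R := 247009 / 1000000) (n := n) (z := z) (be := be) (al := al) h2z h2a h2b h2s ?_) ?_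
      · have h3 := p04 ht
        have e1 : n = 8 * ((t:ℝ) + 2) - 4 + 2 * 0 := by rw [hn, h1]; push_cast; ring
        have e2 : z = 4 * ((t:ℝ) + 2) - 4 + 2 * 0 := by rw [hz, h1, hm']; push_cast; ring
        have e3 : be = 4 * ((t:ℝ) + 2) := by rw [hbe, hm']; push_cast; ring
        have e4 : al = 0 * ((t:ℝ) + 2) := by rw [hal, hm']; push_cast; ring
        rw [e1, e2, e3, e4]
        ring_nf at h3 ⊢
        linarith
      · norm_num
    · have hn1 : 1 < n := by linarith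
      have g0 : 0 ≤ QQ n (n - be) 0 0 := QQ_nonneg hn1 (by linarith) le_rfl le_rfl zero_le_one
      have g1 : QQ n (n - be) 0 0 ≤ 1 := QQ_le_one hn1 (by linarith) le_rfl (by linarith) le_rfl zero_le_one
      have c0 := QQ_nonneg hn1 (show 1 ≤ al + 2 by linarith) (show 0 ≤ z - 2 by linarith) g0 g1
      have c1 := QQ_le_one hn1 (show 0 ≤ al + 2 by linarith) (show 0 ≤ z - 2 by linarith) (by linarith) g0 g1
      have := QQ_le_one hn1 h2a (show 0 ≤ z by linarith) (by linarith) c0 c1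
      simpa using this
    · refine le_trans (big (R := 7049 / 10000) (n := n) (z := z) (be := be) (al := al) h2z h2a h2b h2s ?_) ?_
      · have h3 := p11 ht
        have e1 : n = 8 * ((t:ℝ) + 2) - 4 + 2 * 1 := by rw [hn, h1]; push_cast; ring
        have e2 : z = 4 * ((t:ℝ) + 2) - 4 + 2 * 1 := by rw [hz, h1, hm']; push_cast; ring
        have e3 : be = 1 * ((t:ℝ) + 2) := by rw [hbe, hm']; push_cast; ring
        have e4 : al = 3 * ((t:ℝ) + 2) := by rw [hal, hm']; push_cast; ring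
        rw [e1, e2, e3, e4]
        ring_nf at h3 ⊢
        linarith
      · norm_num
    · refine le_trans (big (R := 497 / 1000) (n := n) (z := z) (be := be) (al := al) h2z h2a h2b h2s ?_) ?_
      · have h3 := p12 ht
        have e1 : n = 8 * ((t:ℝ) + 2) - 4 + 2 * 1 := by rw [hn, h1]; push_cast; ring
        have e2 : z = 4 * ((t:ℝ) + 2) - 4 + 2 * 1 := by rw [hz, h1, hm']; push_cast; ring
        have e3 : be = 2 * ((t:ℝ) + 2) := by rw [hbe, hm']; push_cast; ring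
        have e4 : al = 2 * ((t:ℝ) + 2) := by rw [hal, hm']; push_cast; ring
        rw [e1, e2, e3, e4]
        ring_nf at h3 ⊢
        linarith
      · norm_num
    · refine le_trans (big (R := 3503 / 10000) (n := n) (z := z) (be := be) (al := al) h2z h2a h2b h2s ?_) ?_
      · have h3 := p13 ht
        have e1 : n = 8 * ((t:ℝ) + 2) - 4 + 2 * 1 := by rw [hn, h1]; push_cast; ring
        have e2 : z = 4 * ((t:ℝ) + 2) - 4 + 2 * 1 := by rw [hz, h1, hm']; push_cast; ring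
        have e3 : be = 3 * ((t:ℝ) + 2) := by rw [hbe, hm']; push_cast; ring
        have e4 : al = 1 * ((t:ℝ) + 2) := by rw [hal, hm']; push_cast; ring
        rw [e1, e2, e3, e4]
        ring_nf at h3 ⊢
        linarith
      · norm_num
    · refine le_trans (big (R := 247009 / 1000000) (n := n) (z := z) (be := be) (al := al) h2z h2a h2b h2s ?_) ?_
      · have h3 := p14 ht
        have e1 : n = 8 * ((t:ℝ) + 2) - 4 + 2 * 1 := by rw [hn, h1]; push_cast; ring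
        have e2 : z = 4 * ((t:ℝ) + 2) - 4 + 2 * 1 := by rw [hz, h1, hm']; push_cast; ring
        have e3 : be = 4 * ((t:ℝ) + 2) := by rw [hbe, hm']; push_cast; ring
        have e4 : al = 0 * ((t:ℝ) + 2) := by rw [hal, hm']; push_cast; ring
        rw [e1, e2, e3, e4]
        ring_nf at h3 ⊢
        linarith
      · norm_num
    · have hn1 : 1 < n := by linarith
      have g0 : 0 ≤ QQ n (n - be) 0 0 := QQ_nonneg hn1 (by linarith) le_rfl le_rfl zero_le_one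
      have g1 : QQ n (n - be) 0 0 ≤ 1 := QQ_le_one hn1 (by linarith) le_rfl (by linarith) le_rfl zero_le_one
      have c0 := QQ_nonneg hn1 (show 1 ≤ al + 2 by linarith) (show 0 ≤ z - 2 by linarith) g0 g1
      have c1 := QQ_le_one hn1 (show 0 ≤ al + 2 by linarith) (show 0 ≤ z - 2 by linarith) (by linarith) g0 g1
      have := QQ_le_one hn1 h2a (show 0 ≤ z by linarith) (by linarith) c0 c1
      simpa using this
    · refine le_trans (big (R := 7049 / 10000) (n := n) (z := z) (be := be) (al := al) h2z h2a h2b h2s ?_) ?_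
      · have h3 := p21 ht
        have e1 : n = 8 * ((t:ℝ) + 2) - 4 + 2 * 2 := by rw [hn, h1]; push_cast; ring
        have e2 : z = 4 * ((t:ℝ) + 2) - 4 + 2 * 2 := by rw [hz, h1, hm']; push_cast; ring
        have e3 : be = 1 * ((t:ℝ) + 2) := by rw [hbe, hm']; push_cast; ring
        have e4 : al = 3 * ((t:ℝ) + 2) := by rw [hal, hm']; push_cast; ring
        rw [e1, e2, e3, e4]
        ring_nf at h3 ⊢
        linarith
      · norm_num
    · refine le_trans (big (R := 497 / 1000) (n := n) (z := z) (be := be) (al := al) h2z h2a h2b h2s ?_) ?_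
      · have h3 := p22 ht
        have e1 : n = 8 * ((t:ℝ) + 2) - 4 + 2 * 2 := by rw [hn, h1]; push_cast; ring
        have e2 : z = 4 * ((t:ℝ) + 2) - 4 + 2 * 2 := by rw [hz, h1, hm']; push_cast; ring
        have e3 : be = 2 * ((t:ℝ) + 2) := by rw [hbe, hm']; push_cast; ring
        have e4 : al = 2 * ((t:ℝ) + 2) := by rw [hal, hm']; push_cast; ring
        rw [e1, e2, e3, e4]
        ring_nf at h3 ⊢
        linarith
      · norm_num
    · refine le_trans (big (R := 3503 / 10000) (n := n) (z := z) (be := be) (al := al) h2z h2a h2b h2s ?_) ?_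
      · have h3 := p23 ht
        have e1 : n = 8 * ((t:ℝ) + 2) - 4 + 2 * 2 := by rw [hn, h1]; push_cast; ring
        have e2 : z = 4 * ((t:ℝ) + 2) - 4 + 2 * 2 := by rw [hz, h1, hm']; push_cast; ring
        have e3 : be = 3 * ((t:ℝ) + 2) := by rw [hbe, hm']; push_cast; ring
        have e4 : al = 1 * ((t:ℝ) + 2) := by rw [hal, hm']; push_cast; ring
        rw [e1, e2, e3, e4]
        ring_nf at h3 ⊢
        linarith
      · norm_num
    · refine le_trans (big (R := 247009 / 1000000) (n := n) (z := z) (be := be) (al := al) h2z h2a h2b h2s ?_) ?_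
      · have h3 := p24 ht
        have e1 : n = 8 * ((t:ℝ) + 2) - 4 + 2 * 2 := by rw [hn, h1]; push_cast; ring
        have e2 : z = 4 * ((t:ℝ) + 2) - 4 + 2 * 2 := by rw [hz, h1, hm']; push_cast; ring
        have e3 : be = 4 * ((t:ℝ) + 2) := by rw [hbe, hm']; push_cast; ring
        have e4 : al = 0 * ((t:ℝ) + 2) := by rw [hal, hm']; push_cast; ring
        rw [e1, e2, e3, e4]
        ring_nf at h3 ⊢
        linarith
      · norm_num
    · have hn1 : 1 < n := by linarith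
      have g0 : 0 ≤ QQ n (n - be) 0 0 := QQ_nonneg hn1 (by linarith) le_rfl le_rfl zero_le_one
      have g1 : QQ n (n - be) 0 0 ≤ 1 := QQ_le_one hn1 (by linarith) le_rfl (by linarith) le_rfl zero_le_one
      have c0 := QQ_nonneg hn1 (show 1 ≤ al + 2 by linarith) (show 0 ≤ z - 2 by linarith) g0 g1
      have c1 := QQ_le_one hn1 (show 0 ≤ al + 2 by linarith) (show 0 ≤ z - 2 by linarith) (by linarith) g0 g1
      have := QQ_le_one hn1 h2a (show 0 ≤ z by linarith) (by linarith) c0 c1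
      simpa using this
    · refine le_trans (big (R := 7049 / 10000) (n := n) (z := z) (be := be) (al := al) h2z h2a h2b h2s ?_) ?_
      · have h3 := p31 ht
        have e1 : n = 8 * ((t:ℝ) + 2) - 4 + 2 * 3 := by rw [hn, h1]; push_cast; ring
        have e2 : z = 4 * ((t:ℝ) + 2) - 4 + 2 * 3 := by rw [hz, h1, hm']; push_cast; ring
        have e3 : be = 1 * ((t:ℝ) + 2) := by rw [hbe, hm']; push_cast; ring
        have e4 : al = 3 * ((t:ℝ) + 2) := by rw [hal, hm']; push_cast; ring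
        rw [e1, e2, e3, e4]
        ring_nf at h3 ⊢
        linarith
      · norm_num
    · refine le_trans (big (R := 497 / 1000) (n := n) (z := z) (be := be) (al := al) h2z h2a h2b h2s ?_) ?_
      · have h3 := p32 ht
        have e1 : n = 8 * ((t:ℝ) + 2) - 4 + 2 * 3 := by rw [hn, h1]; push_cast; ring
        have e2 : z = 4 * ((t:ℝ) + 2) - 4 + 2 * 3 := by rw [hz, h1, hm']; push_cast; ring
        have e3 : be = 2 * ((t:ℝ) + 2) := by rw [hbe, hm']; push_cast; ring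
        have e4 : al = 2 * ((t:ℝ) + 2) := by rw [hal, hm']; push_cast; ring
        rw [e1, e2, e3, e4]
        ring_nf at h3 ⊢
        linarith
      · norm_num
    · refine le_trans (big (R := 3503 / 10000) (n := n) (z := z) (be := be) (al := al) h2z h2a h2b h2s ?_) ?_
      · have h3 := p33 ht
        have e1 : n = 8 * ((t:ℝ) + 2) - 4 + 2 * 3 := by rw [hn, h1]; push_cast; ring
        have e2 : z = 4 * ((t:ℝ) + 2) - 4 + 2 * 3 := by rw [hz, h1, hm']; push_cast; ring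
        have e3 : be = 3 * ((t:ℝ) + 2) := by rw [hbe, hm']; push_cast; ring
        have e4 : al = 1 * ((t:ℝ) + 2) := by rw [hal, hm']; push_cast; ring
        rw [e1, e2, e3, e4]
        ring_nf at h3 ⊢
        linarith
      · norm_num
    · refine le_trans (big (R := 247009 / 1000000) (n := n) (z := z) (be := be) (al := al) h2z h2a h2b h2s ?_) ?_
      · have h3 := p34 ht
        have e1 : n = 8 * ((t:ℝ) + 2) - 4 + 2 * 3 := by rw [hn, h1]; push_cast; ring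
        have e2 : z = 4 * ((t:ℝ) + 2) - 4 + 2 * 3 := by rw [hz, h1, hm']; push_cast; ring
        have e3 : be = 4 * ((t:ℝ) + 2) := by rw [hbe, hm']; push_cast; ring
        have e4 : al = 0 * ((t:ℝ) + 2) := by rw [hal, hm']; push_cast; ring
        rw [e1, e2, e3, e4]
        ring_nf at h3 ⊢
        linarith
      · norm_num

end Pool.Agent.R975.BG
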