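import Pool.Agent.R975.BG.Dom
import Pool.Agent.R975.BG.Num

/-!
# The 2-neighbour graphs percolate in every dimension (helper975): exits of a fibre
-/

set_option autoImplicit false

namespace Pool.Agent.R975.BG

open Finset H974
open Pool.Agent.R975.BN (V stp)

section ELprod

variable {G : Type} [DecidableEq G] {T : Type} [Fintype T] {m : G → T → ℝ}

theorem EL_prod (hp : ∀ v, ∑ s, m v s = 1) {I : Type} [DecidableEq I] (f : I → (G → T) → ℝ)
    (W : I → Set G) (hf : ∀ i, Dep (W i) (f i)) (L : List G) (η : G → T) (A : Finset I) :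
    (∀ i ∈ A, ∀ j ∈ A, i ≠ j → ∀ v, v ∈ W i → v ∉ W j) →
    EL m L (fun η => ∏ i ∈ A, f i η) η = ∏ i ∈ A, EL m L (f i) η := by
  induction A using Finset.induction_on with
  | empty =>
    intro _
    simp only [Finset.prod_empty]
    exact EL_const hp 1 L η
  | insert a A ha ih =>
    intro h
    simp only [Finset.prod_insert ha]
    have h1 : Dep (⋃ i ∈ A, W i) (fun η => ∏ i ∈ A, f i η) := by
      intro η η' h'
      apply Finset.prod_congr rfl
      intro i hi
      apply hf i
      intro v hv
      apply h'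
      rw [Set.mem_iUnion₂]
      exact ⟨i, hi, hv⟩
    rw [EL_indep (W1 := W a) (W2 := ⋃ i ∈ A, W i) _ hp (hf a) h1 L η, ih]
    · intro i hi j hj
      exact h i (Finset.mem_insert_of_mem hi) j (Finset.mem_insert_of_mem hj)
    · intro v hv hv'
      rw [Set.mem_iUnion₂] at hv'
      obtain ⟨i, hi, hv'⟩ := hv'
      exact h a (Finset.mem_insert_self _ _) i (Finset.mem_insert_of_mem hi)
        (by rintro rfl; exact ha hi) v hv hv'

/-- condition on the state of one vertex -/
theorem EL_cond {v : G} {L : List G} (hL : L.Nodup) (hv : v ∈ L) (F : T → (G → T) → ℝ)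
    (f : (G → T) → ℝ) (hf : ∀ η, f η = F (η v) η) (η : G → T) :
    EL m L f η = ∑ s, m v s * EL m (L.erase v) (F s) (Function.update η v s) := by
  have h1 : L.Perm (v :: L.erase v) := List.perm_cons_erase hv
  rw [EL_perm h1]
  show ∑ s, m v s * EL m (L.erase v) f (Function.update η v s) = _
  apply Finset.sum_congr rfl
  intro s _
  congr 1
  apply EL_congr_off
  intro η' h'
  have h2 : η' v = s := by
    rw [h' v (hL.not_mem_erase), Function.update_self]
  rw [hf, h2]

/-- a function of a single vertex -/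
theorem EL_single (hp : ∀ v, ∑ s, m v s = 1) {v : G} {L : List G} (hL : L.Nodup) (hv : v ∈ L)
    (k : T → ℝ) (η : G → T) : EL m L (fun η => k (η v)) η = ∑ s, m v s * k s := by
  rw [EL_cond hL hv (fun s _ => k s) _ (fun _ => rfl)]
  apply Finset.sum_congr rfl
  intro s _
  rw [EL_const hp]

end ELprod

section pairs

variable {D : Type} [Fintype D] [DecidableEq D]

/-- the uniform law on the pairs of elements of `D` -/
noncomputable def nu2 (s : Finset D) : ℝ :=
  if s.card = 2 then 2 / ((Fintype.card D : ℝ) * ((Fintype.card D : ℝ) - 1)) else 0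

theorem pair_sum (φ : D → ℝ) (A : Finset D) :
    2 * ∑ s ∈ A.powersetCard 2, ∏ w ∈ s, φ w = (∑ w ∈ A, φ w) ^ 2 - ∑ w ∈ A, φ w ^ 2 := by
  induction A using Finset.induction_on with
  | empty => simp [Finset.powersetCard_eq_empty.2]
  | insert a A ha ih =>
    rw [Finset.powersetCard_succ_insert ha, Finset.sum_union, Finset.sum_image, mul_add, ih,
      Finset.sum_insert ha, Finset.sum_insert ha]
    · have h1 : ∑ s ∈ A.powersetCard 1, ∏ w ∈ insert a s, φ w = φ a * ∑ w ∈ A, φ w := by
        rw [Finset.powersetCard_one, Finset.sum_map, Finset.mul_sum]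
        apply Finset.sum_congr rfl
        intro w hw
        show ∏ w ∈ insert a {w}, φ w = _
        rw [Finset.prod_insert (by
          rw [Finset.mem_singleton]
          rintro rfl
          exact ha hw), Finset.prod_singleton]
      rw [h1]
      ring
    · intro s hs t ht hst
      rw [Finset.mem_coe, Finset.mem_powersetCard] at hs ht
      have h1 : a ∉ s := fun h => ha (hs.1 h)
      have h2 : a ∉ t := fun h => ha (ht.1 h)
      rw [← Finset.erase_insert h1, ← Finset.erase_insert h2, hst]
    · rw [Finset.disjoint_left]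
      intro s hs ht
      rw [Finset.mem_image] at ht
      obtain ⟨t, -, rfl⟩ := ht
      rw [Finset.mem_powersetCard] at hs
      exact ha (hs.1 (Finset.mem_insert_self _ _))

theorem nu2_sum (φ : D → ℝ) : ∑ s, nu2 s * ∏ w ∈ s, φ w = ((∑ w, φ w) ^ 2 - ∑ w, φ w ^ 2) /
    ((Fintype.card D : ℝ) * ((Fintype.card D : ℝ) - 1)) := by
  have h1 : ∀ s : Finset D, nu2 s * ∏ w ∈ s, φ w = if s.card = 2 then
      (2 / ((Fintype.card D : ℝ) * ((Fintype.card D : ℝ) - 1))) * ∏ w ∈ s, φ w else 0 := by
    intro s
    unfold nu2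
    split_ifs <;> simp
  rw [Finset.sum_congr rfl (fun s _ => h1 s), ← Finset.sum_filter, ← Finset.mul_sum]
  have h2 : (univ.filter (fun s : Finset D => s.card = 2)) = univ.powersetCard 2 := by
    ext s
    rw [Finset.mem_filter, Finset.mem_powersetCard]
    simp
  rw [h2, div_mul_eq_mul_div, pair_sum]

theorem nu2_nonneg (hD : 2 ≤ Fintype.card D) (s : Finset D) : 0 ≤ nu2 s := by
  unfold nu2
  split_ifs
  · have : (2:ℝ) ≤ Fintype.card D := by exact_mod_cast hD
    apply div_nonneg (by norm_num)
    apply mul_nonneg <;> linarith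
  · exact le_rfl

theorem nu2_one (hD : 2 ≤ Fintype.card D) : ∑ s : Finset D, nu2 s = 1 := by
  have h := nu2_sum (D := D) (fun _ => 1)
  simp only [Finset.prod_const_one, mul_one, one_pow, Finset.sum_const, Finset.card_univ,
    nsmul_eq_mul] at h
  rw [h]
  have : (2:ℝ) ≤ Fintype.card D := by exact_mod_cast hD
  have h1 : (Fintype.card D : ℝ) * ((Fintype.card D : ℝ) - 1) ≠ 0 := by
    apply mul_ne_zero <;> linarith
  rw [div_eq_one_iff_eq h1]
  ring

/-- miss `B`, and weight `c` for the elements of `A` -/
theorem nu2_miss {B A : Finset D} (hAB : Disjoint A B) (c : ℝ) :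
    ∑ s, nu2 s * (ind (Disjoint s B) * ∏ _w ∈ s.filter (fun w => w ∈ A), c)
      = QQ (Fintype.card D) (Fintype.card D - B.card - A.card) A.card c := by
  classical
  set φ : D → ℝ := fun w => if w ∈ B then 0 else if w ∈ A then c else 1 with hφ
  have h1 : ∀ s : Finset D, ind (Disjoint s B) * ∏ _w ∈ s.filter (fun w => w ∈ A), c
      = ∏ w ∈ s, φ w := by
    intro s
    by_cases hs : Disjoint s B
    · rw [ind_of hs, one_mul, Finset.prod_filter]
      apply Finset.prod_congr rfl
      intro w hw
      have : w ∉ B := Finset.disjoint_left.1 hs hw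
      simp only [hφ, if_neg this]
    · rw [ind_not_of hs, zero_mul]
      rw [Finset.not_disjoint_iff] at hs
      obtain ⟨w, hw, hwB⟩ := hs
      symm
      apply Finset.prod_eq_zero hw
      simp only [hφ, if_pos hwB]
  rw [Finset.sum_congr rfl (fun s _ => by rw [h1 s]), nu2_sum]
  have h2 : ∀ e : ℝ, ∑ w, (if w ∈ B then 0 else if w ∈ A then e else 1)
      = (Fintype.card D - B.card - A.card) + A.card * e := by
    intro e
    have h3 : ∀ w : D, (if w ∈ B then (0:ℝ) else if w ∈ A then e else 1)
        = 1 - (if w ∈ B then 1 else 0) + (e - 1) * (if w ∈ A then 1 else 0) := by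
      intro w
      by_cases hB : w ∈ B
      · have hA : w ∉ A := Finset.disjoint_right.1 hAB hB
        simp [hA, hB]
      · by_cases hA : w ∈ A <;> simp [hA, hB]
    rw [Finset.sum_congr rfl (fun w _ => h3 w), Finset.sum_add_distrib, Finset.sum_sub_distrib,
      ← Finset.mul_sum]
    simp
    ring
  have h4 : ∑ w, φ w = (Fintype.card D - B.card - A.card) + A.card * c := h2 c
  have h5 : ∑ w, φ w ^ 2 = (Fintype.card D - B.card - A.card) + A.card * c ^ 2 := by
    rw [← h2 (c ^ 2)]
    apply Finset.sum_congr rfl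
    intro w _
    simp only [hφ]
    split_ifs <;> simp
  rw [h4, h5]
  rfl

end pairs

end Pool.Agent.R975.BG
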