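import Pool.Agent.R975.BG.Hit

/-!
# The 2-neighbour graphs percolate in every dimension (helper975): the hitting estimate
-/

set_option autoImplicit false

namespace Pool.Agent.R975.BG

open Finset H974
open Pool.Agent.R975.BN (V stp)

variable {G D : Type} [AddCommGroup G] [DecidableEq G] [Fintype D] [DecidableEq D]

/-- the steps are in general position -/
structure Gen (Φ : Fib G D) (op : D → D) : Prop where
  ne0 : ∀ a, Φ.step a ≠ 0
  inj : ∀ a b, Φ.step a = Φ.step b → a = b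
  odd : ∀ a b c, Φ.step a + Φ.step b ≠ Φ.step c
  z2 : ∀ a b, Φ.step a + Φ.step b = 0 → b = op a
  pairs : ∀ a a' b b', Φ.step a + Φ.step a' = Φ.step b + Φ.step b' → a = b ∨ a' = b ∨ a' = op a

variable (Φ : Fib G D) (op : D → D)

/-- the steps inside the fibres -/
def ZZ : Finset D := univ.filter (fun δ => Φ.cl δ = none)

/-- the steps in the directions of `Y` -/
def BB (Y : S4) : Finset D := univ.filter (fun δ => ∃ c ∈ Y, Φ.cl δ = some c)

theorem ZB (Y : S4) : Disjoint (ZZ Φ) (BB Φ Y) := by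
  rw [Finset.disjoint_left]
  intro δ h1 h2
  unfold ZZ at h1
  unfold BB at h2
  rw [Finset.mem_filter] at h1 h2
  obtain ⟨-, c, -, h⟩ := h2
  rw [h1.2] at h
  cases h

/-- the miss indicator of a child -/
noncomputable def m1 (Y : S4) (y : G) (F : Finset D) (η : G → Finset D) : ℝ :=
  ind (Disjoint (η y) (BB Φ Y)) *
    ∏ w ∈ (η y).filter (fun w => w ∈ ZZ Φ \ F), ind (Disjoint (η (y + Φ.step w)) (BB Φ Y))

/-- the miss indicator of the root -/
noncomputable def m2 (Y : S4) (x : G) (η : G → Finset D) : ℝ :=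
  ind (Disjoint (η x) (BB Φ Y)) *
    ∏ w ∈ (η x).filter (fun w => w ∈ ZZ Φ), m1 Φ Y (x + Φ.step w) (insert (op w) ((η x).erase w)) η

theorem m1_nonneg (Y : S4) (y : G) (F : Finset D) (η : G → Finset D) : 0 ≤ m1 Φ Y y F η := by
  unfold m1
  exact mul_nonneg (ind_nonneg _) (Finset.prod_nonneg (fun _ _ => ind_nonneg _))

theorem m2_nonneg (Y : S4) (x : G) (η : G → Finset D) : 0 ≤ m2 Φ op Y x η := by
  unfold m2
  exact mul_nonneg (ind_nonneg _) (Finset.prod_nonneg (fun _ _ => m1_nonneg Φ _ _ _ _))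

theorem miss_le {Y : S4} {x : G} {η : G → Finset D} :
    ind (Disjoint (Sx Φ x η) Y) ≤ m2 Φ op Y x η := by
  classical
  by_cases hd : Disjoint (Sx Φ x η) Y
  swap
  · rw [ind_not_of hd]
    exact m2_nonneg Φ op Y x η
  rw [ind_of hd]
  apply le_of_eq
  -- every vertex which is found misses
  have key : ∀ u, Φ.pr u = Φ.pr x → Nr Φ 2 x u →
      Relation.ReflTransGen (XS Φ {y | Nr Φ 2 x y} {Φ.pr x} η) x u →
      Disjoint (η u) (BB Φ Y) := by
    intro u hu hu2 hr
    rw [Finset.disjoint_left]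
    intro δ h1 h2
    unfold BB at h2
    rw [Finset.mem_filter] at h2
    obtain ⟨-, c, hc, h⟩ := h2
    have h3 : Φ.pr (u + Φ.step δ) = Φ.pr x + stp c := by rw [Φ.hsome u δ c h, hu]
    have h4 : u + Φ.step δ ∈ Ext Φ x η := by
      refine ⟨⟨c, h3⟩, Or.inr ⟨u, hu2, δ, rfl⟩, ?_⟩
      exact hr.tail ⟨hu2, hu, δ, h1, rfl⟩
    exact Finset.disjoint_left.1 hd ((mem_Sx Φ).2 ⟨_, h4, h3⟩) hc
  have step : ∀ u w, Φ.pr u = Φ.pr x → Nr Φ 2 x u →
      Relation.ReflTransGen (XS Φ {y | Nr Φ 2 x y} {Φ.pr x} η) x u → w ∈ η u → w ∈ ZZ Φ →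
      Φ.pr (u + Φ.step w) = Φ.pr x ∧
        Relation.ReflTransGen (XS Φ {y | Nr Φ 2 x y} {Φ.pr x} η) x (u + Φ.step w) := by
    intro u w hu hu2 hr hw hz
    unfold ZZ at hz
    rw [Finset.mem_filter] at hz
    exact ⟨by rw [Φ.hnone u w hz.2, hu], hr.tail ⟨hu2, hu, w, hw, rfl⟩⟩
  unfold m2
  have hx0 : Nr Φ 0 x x := rfl
  rw [ind_of (key x rfl (Nr.self Φ 2 x) Relation.ReflTransGen.refl), one_mul]
  symm
  apply Finset.prod_eq_one
  intro w hw
  rw [Finset.mem_filter] at hw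
  obtain ⟨h1, h2⟩ := step x w rfl (Nr.self Φ 2 x) Relation.ReflTransGen.refl hw.1 hw.2
  have h3 : Nr Φ 1 x (x + Φ.step w) := Or.inr ⟨x, hx0, w, rfl⟩
  unfold m1
  rw [ind_of (key _ h1 (Nr.mono Φ (by omega) h3) h2), one_mul]
  apply Finset.prod_eq_one
  intro w' hw'
  rw [Finset.mem_filter, Finset.mem_sdiff] at hw'
  obtain ⟨h4, h5⟩ := step _ w' h1 (Nr.mono Φ (by omega) h3) h2 hw'.1 hw'.2.1
  have h6 : Nr Φ 2 x (x + Φ.step w + Φ.step w') := Or.inr ⟨_, h3, w', rfl⟩
  exact ind_of (key _ h4 h6 h5)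

variable {Φ op}

theorem EL_m1 (hG : Gen Φ op) (hD : 2 ≤ Fintype.card D) (Y : S4) (y : G) (F : Finset D) {L : List G}
    (hL : L.Nodup) (hy : y ∈ L) (hyw : ∀ w ∈ ZZ Φ \ F, y + Φ.step w ∈ L) (η : G → Finset D) :
    EL (fun _ => nu2) L (m1 Φ Y y F) η
      = QQ (Fintype.card D) (Fintype.card D - (BB Φ Y).card - (ZZ Φ \ F).card) (ZZ Φ \ F).card
        (QQ (Fintype.card D) (Fintype.card D - (BB Φ Y).card) 0 0) := by
  have hp : ∀ v : G, ∑ s : Finset D, nu2 s = 1 := fun _ => nu2_one hD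
  set γ : ℝ := QQ (Fintype.card D) (Fintype.card D - (BB Φ Y).card) 0 0 with hγ
  have hγ' : ∑ s : Finset D, nu2 s * ind (Disjoint s (BB Φ Y)) = γ := by
    have h1 := nu2_miss (D := D) (B := BB Φ Y) (A := ∅) (Finset.disjoint_empty_left _) 0
    simpa using h1
  rw [EL_cond hL hy (fun s η => ind (Disjoint s (BB Φ Y)) *
    ∏ w ∈ s.filter (fun w => w ∈ ZZ Φ \ F), ind (Disjoint (η (y + Φ.step w)) (BB Φ Y)))
    (m1 Φ Y y F) (fun _ => rfl) η]
  rw [← nu2_miss (D := D) (B := BB Φ Y) (A := ZZ Φ \ F)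
    (Finset.disjoint_of_subset_left Finset.sdiff_subset (ZB Φ Y)) γ]
  apply Finset.sum_congr rfl
  intro s _
  rw [EL_mul, EL_prod (m := fun _ => nu2) hp
    (fun w η => ind (Disjoint (η (y + Φ.step w)) (BB Φ Y))) (fun w => {y + Φ.step w})]
  · congr 2
    apply Finset.prod_congr rfl
    intro w hw
    rw [Finset.mem_filter] at hw
    rw [← hγ']
    apply EL_single (m := fun _ => nu2) hp (hL.erase y) (v := y + Φ.step w) _
      (fun s => ind (Disjoint s (BB Φ Y)))
    rw [List.mem_erase_of_ne]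
    · exact hyw w hw.2
    · intro h
      have : Φ.step w = 0 := by
        have h' : y + Φ.step w = y + 0 := by rw [add_zero]; exact h
        exact add_left_cancel h'
      exact hG.ne0 w this
  · intro w η η' h
    show ind _ = ind _
    rw [h _ rfl]
  · intro a _ b _ hab v hv hv'
    rw [Set.mem_singleton_iff] at hv hv'
    rw [hv] at hv'
    exact hab (hG.inj a b (add_left_cancel hv'))

/-- the vertices which are explored from a child -/
def W1 (Φ : Fib G D) (y : G) (F : Finset D) : Set G := {v | v = y ∨ ∃ w, w ∉ F ∧ v = y + Φ.step w}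

theorem dep_m1 (Y : S4) (y : G) (F : Finset D) : Dep (W1 Φ y F) (m1 Φ Y y F) := by
  intro η η' h
  unfold m1
  rw [h y (Or.inl rfl)]
  congr 1
  apply Finset.prod_congr rfl
  intro w hw
  rw [Finset.mem_filter, Finset.mem_sdiff] at hw
  rw [h (y + Φ.step w) (Or.inr ⟨w, hw.2.2, rfl⟩)]

theorem W1_disj (hG : Gen Φ op) (x : G) (s : Finset D) {a b : D} (ha : a ∈ s) (hb : b ∈ s)
    (hab : a ≠ b) (v : G) (hv : v ∈ W1 Φ (x + Φ.step a) (insert (op a) (s.erase a))) :
    v ∉ W1 Φ (x + Φ.step b) (insert (op b) (s.erase b)) := by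
  intro hv'
  rcases hv with h1 | ⟨a', ha', h1⟩ <;> rcases hv' with h2 | ⟨b', hb', h2⟩
  · rw [h1] at h2
    exact hab (hG.inj a b (add_left_cancel h2))
  · rw [h1, add_assoc] at h2
    exact hG.odd b b' a (add_left_cancel h2).symm
  · rw [h1, add_assoc] at h2
    exact hG.odd a a' b (add_left_cancel h2)
  · rw [h1, add_assoc, add_assoc] at h2
    rcases hG.pairs a a' b b' (add_left_cancel h2) with h | h | h
    · exact hab h
    · apply ha'
      rw [h]
      exact Finset.mem_insert_of_mem (Finset.mem_erase.2 ⟨fun h => hab h.symm, hb⟩)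
    · apply ha'
      rw [h]
      exact Finset.mem_insert_self _ _

theorem QQ_anti {n be z t γ : ℝ} (hn : 1 < n) (h0 : 0 ≤ n - be - z) (hz : 2 ≤ z) (h1 : z - 2 ≤ t)
    (h2 : t ≤ z) (hγ : 0 ≤ γ) (hγ1 : γ ≤ 1) :
    QQ n (n - be - t) t γ ≤ QQ n (n - be - z + 2) (z - 2) γ := by
  unfold QQ
  apply div_le_div_of_nonneg_right _ (by nlinarith)
  have e1 : 0 ≤ (t - (z - 2)) * (1 - γ) := mul_nonneg (by linarith) (by linarith)
  have e2 : 0 ≤ (n - be - z) + (z - t) + t * γ := by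
    have : 0 ≤ t * γ := mul_nonneg (by linarith) hγ
    linarith
  have e3 : 0 ≤ (n - be - z) + 2 + (z - 2) * γ - (1 + γ) := by
    have : 0 ≤ (z - 2) * γ := mul_nonneg (by linarith) hγ
    linarith
  have e4 := mul_nonneg e1 (add_nonneg e2 e3)
  nlinarith [e4]

theorem EL_m2_le (hG : Gen Φ op) (hD : 2 ≤ Fintype.card D) (Y : S4) (x : G) {L : List G}
    (hL : L.Nodup) (hx : ∀ y, Nr Φ 2 x y → y ∈ L) (hz2 : 2 ≤ (ZZ Φ).card) (η : G → Finset D) :
    EL (fun _ => nu2) L (m2 Φ op Y x) η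
      ≤ QQ (Fintype.card D) (Fintype.card D - (BB Φ Y).card - (ZZ Φ).card) (ZZ Φ).card
        (QQ (Fintype.card D) (Fintype.card D - (BB Φ Y).card - (ZZ Φ).card + 2) ((ZZ Φ).card - 2)
          (QQ (Fintype.card D) (Fintype.card D - (BB Φ Y).card) 0 0)) := by
  have hp : ∀ v : G, ∑ s : Finset D, nu2 s = 1 := fun _ => nu2_one hD
  have hD' : (2:ℝ) ≤ Fintype.card D := by exact_mod_cast hD
  have hz2' : (2:ℝ) ≤ (ZZ Φ).card := by exact_mod_cast hz2
  have hcard : ((BB Φ Y).card:ℝ) + (ZZ Φ).card ≤ Fintype.card D := by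
    have h1 := Finset.card_union_of_disjoint (ZB Φ Y)
    have h2 := Finset.card_le_univ (ZZ Φ ∪ BB Φ Y)
    have h3 : (BB Φ Y).card + (ZZ Φ).card ≤ Fintype.card D := by omega
    exact_mod_cast h3
  have hB0 : (0:ℝ) ≤ (BB Φ Y).card := Nat.cast_nonneg _
  set n : ℝ := ((Fintype.card D : ℕ) : ℝ) with hn
  set γ : ℝ := QQ n (n - (BB Φ Y).card) 0 0 with hγ
  have g0 : 0 ≤ γ := QQ_nonneg (by linarith) (by linarith) le_rfl le_rfl zero_le_one
  have g1 : γ ≤ 1 := QQ_le_one (by linarith) (by linarith) le_rfl (by linarith) le_rfl zero_le_one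
  set c : ℝ := QQ n (n - (BB Φ Y).card - (ZZ Φ).card + 2) ((ZZ Φ).card - 2) γ with hc
  have hx0 : Nr Φ 0 x x := rfl
  have hxL : x ∈ L := hx x (Nr.self Φ 2 x)
  have hx1 : ∀ w, x + Φ.step w ∈ L := fun w =>
    hx _ (Nr.mono Φ (show 1 ≤ 2 by omega) (Or.inr ⟨x, hx0, w, rfl⟩))
  have hx2 : ∀ w w', x + Φ.step w + Φ.step w' ∈ L := fun w w' =>
    hx _ (Or.inr ⟨_, Or.inr ⟨x, hx0, w, rfl⟩, w', rfl⟩)
  have hne : ∀ u : G, u ≠ 0 → x + u ≠ x := by
    intro u hu h
    apply hu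
    have h' : x + u = x + 0 := by rw [add_zero]; exact h
    exact add_left_cancel h'
  rw [EL_cond hL hxL (fun s η => ind (Disjoint s (BB Φ Y)) *
    ∏ w ∈ s.filter (fun w => w ∈ ZZ Φ), m1 Φ Y (x + Φ.step w) (insert (op w) (s.erase w)) η)
    (m2 Φ op Y x) (fun _ => rfl) η]
  rw [← nu2_miss (D := D) (B := BB Φ Y) (A := ZZ Φ) (ZB Φ Y) c]
  apply Finset.sum_le_sum
  intro s _
  by_cases hs : s.card = 2
  swap
  · have : nu2 s = 0 := by
      unfold nu2
      rw [if_neg hs]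
    rw [this, zero_mul, zero_mul]
  apply mul_le_mul_of_nonneg_left _ (nu2_nonneg hD s)
  rw [EL_mul]
  apply mul_le_mul_of_nonneg_left _ (ind_nonneg _)
  rw [EL_prod (m := fun _ => nu2) hp
    (fun w η => m1 Φ Y (x + Φ.step w) (insert (op w) (s.erase w)) η)
    (fun w => W1 Φ (x + Φ.step w) (insert (op w) (s.erase w))) (fun w => dep_m1 Y _ _)]
  · apply Finset.prod_le_prod
    · intro w _
      exact EL_nonneg (fun _ s => nu2_nonneg hD s) (fun η => m1_nonneg Φ _ _ _ η) _ _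
    · intro w hw
      rw [Finset.mem_filter] at hw
      have h1 : x + Φ.step w ∈ L.erase x := by
        rw [List.mem_erase_of_ne (hne _ (hG.ne0 w))]
        exact hx1 w
      have h2 : ∀ w' ∈ ZZ Φ \ (insert (op w) (s.erase w)),
          x + Φ.step w + Φ.step w' ∈ L.erase x := by
        intro w' hw'
        rw [List.mem_erase_of_ne]
        · exact hx2 w w'
        · rw [add_assoc]
          apply hne
          intro h
          rw [Finset.mem_sdiff] at hw'
          apply hw'.2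
          rw [hG.z2 w w' h]
          exact Finset.mem_insert_self _ _
      have h3 := EL_m1 hG hD Y (x + Φ.step w) (insert (op w) (s.erase w)) (hL.erase x) h1 h2
        (Function.update η x s)
      show EL (fun _ => nu2) (L.erase x) (m1 Φ Y (x + Φ.step w) (insert (op w) (s.erase w)))
        (Function.update η x s) ≤ c
      rw [h3]
      have h4 : (insert (op w) (s.erase w)).card ≤ 2 := by
        refine le_trans (Finset.card_insert_le _ _) ?_
        rw [Finset.card_erase_of_mem hw.1, hs]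
      have h5 : (ZZ Φ).card ≤ (ZZ Φ \ (insert (op w) (s.erase w))).card + 2 := by
        have := Finset.le_card_sdiff (insert (op w) (s.erase w)) (ZZ Φ)
        omega
      have h6 : (ZZ Φ \ (insert (op w) (s.erase w))).card ≤ (ZZ Φ).card :=
        Finset.card_le_card Finset.sdiff_subset
      have h5' : ((ZZ Φ).card:ℝ) ≤ (ZZ Φ \ (insert (op w) (s.erase w))).card + 2 := by
        exact_mod_cast h5
      have h6' : ((ZZ Φ \ (insert (op w) (s.erase w))).card:ℝ) ≤ (ZZ Φ).card := by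
        exact_mod_cast h6
      exact QQ_anti (by linarith) (by linarith) hz2' (by linarith) h6' g0 g1
  · intro a ha b hb hab v hv
    rw [Finset.mem_filter] at ha hb
    exact W1_disj hG x s ha.1 hb.1 hab v hv

/-- **the hitting estimate** -/
theorem hit_bound (hG : Gen Φ op) (hD : 2 ≤ Fintype.card D) (hz2 : 2 ≤ (ZZ Φ).card)
    (hnum : ∀ Y : S4,
      QQ (Fintype.card D) (Fintype.card D - (BB Φ Y).card - (ZZ Φ).card) (ZZ Φ).card
        (QQ (Fintype.card D) (Fintype.card D - (BB Φ Y).card - (ZZ Φ).card + 2) ((ZZ Φ).card - 2)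
          (QQ (Fintype.card D) (Fintype.card D - (BB Φ Y).card) 0 0)) ≤ (497 / 1000) ^ Y.card)
    (x : G) (W : Finset G) (η : G → Finset D) (hW : ∀ y, Nr Φ 2 x y → y ∈ W) (Y : S4) :
    EL (fun _ => nu2) W.toList (fun η => ind (Disjoint (Sx Φ x η) Y)) η
      ≤ ∑ s, muP (503 / 1000) s * ind (Disjoint s Y) := by
  rw [muP_miss]
  have h1 := EL_mono (m := fun _ : G => (nu2 : Finset D → ℝ)) (fun _ s => nu2_nonneg hD s)
    (f := fun η => ind (Disjoint (Sx Φ x η) Y)) (g := m2 Φ op Y x)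
    (fun η => miss_le Φ op) W.toList η
  have h2 := EL_m2_le hG hD Y x (Finset.nodup_toList W)
    (fun y hy => Finset.mem_toList.2 (hW y hy)) hz2 η
  refine le_trans h1 (le_trans h2 (le_trans (hnum Y) ?_))
  norm_num

end Pool.Agent.R975.BG
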