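import Mathlib

/-!
# The 2-neighbour graphs percolate in every dimension (helper975): infinite self-avoiding paths
-/

set_option autoImplicit false

namespace Pool.Agent.R975.BG

/-- a self-avoiding path with `n` steps -/
def SAP {G : Type} (R : G → G → Prop) (o : G) (n : ℕ) (p : ℕ → G) : Prop :=
  p 0 = o ∧ (∀ i, i < n → R (p i) (p (i + 1))) ∧ (∀ i, i ≤ n → ∀ j, j ≤ n → p i = p j → i = j)

theorem SAP.congr {G : Type} {R : G → G → Prop} {o : G} {n : ℕ} {p q : ℕ → G}
    (h : ∀ i, i ≤ n → p i = q i) (hp : SAP R o n p) : SAP R o n q := by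
  obtain ⟨h1, h2, h3⟩ := hp
  refine ⟨?_, ?_, ?_⟩
  · rw [← h 0 (Nat.zero_le n), h1]
  · intro i hi
    rw [← h i (by omega), ← h (i + 1) (by omega)]
    exact h2 i hi
  · intro i hi j hj hij
    rw [← h i hi, ← h j hj] at hij
    exact h3 i hi j hj hij

theorem SAP.mono {G : Type} {R : G → G → Prop} {o : G} {n m : ℕ} (hmn : m ≤ n) {p : ℕ → G}
    (hp : SAP R o n p) : SAP R o m p := by
  obtain ⟨h1, h2, h3⟩ := hp
  exact ⟨h1, fun i hi => h2 i (by omega), fun i hi j hj => h3 i (by omega) j (by omega)⟩

/-- Kőnig's lemma for self-avoiding paths -/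
theorem sap_inf {G : Type} {R : G → G → Prop} (hfin : ∀ a, {b | R a b}.Finite) {o : G}
    (h : ∀ n, ∃ p, SAP R o n p) :
    ∃ f : ℕ → G, Function.Injective f ∧ f 0 = o ∧ ∀ n, R (f n) (f (n + 1)) := by
  let α : ℕ → Type := fun n => {p : ℕ → G // SAP R o n p ∧ ∀ k, n ≤ k → p k = p n}
  have hα0 : Finite (α 0) := by
    have : Subsingleton (α 0) := by
      constructor
      rintro ⟨p, hp1, hp2⟩ ⟨q, hq1, hq2⟩
      apply Subtype.ext
      funext k
      show p k = q k
      rw [hp2 k (Nat.zero_le k), hq2 k (Nat.zero_le k), hp1.1, hq1.1]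
    infer_instance
  have hαn : ∀ i, Nonempty (α i) := by
    intro i
    obtain ⟨p, hp⟩ := h i
    refine ⟨⟨fun k => p (min k i), ?_, ?_⟩⟩
    · apply SAP.congr _ hp
      intro k hk
      rw [Nat.min_eq_left hk]
    · intro k hk
      show p (min k i) = p (min i i)
      rw [Nat.min_eq_right hk, Nat.min_self]
  let π : {i j : ℕ} → (hij : i ≤ j) → α j → α i := fun {i j} hij a =>
    ⟨fun k => a.1 (min k i), by
      constructor
      · apply SAP.congr _ (a.2.1.mono hij)
        intro k hk
        rw [Nat.min_eq_left hk]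
      · intro k hk
        show a.1 (min k i) = a.1 (min i i)
        rw [Nat.min_eq_right hk, Nat.min_self]⟩
  obtain ⟨f, hf⟩ := exists_seq_forall_proj_of_forall_finite (α := α) π
    (by
      rintro i ⟨a, ha1, ha2⟩
      apply Subtype.ext
      funext k
      show a (min k i) = a k
      rcases Nat.le_total k i with h1 | h1
      · rw [Nat.min_eq_left h1]
      · rw [Nat.min_eq_right h1, ha2 k h1])
    (by
      rintro i j k hij hjk ⟨a, ha1, ha2⟩
      apply Subtype.ext
      funext l
      show a (min (min l i) j) = a (min l i)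
      rw [Nat.min_eq_left (le_trans (Nat.min_le_right l i) hij)])
    (by
      rintro i ⟨a, ha1, ha2⟩
      have h1 : ({b : α (i + 1) | π (Nat.le_add_right i 1) b = ⟨a, ha1, ha2⟩}).InjOn
          (fun b => b.1 (i + 1)) := by
        rintro ⟨b, hb1, hb2⟩ hb ⟨c, hc1, hc2⟩ hc hbc
        apply Subtype.ext
        funext k
        show b k = c k
        have e1 : ∀ k, b (min k i) = a k := fun k => congrFun (congrArg Subtype.val hb) k
        have e2 : ∀ k, c (min k i) = a k := fun k => congrFun (congrArg Subtype.val hc) k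
        rcases Nat.lt_or_ge i k with h1 | h1
        · rw [hb2 k h1, hc2 k h1]
          exact hbc
        · have e3 := e1 k
          have e4 := e2 k
          rw [Nat.min_eq_left h1] at e3 e4
          rw [e3, e4]
      apply Set.Finite.of_finite_image _ h1
      apply (hfin (a i)).subset
      rintro _ ⟨⟨b, hb1, hb2⟩, hb, rfl⟩
      have e1 : b (min i i) = a i := congrFun (congrArg Subtype.val hb) i
      rw [Nat.min_self] at e1
      show R (a i) (b (i + 1))
      rw [← e1]
      exact hb1.2.1 i (by omega))
  have key : ∀ i j, i ≤ j → (f j).1 i = (f i).1 i := by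
    intro i j hij
    have h1 : (f j).1 (min i i) = (f i).1 i := congrFun (congrArg Subtype.val (hf hij)) i
    rw [Nat.min_self] at h1
    exact h1
  refine ⟨fun n => (f n).1 n, ?_, ?_, ?_⟩
  · intro i j hij
    have hij' : (f i).1 i = (f j).1 j := hij
    have e1 := key i (max i j) (le_max_left i j)
    have e2 := key j (max i j) (le_max_right i j)
    rw [← e1, ← e2] at hij'
    exact (f (max i j)).2.1.2.2 i (le_max_left i j) j (le_max_right i j) hij'
  · exact (f 0).2.1.1
  · intro n
    show R ((f n).1 n) ((f (n + 1)).1 (n + 1))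
    rw [← key n (n + 1) (Nat.le_succ n)]
    exact (f (n + 1)).2.1.2.1 n (by omega)

theorem path_of_refl {G : Type} {R : G → G → Prop} {o y : G} (h : Relation.ReflTransGen R o y) :
    ∃ l : ℕ, ∃ p : ℕ → G, p 0 = o ∧ p l = y ∧ ∀ i, i < l → R (p i) (p (i + 1)) := by
  induction h with
  | refl => exact ⟨0, fun _ => o, rfl, rfl, fun i hi => by omega⟩
  | @tail a b _ hab ih =>
    obtain ⟨l, p, h1, h2, h3⟩ := ih
    refine ⟨l + 1, fun k => if k ≤ l then p k else b, ?_, ?_, ?_⟩
    · show (if 0 ≤ l then p 0 else b) = o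
      rw [if_pos (Nat.zero_le l), h1]
    · show (if l + 1 ≤ l then p (l + 1) else b) = b
      rw [if_neg (by omega)]
    · intro i hi
      show R (if i ≤ l then p i else b) (if i + 1 ≤ l then p (i + 1) else b)
      rw [if_pos (by omega)]
      rcases Nat.lt_or_ge i l with h4 | h4
      · rw [if_pos (show i + 1 ≤ l by omega)]
        exact h3 i h4
      · have : i = l := by omega
        subst this
        rw [if_neg (by omega), h2]
        exact hab

/-- a connection of length at least `n` contains a self-avoiding path with `n` steps -/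
theorem sap_of_far {G : Type} {R : G → G → Prop} {o y : G} (h : Relation.ReflTransGen R o y)
    (N : G → ℕ) (h0 : N o = 0) (hN : ∀ a b, R a b → N b ≤ N a + 1) {n : ℕ} (hn : n ≤ N y) :
    ∃ p, SAP R o n p := by
  classical
  have hex := path_of_refl h
  obtain ⟨p, h1, h2, h3⟩ := Nat.find_spec hex
  have hmin : ∀ m, m < Nat.find hex → ¬ ∃ p : ℕ → G, p 0 = o ∧ p m = y ∧
      ∀ i, i < m → R (p i) (p (i + 1)) := fun m hm => Nat.find_min hex hm
  generalize Nat.find hex = l at h2 h3 hmin
  have hNl : ∀ k, k ≤ l → N (p k) ≤ k := by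
    intro k
    induction k with
    | zero =>
      intro _
      rw [h1, h0]
    | succ k ih =>
      intro hk
      have := hN _ _ (h3 k (by omega))
      have := ih (by omega)
      omega
  have hnl : n ≤ l := by
    have := hNl l le_rfl
    rw [h2] at this
    omega
  have hlt : ∀ i j, i < j → j ≤ l → p i ≠ p j := by
    intro i j hij hj he
    apply hmin (l - (j - i)) (by omega)
    refine ⟨fun k => if k ≤ i then p k else p (k + (j - i)), ?_, ?_, ?_⟩
    · show (if 0 ≤ i then p 0 else _) = o
      rw [if_pos (Nat.zero_le i), h1]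
    · show (if l - (j - i) ≤ i then p (l - (j - i)) else p (l - (j - i) + (j - i))) = y
      by_cases h4 : l - (j - i) ≤ i
      · have h5 : j = l := by omega
        have h6 : l - (j - i) = i := by omega
        rw [if_pos h4, h6, he, h5, h2]
      · rw [if_neg h4]
        have h6 : l - (j - i) + (j - i) = l := by omega
        rw [h6, h2]
    · intro k hk
      show R (if k ≤ i then p k else p (k + (j - i)))
        (if k + 1 ≤ i then p (k + 1) else p (k + 1 + (j - i)))
      rcases Nat.lt_trichotomy k i with h4 | h4 | h4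
      · rw [if_pos (by omega), if_pos (by omega)]
        exact h3 k (by omega)
      · subst h4
        rw [if_pos le_rfl, if_neg (by omega), he]
        have h6 : k + 1 + (j - k) = j + 1 := by omega
        rw [h6]
        exact h3 j (by omega)
      · rw [if_neg (by omega), if_neg (by omega)]
        have h6 : k + 1 + (j - i) = k + (j - i) + 1 := by omega
        rw [h6]
        exact h3 _ (by omega)
  refine ⟨p, SAP.mono hnl ⟨h1, h3, ?_⟩⟩
  intro i hi j hj hij
  rcases Nat.lt_trichotomy i j with h4 | h4 | h4
  · exact absurd hij (hlt i j h4 hj)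
  · exact h4
  · exact absurd hij.symm (hlt j i h4 hi)

end Pool.Agent.R975.BG
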