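import Mathlib

/-!
# The 2-neighbour graphs on `ℤ^d` (helper975): definitions
-/

set_option autoImplicit false

namespace Pool.Agent.R975.BG2

open MeasureTheory

/-- the `2 d` unit vectors: `(i, true)` stands for `e_i` and `(i, false)` for `-e_i` -/
def uvec {d : ℕ} (δ : Fin d × Bool) : Fin d → ℤ := Pi.single δ.1 (if δ.2 then 1 else -1)

/-- the sets of exactly two of the `2 d` directions -/
abbrev Choice (d : ℕ) := {A : Finset (Fin d × Bool) // A.card = 2}

instance (d : ℕ) [NeZero d] : Nonempty (Choice d) := ⟨⟨{(0, true), (0, false)}, rfl⟩⟩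

instance (d : ℕ) : MeasurableSpace (Choice d) := ⊤

instance (d : ℕ) : DiscreteMeasurableSpace (Choice d) := ⟨fun _ => trivial⟩

/-- the law of the model: independently for every vertex of `ℤ^d` a uniformly random set of
exactly two of the `2 d` directions -/
noncomputable def law (d : ℕ) [NeZero d] : Measure ((Fin d → ℤ) → Choice d) :=
  Measure.infinitePi (fun _ => (PMF.uniformOfFintype (Choice d)).toMeasure)

/-- `x` picks its nearest neighbour `y` -/
def Pick {d : ℕ} (ω : (Fin d → ℤ) → Choice d) (x y : Fin d → ℤ) : Prop :=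
  ∃ δ ∈ (ω x).1, y = x + uvec δ

/-- the 2-DnG has an infinite self-avoiding directed path starting at the origin -/
def percD (d : ℕ) : Set ((Fin d → ℤ) → Choice d) :=
  {ω | ∃ f : ℕ → Fin d → ℤ, Function.Injective f ∧ f 0 = 0 ∧ ∀ n, Pick ω (f n) (f (n + 1))}

/-- the 2-UnG has an infinite self-avoiding path starting at the origin -/
def percU (d : ℕ) : Set ((Fin d → ℤ) → Choice d) :=
  {ω | ∃ f : ℕ → Fin d → ℤ, Function.Injective f ∧ f 0 = 0 ∧
    ∀ n, Pick ω (f n) (f (n + 1)) ∨ Pick ω (f (n + 1)) (f n)}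

/-- `θ^D(2, d)` -/
noncomputable def thetaD (d : ℕ) [NeZero d] : ℝ := (law d).real (percD d)

/-- `θ^U(2, d)` -/
noncomputable def thetaU (d : ℕ) [NeZero d] : ℝ := (law d).real (percU d)

end Pool.Agent.R975.BG2
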