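import Pool.Agent.R975.BG.Two
import Pool.Agent.R975.BG.Geo

/-!
# The 2-neighbour graphs percolate in every dimension (helper975): local surgery in the plane
-/

set_option autoImplicit false

namespace Pool.Agent.R975.BG

open Finset H974
open Pool.Agent.R975.BN (V stp stp_opp opp_opp stp_inj stp_ne back box mem_box bnd zero_box
  inner_step)

theorem mem_Ub' {n : ℕ} {v : V} : v ∈ Ub n ↔
    (-(n:ℤ) < v.1 ∧ v.1 < n) ∧ (-(n:ℤ) < v.2 ∧ v.2 < n) := by
  rw [mem_Ub]
  unfold bnd
  constructor
  · rintro ⟨h1, h2⟩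
    have h3 : ¬ (v.1 = n ∨ v.1 = -n ∨ v.2 = n ∨ v.2 = -n) := fun h => h2 ⟨h1, h⟩
    rw [mem_box] at h1
    omega
  · intro h
    constructor
    · rw [mem_box]
      omega
    · rintro ⟨-, h1⟩
      omega

theorem Ub_bnd {n : ℕ} {v : V} (h : v ∈ Ub n) : v ∉ bnd n := (mem_Ub.1 h).2

theorem ub_step {n : ℕ} {v : V} (h : v ∈ Ub n) (c : Fin 4) :
    v + stp c ∈ Ub n ∨ v + stp c ∈ bnd n := by
  obtain ⟨h1, h2⟩ := mem_Ub.1 h
  have h3 := inner_step h1 h2 c
  by_cases h4 : v + stp c ∈ bnd n
  · exact Or.inr h4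
  · exact Or.inl (mem_Ub.2 ⟨h3, h4⟩)

theorem stp_nrm (c : Fin 4) : nrm (stp c) = 1 := by
  revert c
  decide

theorem nrm_step (z : V) (c : Fin 4) : nrm (z + stp c) ≤ nrm z + 1 ∧ nrm z ≤ nrm (z + stp c) + 1 := by
  have h := stp_nrm c
  unfold nrm at h ⊢
  rw [Prod.fst_add, Prod.snd_add]
  omega

/-- the vertices which do not reach the boundary -/
noncomputable def SB (n : ℕ) (ζ : V → S4) : Finset V := by
  classical exact (Ub n).filter (fun v => ¬ RB ↑(Ub n) (bnd n) {v} ζ)

theorem mem_SB {n : ℕ} {ζ : V → S4} {v : V} :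
    v ∈ SB n ζ ↔ v ∈ Ub n ∧ ¬ RB ↑(Ub n) (bnd n) {v} ζ := by
  classical
  unfold SB
  simp only [Finset.mem_filter]

theorem RB_of {U T B : Set V} {ζ : V → S4} {v t : V} (hv : v ∈ B) (ht : t ∈ T)
    (h : Relation.ReflTransGen (DS U ζ) v t) : RB U T B ζ := ⟨v, hv, t, ht, h⟩

theorem SB_step {n : ℕ} {ζ : V → S4} {v : V} (hv : v ∈ SB n ζ) {c : Fin 4} (hc : c ∈ ζ v) :
    v + stp c ∈ SB n ζ := by
  obtain ⟨h1, h2⟩ := mem_SB.1 hv
  have h3 : DS ↑(Ub n) ζ v (v + stp c) := ⟨h1, c, hc, rfl⟩
  rcases ub_step h1 c with h4 | h4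
  · rw [mem_SB]
    refine ⟨h4, ?_⟩
    rintro ⟨b, hb, t, ht, h⟩
    rw [Set.mem_singleton_iff] at hb
    subst hb
    exact h2 (RB_of rfl ht (Relation.ReflTransGen.head h3 h))
  · exact absurd (RB_of (B := {v}) (Set.mem_singleton v) h4 (Relation.ReflTransGen.single h3)) h2

/-- the first vertex of the path near `p` -/
theorem first_vertex {n : ℕ} {ζ : V → S4} {p x : V} (hpx : p = 0 ∨ 4 ≤ nrm (0 - p))
    (hx : nrm (x - p) ≤ 4) (h0 : (0:V) ∈ SB n ζ)
    (h : Relation.ReflTransGen (DS ↑(SB n ζ) ζ) 0 x) :
    ∃ a, nrm (a - p) ≤ 4 ∧ a ∈ SB n ζ ∧ (a - p = 0 ∨ nrm (a - p) = 4) ∧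
      Relation.ReflTransGen (DS {w | w ∈ SB n ζ ∧ 4 < nrm (w - p)} ζ) 0 a := by
  have fin : ∀ z, nrm (z - p) ≤ 4 → z ∈ SB n ζ → (z = 0 ∨ 4 ≤ nrm (z - p)) →
      Relation.ReflTransGen (DS {w | w ∈ SB n ζ ∧ 4 < nrm (w - p)} ζ) 0 z →
      ∃ a, nrm (a - p) ≤ 4 ∧ a ∈ SB n ζ ∧ (a - p = 0 ∨ nrm (a - p) = 4) ∧
      Relation.ReflTransGen (DS {w | w ∈ SB n ζ ∧ 4 < nrm (w - p)} ζ) 0 a := by
    intro z h1 h2 h3 h4
    refine ⟨z, h1, h2, ?_, h4⟩
    rcases h3 with h3 | h3
    · subst h3
      rcases hpx with h5 | h5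
      · left
        rw [h5, sub_zero]
      · right
        omega
    · right
      omega
  have key : ∀ z, Relation.ReflTransGen (DS ↑(SB n ζ) ζ) 0 z →
      (Relation.ReflTransGen (DS {w | w ∈ SB n ζ ∧ 4 < nrm (w - p)} ζ) 0 z ∧ z ∈ SB n ζ ∧
        (z = 0 ∨ 4 ≤ nrm (z - p))) ∨
      ∃ a, nrm (a - p) ≤ 4 ∧ a ∈ SB n ζ ∧ (a - p = 0 ∨ nrm (a - p) = 4) ∧
      Relation.ReflTransGen (DS {w | w ∈ SB n ζ ∧ 4 < nrm (w - p)} ζ) 0 a := by
    intro z hz
    induction hz with
    | refl => exact Or.inl ⟨Relation.ReflTransGen.refl, h0, Or.inl rfl⟩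
    | @tail z z' _ hzz ih =>
      rcases ih with ⟨h1, h2, h3⟩ | h1
      · by_cases h4 : nrm (z - p) ≤ 4
        · exact Or.inr (fin z h4 h2 h3 h1)
        · left
          obtain ⟨-, c, hc, h5⟩ := hzz
          refine ⟨h1.tail ⟨⟨h2, by omega⟩, c, hc, h5⟩, ?_, Or.inr ?_⟩
          · rw [h5]
            exact SB_step h2 hc
          · have h6 := (nrm_step (z - p) c).2
            have h7 : z + stp c - p = z - p + stp c := by abel
            rw [h5, h7]
            omega
      · exact Or.inr h1
  rcases key x h with ⟨h1, h2, h3⟩ | h1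
  · exact fin x hx h2 h3 h1
  · exact h1

/-- the last vertex near `p` of a path to the boundary -/
theorem last_vertex {n : ℕ} {ζ : V → S4} {p y : V} (hy : nrm (y - p) ≤ 4)
    (h : ∃ t ∈ bnd n, Relation.ReflTransGen (DS ↑(Ub n) ζ) y t) :
    ∃ b, nrm (b - p) ≤ 4 ∧ b ∉ SB n ζ ∧ (b ∈ bnd n ∨ (b ∈ Ub n ∧ nrm (b - p) = 4 ∧
      ∃ cb : Fin 4, ∃ t ∈ bnd n,
        Relation.ReflTransGen (DS {w | w ∈ Ub n ∧ 4 < nrm (w - p)} ζ) (b + stp cb) t)) := by
  obtain ⟨t, ht, h⟩ := h
  have htS : t ∉ SB n ζ := fun h => Ub_bnd (mem_SB.1 h).1 ht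
  have key : Relation.ReflTransGen (DS {w | w ∈ Ub n ∧ 4 < nrm (w - p)} ζ) y t ∨
      ∃ b, nrm (b - p) ≤ 4 ∧ b ∉ SB n ζ ∧ (b ∈ bnd n ∨ (b ∈ Ub n ∧ nrm (b - p) = 4 ∧
      ∃ cb : Fin 4, ∃ t ∈ bnd n,
        Relation.ReflTransGen (DS {w | w ∈ Ub n ∧ 4 < nrm (w - p)} ζ) (b + stp cb) t)) := by
    clear hy
    induction h using Relation.ReflTransGen.head_induction_on with
    | refl => exact Or.inl Relation.ReflTransGen.refl
    | @head z z' hzz hzt ih =>
      rcases ih with ih | ih
      · by_cases h1 : 4 < nrm (z - p)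
        · left
          exact Relation.ReflTransGen.head ⟨⟨hzz.1, h1⟩, hzz.2⟩ ih
        · right
          by_cases h2 : 4 < nrm (z' - p)
          · obtain ⟨h3, c, hc, h4⟩ := hzz
            refine ⟨z, by omega, ?_, Or.inr ⟨h3, ?_, c, t, ht, h4 ▸ ih⟩⟩
            · intro h5
              exact (mem_SB.1 h5).2 (RB_of rfl ht (Relation.ReflTransGen.head ⟨h3, c, hc, h4⟩ hzt))
            · have h6 := (nrm_step (z - p) c).1
              have h7 : z' - p = z - p + stp c := by rw [h4]; abel
              rw [h7] at h2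
              omega
          · rcases Relation.ReflTransGen.cases_head ih with h3 | ⟨w, h3, -⟩
            · subst h3
              exact ⟨z', by omega, htS, Or.inl ht⟩
            · exact absurd h3.1.2 h2
      · exact Or.inr ih
  rcases key with h1 | h1
  · rcases Relation.ReflTransGen.cases_head h1 with h3 | ⟨w, h3, -⟩
    · subst h3
      exact ⟨y, hy, htS, Or.inl ht⟩
    · have := h3.1.2
      omega
  · exact h1

/-- the changed configuration -/
noncomputable def sg (n : ℕ) (p a b : V) (cb : Fin 4) (ζ : V → S4) : V → S4 := fun w =>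
  if w ∈ Ub n ∧ nrm (w - p) ≤ 4 then
    if w - p ∈ slitL 4 (a - p) then {nx (w - p)}
    else if Wb (a - p) (w - p) = true then
      univ.filter (fun c => Wb (a - p) (w - p + stp c) = true ∨ w - p + stp c = b - p)
    else if w = b then {cb} else ∅
  else ζ w

theorem sg_off {n : ℕ} {p a b : V} {cb : Fin 4} {ζ : V → S4} {w : V}
    (h : ¬ (w ∈ Ub n ∧ nrm (w - p) ≤ 4)) : sg n p a b cb ζ w = ζ w := by
  unfold sg
  rw [if_neg h]

theorem Wb_iff {a z : V} : Wb a z = true ↔ z ≠ 0 ∧ nrm z ≤ 3 ∧ z ∉ slitL 4 a := by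
  unfold Wb
  simp only [Bool.and_eq_true, decide_eq_true_iff, Bool.not_eq_true', decide_eq_false_iff_not,
    and_assoc]

theorem surgery {n : ℕ} {ζ : V → S4} {p x : V} {c0 : Fin 4} (hp : p ∈ Ub n)
    (hpx : p = 0 ∨ 4 ≤ nrm (0 - p)) (hx : nrm (x - p) ≤ 4) (hy : nrm (x + stp c0 - p) ≤ 4)
    (h0 : (0:V) ∈ SB n ζ) (hxS : x ∈ SB n ζ) (hyS : x + stp c0 ∉ SB n ζ)
    (hr : RB (↑(SB n ζ) \ {x}) {x} {0} ζ) :
    ∃ ζ' : V → S4, (∀ w, ¬ (w ∈ Ub n ∧ nrm (w - p) ≤ 4) → ζ' w = ζ w) ∧
      Mul (fun s => RB ↑(Ub n) (bnd n) {0} (Function.update ζ' p s)) := by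
  -- the first vertex
  have hr' : Relation.ReflTransGen (DS ↑(SB n ζ) ζ) 0 x := by
    obtain ⟨b, hb, t, ht, h⟩ := hr
    rw [Set.mem_singleton_iff] at hb ht
    subst hb
    subst ht
    exact DS.mono Set.sdiff_subset (fun _ _ => subset_rfl) h
  obtain ⟨a, ha4, haS, ha', hpa⟩ := first_vertex hpx hx h0 hr'
  -- the last vertex
  have hy' : ∃ t ∈ bnd n, Relation.ReflTransGen (DS ↑(Ub n) ζ) (x + stp c0) t := by
    rcases ub_step (mem_SB.1 hxS).1 c0 with h1 | h1
    · have h2 : RB ↑(Ub n) (bnd n) {x + stp c0} ζ := by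
        by_contra h3
        exact hyS (mem_SB.2 ⟨h1, h3⟩)
      obtain ⟨b, hb, t, ht, h⟩ := h2
      rw [Set.mem_singleton_iff] at hb
      subst hb
      exact ⟨t, ht, h⟩
    · exact ⟨_, h1, Relation.ReflTransGen.refl⟩
  obtain ⟨b, hb4, hbS, hbd⟩ := last_vertex hy hy'
  obtain ⟨sl1, sl2, c, c', hcc, hWc, hWc'⟩ := slit_facts ha'
  have haU : a ∈ Ub n := (mem_SB.1 haS).1
  have hab : b - p ≠ a - p := by
    intro h
    have : b = a := sub_left_inj.1 h
    rw [this] at hbS
    exact hbS haS
  -- the slit is inside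
  have slU : ∀ z ∈ slitL 4 (a - p), p + z ∈ Ub n := by
    intro z hz
    obtain ⟨-, -, -, -, -, h1, h2⟩ := sl1 z hz
    rw [mem_Ub'] at hp haU ⊢
    rw [Prod.fst_add, Prod.snd_add]
    rw [Prod.fst_sub] at h1
    rw [Prod.snd_sub] at h2
    omega
  have hb' : Wb (a - p) (b - p) = true ∨ (nrm (b - p) = 4 ∧ b - p ≠ a - p) := by
    rcases hbd with hbd | ⟨-, hbd, -⟩
    · by_cases h4 : nrm (b - p) = 4
      · exact Or.inr ⟨h4, hab⟩
      · left
        rw [Wb_iff]
        refine ⟨?_, by omega, ?_⟩
        · intro h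
          have : b = p := sub_eq_zero.1 h
          rw [this] at hbd
          exact Ub_bnd hp hbd
        · intro h
          have h1 := slU _ h
          have h2 : p + (b - p) = b := by abel
          rw [h2] at h1
          exact Ub_bnd h1 hbd
    · exact Or.inr ⟨hbd, hab⟩
  -- the exit direction
  obtain ⟨cb, hcb⟩ : ∃ cb : Fin 4, b ∈ Ub n → (nrm (b - p) = 4 ∧ ∃ t ∈ bnd n,
      Relation.ReflTransGen (DS {w | w ∈ Ub n ∧ 4 < nrm (w - p)} ζ) (b + stp cb) t) := by
    rcases hbd with hbd | ⟨h1, h2, cb, h3⟩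
    · exact ⟨0, fun h => absurd hbd (Ub_bnd h)⟩
    · exact ⟨cb, fun _ => ⟨h2, h3⟩⟩
  refine ⟨sg n p a b cb ζ, fun w hw => sg_off hw, ?_, ?_⟩
  · -- no connection without the star at `p`
    rintro ⟨b0, hb0, t, ht, h⟩
    rw [Set.mem_singleton_iff] at hb0
    subst hb0
    have key : ∀ w, Relation.ReflTransGen
        (DS ↑(Ub n) (Function.update (sg n p a b cb ζ) p ∅)) 0 w →
        (w ∈ SB n ζ ∧ 4 ≤ nrm (w - p)) ∨ w - p ∈ slitL 4 (a - p) ∨ w = p := by
      intro w hw
      induction hw with
      | refl =>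
        rcases hpx with h1 | h1
        · exact Or.inr (Or.inr h1.symm)
        · exact Or.inl ⟨h0, h1⟩
      | @tail w w' _ hww ih =>
        obtain ⟨hwU, e, he, hw'⟩ := hww
        by_cases hwp : w = p
        · rw [hwp, Function.update_self] at he
          simp at he
        rw [Function.update_of_ne hwp] at he
        have hwU' : w ∈ Ub n := hwU
        by_cases hsl : w - p ∈ slitL 4 (a - p)
        · obtain ⟨-, -, g1, g2, -⟩ := sl1 _ hsl
          unfold sg at he
          rw [if_pos ⟨hwU', g1⟩, if_pos hsl, Finset.mem_singleton] at he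
          right
          have h7 : w' - p = w - p + stp (nx (w - p)) := by rw [hw', he]; abel
          rcases g2 with g2 | g2
          · right
            rw [← h7] at g2
            exact sub_eq_zero.1 g2
          · left
            rw [h7]
            exact g2
        · rcases ih with ⟨g1, g2⟩ | g1 | g1
          · by_cases g3 : nrm (w - p) ≤ 4
            · exfalso
              have g4 : ¬ Wb (a - p) (w - p) = true := by
                rw [Wb_iff]
                omega
              have g5 : w ≠ b := by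
                rintro rfl
                exact hbS g1
              unfold sg at he
              rw [if_pos ⟨hwU', g3⟩, if_neg hsl, if_neg g4, if_neg g5] at he
              simp at he
            · rw [sg_off (fun h => g3 h.2)] at he
              left
              have h6 := (nrm_step (w - p) e).2
              have h7 : w' - p = w - p + stp e := by rw [hw']; abel
              refine ⟨?_, by rw [h7]; omega⟩
              rw [hw']
              exact SB_step g1 he
          · exact absurd g1 hsl
          · exact absurd g1 hwp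
    rcases key t h with ⟨h1, -⟩ | h1 | h1
    · exact Ub_bnd (mem_SB.1 h1).1 ht
    · have h2 := slU _ h1
      have h3 : p + (t - p) = t := by abel
      rw [h3] at h2
      exact Ub_bnd h2 ht
    · rw [h1] at ht
      exact Ub_bnd hp ht
  · -- two directions
    have key : ∀ c, Wb (a - p) (stp c) = true →
        RB ↑(Ub n) (bnd n) {0} (Function.update (sg n p a b cb ζ) p {c}) := by
      intro c hc
      set ξ := Function.update (sg n p a b cb ζ) p {c} with hξ
      have nz : ∀ w, 4 < nrm (w - p) → ξ w = ζ w := by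
        intro w hw
        have hwp : w ≠ p := by
          rintro rfl
          rw [sub_self] at hw
          have h9 : nrm (0:V) = 0 := rfl
          omega
        rw [hξ, Function.update_of_ne hwp, sg_off (fun h => by omega)]
      -- from the origin to `a`
      have q1 : Relation.ReflTransGen (DS ↑(Ub n) ξ) 0 a := by
        have : ∀ z, Relation.ReflTransGen (DS {w | w ∈ SB n ζ ∧ 4 < nrm (w - p)} ζ) 0 z →
            Relation.ReflTransGen (DS ↑(Ub n) ξ) 0 z := by
          intro z hz
          apply DS.mono _ _ hz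
          · intro w hw
            exact (mem_SB.1 hw.1).1
          · intro w hw
            rw [nz w hw.2]
        exact this a hpa
      -- along the slit
      have q2 : ∀ (k : ℕ) (z : V), nrm z ≤ k → z ∈ slitL 4 (a - p) →
          Relation.ReflTransGen (DS ↑(Ub n) ξ) (p + z) p := by
        intro k
        induction k with
        | zero =>
          intro z hz hsl
          obtain ⟨-, -, -, -, g5, -⟩ := sl1 z hsl
          omega
        | succ k ih =>
          intro z hz hsl
          obtain ⟨g1, -, g3, g4, g5, -⟩ := sl1 z hsl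
          have hzU := slU z hsl
          have e1 : p + z - p = z := by abel
          have hne : p + z ≠ p := by
            intro h
            apply g1
            have h' : p + z = p + 0 := by rw [add_zero]; exact h
            exact add_left_cancel h'
          have hstep : DS ↑(Ub n) ξ (p + z) (p + (z + stp (nx z))) := by
            refine ⟨hzU, nx z, ?_, by rw [add_assoc]⟩
            rw [hξ, Function.update_of_ne hne]
            unfold sg
            rw [e1, if_pos ⟨hzU, g3⟩, if_pos hsl]
            exact Finset.mem_singleton_self _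
          refine Relation.ReflTransGen.head hstep ?_
          rcases g4 with g4 | g4
          · rw [g4, add_zero]
          · exact ih _ (by omega) g4
      have q3 : Relation.ReflTransGen (DS ↑(Ub n) ξ) a p := by
        rcases sl2 with h1 | h1
        · have : a = p := sub_eq_zero.1 h1
          rw [this]
        · have h2 := q2 _ (a - p) le_rfl h1
          have h3 : p + (a - p) = a := by abel
          rw [h3] at h2
          exact h2
      have q4 : DS ↑(Ub n) ξ p (p + stp c) := by
        refine ⟨hp, c, ?_, rfl⟩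
        rw [hξ, Function.update_self]
        exact Finset.mem_singleton_self _
      -- from there to the boundary
      have q5 : ∀ u, Relation.ReflTransGen (RT (a - p) (b - p)) u (b - p) →
          (p + u ∈ Ub n ∨ p + u ∈ bnd n) →
          ∃ t ∈ bnd n, Relation.ReflTransGen (DS ↑(Ub n) ξ) (p + u) t := by
        intro u hu
        induction hu using Relation.ReflTransGen.head_induction_on with
        | refl =>
          intro h1
          have h3 : p + (b - p) = b := by abel
          rw [h3] at h1 ⊢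
          rcases h1 with h1 | h1
          · obtain ⟨h4, t, ht, h5⟩ := hcb h1
            refine ⟨t, ht, Relation.ReflTransGen.head ⟨h1, cb, ?_, rfl⟩ ?_⟩
            · have hne : b ≠ p := by
                rintro rfl
                rw [sub_self] at h4
                have h9 : nrm (0:V) = 0 := rfl
                omega
              have hsl : b - p ∉ slitL 4 (a - p) := by
                intro h
                obtain ⟨-, g2, -⟩ := sl1 _ h
                rcases g2 with g2 | g2
                · exact hab g2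
                · omega
              have hW : ¬ Wb (a - p) (b - p) = true := by
                rw [Wb_iff]
                omega
              rw [hξ, Function.update_of_ne hne]
              unfold sg
              rw [if_pos ⟨h1, hb4⟩, if_neg hsl, if_neg hW, if_pos rfl]
              exact Finset.mem_singleton_self _
            · apply DS.mono _ _ h5
              · intro w hw
                exact hw.1
              · intro w hw
                rw [nz w hw.2]
          · exact ⟨b, h1, Relation.ReflTransGen.refl⟩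
        | @head u u' huu _ ih =>
          intro h1
          rcases h1 with h1 | h1
          · obtain ⟨g1, g2, e, g3⟩ := huu
            have g4 := Wb_iff.1 g1
            have e1 : p + u - p = u := by abel
            have hne : p + u ≠ p := by
              intro h
              apply g4.1
              have h' : p + u = p + 0 := by rw [add_zero]; exact h
              exact add_left_cancel h'
            have e2 : p + u' = p + u + stp e := by rw [g3, add_assoc]
            have h2 : p + u' ∈ Ub n ∨ p + u' ∈ bnd n := by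
              rw [e2]
              exact ub_step h1 e
            obtain ⟨t, ht, h3⟩ := ih h2
            refine ⟨t, ht, Relation.ReflTransGen.head ⟨h1, e, ?_, e2⟩ h3⟩
            rw [hξ, Function.update_of_ne hne]
            unfold sg
            rw [e1, if_pos ⟨h1, by omega⟩, if_neg g4.2.2, if_pos g1, Finset.mem_filter, ← g3]
            exact ⟨Finset.mem_univ _, g2⟩
          · exact ⟨_, h1, Relation.ReflTransGen.refl⟩
      obtain ⟨t, ht, q6⟩ := q5 (stp c) (geo_conn ha' hb' hc) (ub_step hp c)
      exact ⟨0, rfl, t, ht, (q1.trans q3).trans (Relation.ReflTransGen.head q4 q6)⟩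
    exact ⟨c, c', hcc, key c hWc, key c' hWc'⟩

end Pool.Agent.R975.BG
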