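import Pool.Agent.R975.BG.Hit

/-!
# The 2-neighbour graphs percolate in every dimension (helper975): the star laws in the plane
-/

set_option autoImplicit false

namespace Pool.Agent.R975.BG

open Finset H974
open Pool.Agent.R975.BN (V stp stp_opp opp_opp stp_inj stp_ne back box mem_box bnd zero_box
  inner_step outd pS phi phi_ge_one EF mem_EF CS)

/-- two of four directions -/
noncomputable def muO : S4 → ℝ := nu2

/-- independent directions -/
noncomputable def muI : S4 → ℝ := muP (1 / 2)

/-- the mixture -/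
noncomputable def MM (t : ℝ) (s : S4) : ℝ := (1 - t) * muI s + t * muO s

theorem muO_nonneg (s : S4) : 0 ≤ muO s := nu2_nonneg (by decide) s

theorem muO_one : ∑ s, muO s = 1 := nu2_one (by decide)

theorem muI_nonneg (s : S4) : 0 ≤ muI s := muP_nonneg (by norm_num) (by norm_num) s

theorem muI_one : ∑ s, muI s = 1 := muP_one _

theorem muI_lo (s : S4) : 1 / 16 ≤ muI s := by
  unfold muI muP
  rw [Finset.prod_const, Finset.prod_const]
  have h1 : s.card + (univ \ s).card = 4 := by
    rw [Finset.card_sdiff_of_subset (Finset.subset_univ s)]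
    have := Finset.card_le_univ s
    simp only [Finset.card_univ, Fintype.card_fin] at this ⊢
    omega
  have h2 : (1 - (1:ℝ) / 2) = 1 / 2 := by norm_num
  rw [h2, ← pow_add, h1]
  norm_num

theorem MM_nonneg {t : ℝ} (h0 : 0 ≤ t) (h1 : t ≤ 1) (s : S4) : 0 ≤ MM t s := by
  unfold MM
  have := muO_nonneg s
  have := muI_nonneg s
  have h2 : 0 ≤ 1 - t := by linarith
  positivity

theorem MM_one (t : ℝ) : ∑ s, MM t s = 1 := by
  unfold MM
  rw [Finset.sum_add_distrib, ← Finset.mul_sum, ← Finset.mul_sum, muO_one, muI_one]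
  ring

theorem MM_lo {t : ℝ} (h0 : 0 ≤ t) (h1 : t ≤ 1 / 2) (s : S4) : 1 / 32 ≤ MM t s := by
  unfold MM
  have h2 := muO_nonneg s
  have h3 := muI_lo s
  nlinarith

theorem MM_deriv (t : ℝ) (s : S4) : HasDerivAt (fun t => MM t s) (muO s - muI s) t := by
  unfold MM
  have h1 : HasDerivAt (fun t : ℝ => (1 - t) * muI s + t * muO s) ((0 - 1) * muI s + 1 * muO s) t :=
    (((hasDerivAt_const t 1).sub (hasDerivAt_id' t)).mul_const _).add ((hasDerivAt_id' t).mul_const _)
  have h2 : (0 - 1) * muI s + 1 * muO s = muO s - muI s := by ring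
  rwa [h2] at h1

/-- the values of the miss probabilities -/
noncomputable def mO (k : ℕ) : ℝ := ((4 - k : ℝ) ^ 2 - (4 - k)) / 12

theorem muO_miss (Y : S4) : ∑ s, muO s * ind (Disjoint s Y) = mO Y.card := by
  have h1 := nu2_miss (D := Fin 4) (B := Y) (A := ∅) (Finset.disjoint_empty_left _) 0
  unfold muO mO
  have h2 : ∀ s : S4, (ind (Disjoint s Y) * ∏ _w ∈ s.filter (fun w => w ∈ (∅ : S4)), (0:ℝ))
      = ind (Disjoint s Y) := by
    intro s
    simp
  rw [Finset.sum_congr rfl (fun s _ => by rw [← h2 s]), h1]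
  unfold QQ
  simp only [Fintype.card_fin, Finset.card_empty]
  push_cast
  norm_num

theorem muI_miss (Y : S4) : ∑ s, muI s * ind (Disjoint s Y) = (1 / 2) ^ Y.card := by
  unfold muI
  rw [muP_miss]
  norm_num

theorem card4 (Y : S4) : Y.card ≤ 4 := by
  have := Finset.card_le_univ Y
  simpa using this

/-- the events that are decided by hitting a set -/
def Hf (g : S4 → Prop) (A : Prop) (Y : S4) : Prop := ∀ s, g s ↔ (A ∨ ¬ Disjoint s Y)

theorem Hf.ind_eq {g : S4 → Prop} {A : Prop} {Y : S4} (h : Hf g A Y) (s : S4) :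
    ind (g s) = 1 - ind (¬ A) * ind (Disjoint s Y) := by
  rw [← ind_and, ← ind_not]
  apply ind_congr
  rw [h s]
  tauto

theorem Hf.sum {g : S4 → Prop} {A : Prop} {Y : S4} (h : Hf g A Y) (w : S4 → ℝ) :
    ∑ s, w s * ind (g s) = ∑ s, w s - ind (¬ A) * ∑ s, w s * ind (Disjoint s Y) := by
  rw [Finset.mul_sum, ← Finset.sum_sub_distrib]
  apply Finset.sum_congr rfl
  intro s _
  rw [h.ind_eq]
  ring

/-- strongly pivotal -/
def Mul (g : S4 → Prop) : Prop := ¬ g ∅ ∧ ∃ c c' : Fin 4, c ≠ c' ∧ g {c} ∧ g {c'}

theorem one_star {g : S4 → Prop} {A : Prop} {Y : S4} (h : Hf g A Y) :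
    1 / 16 * ind (Mul g) ≤ ∑ s, muO s * ind (g s) - ∑ s, muI s * ind (g s) := by
  rw [h.sum, h.sum, muO_one, muI_one, muO_miss, muI_miss]
  by_cases hA : A
  · have h1 : ¬ Mul g := by
      rintro ⟨h1, -⟩
      exact h1 ((h ∅).2 (Or.inl hA))
    rw [ind_not_of h1, ind_not_of (not_not.2 hA)]
    simp
  · rw [ind_of hA, one_mul, one_mul]
    have h4 := card4 Y
    have hle : ind (Mul g) ≤ 1 := ind_le_one _
    by_cases hM : Mul g
    · have h2 : 2 ≤ Y.card := by
        obtain ⟨-, c, c', hne, h5, h6⟩ := hM
        have g1 : c ∈ Y := by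
          rcases (h _).1 h5 with h7 | h7
          · exact absurd h7 hA
          · rw [Finset.disjoint_singleton_left, not_not] at h7
            exact h7
        have g2 : c' ∈ Y := by
          rcases (h _).1 h6 with h7 | h7
          · exact absurd h7 hA
          · rw [Finset.disjoint_singleton_left, not_not] at h7
            exact h7
        have : ({c, c'} : S4) ⊆ Y := by
          intro e he
          rw [Finset.mem_insert, Finset.mem_singleton] at he
          rcases he with rfl | rfl
          · exact g1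
          · exact g2
        have h8 := Finset.card_le_card this
        rw [Finset.card_pair hne] at h8
        exact h8
      generalize Y.card = k at h4 h2
      unfold mO
      interval_cases k <;> norm_num <;> linarith
    · rw [ind_not_of hM]
      generalize Y.card = k at h4
      unfold mO
      interval_cases k <;> norm_num

/-- one star, conditioned to miss `O` -/
theorem one_star_cond {g : S4 → Prop} {A : Prop} {Y O : S4} (h : Hf g A Y) (hYO : Disjoint Y O)
    {t : ℝ} (h0 : 0 ≤ t) (h1 : t ≤ 1) :
    (∑ s, MM t s * ind (Disjoint s O)) * ∑ s, muI s * ind (g s) ≤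
      ∑ s, MM t s * ind (Disjoint s O) * ind (g s) := by
  rw [h.sum, h.sum (fun s => MM t s * ind (Disjoint s O)), muI_one, muI_miss]
  have e1 : ∀ s : S4, ind (Disjoint s O) * ind (Disjoint s Y) = ind (Disjoint s (O ∪ Y)) := by
    intro s
    rw [← ind_and]
    apply ind_congr
    rw [Finset.disjoint_union_right]
  have e2 : ∑ s, MM t s * ind (Disjoint s O) * ind (Disjoint s Y)
      = (1 - t) * (1 / 2) ^ (O ∪ Y).card + t * mO (O ∪ Y).card := by
    rw [← muI_miss, ← muO_miss, Finset.mul_sum, Finset.mul_sum, ← Finset.sum_add_distrib]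
    apply Finset.sum_congr rfl
    intro s _
    rw [mul_assoc, e1]
    unfold MM
    ring
  have e3 : ∑ s, MM t s * ind (Disjoint s O)
      = (1 - t) * (1 / 2) ^ O.card + t * mO O.card := by
    rw [← muI_miss, ← muO_miss, Finset.mul_sum, Finset.mul_sum, ← Finset.sum_add_distrib]
    apply Finset.sum_congr rfl
    intro s _
    unfold MM
    ring
  rw [e2, e3]
  have hc : (O ∪ Y).card = O.card + Y.card := Finset.card_union_of_disjoint hYO.symm
  have h4 := card4 (O ∪ Y)
  rw [hc] at h4 ⊢
  have key : mO (O.card + Y.card) ≤ (1 / 2) ^ Y.card * mO O.card := by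
    generalize O.card = a at h4
    generalize Y.card = b at h4
    have ha : a ≤ 4 := by omega
    have hb : b ≤ 4 := by omega
    unfold mO
    interval_cases a <;> interval_cases b <;> first | omega | norm_num
  have hA := ind_nonneg (¬ A)
  have h5 : t * mO (O.card + Y.card) ≤ t * ((1 / 2) ^ Y.card * mO O.card) :=
    mul_le_mul_of_nonneg_left key h0
  have h6 := mul_le_mul_of_nonneg_left h5 hA
  rw [pow_add]
  nlinarith [h6]

/-- the hitting form of a connection -/
theorem hf_RB {U T : Set V} {v : V} (hvT : v ∉ T) (B : Set V) (ζ : V → S4) :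
    ∃ A Y, Hf (fun s => RB U T B (Function.update ζ v s)) A Y ∧
      ∀ c ∈ Y, v + stp c ∈ T ∨ v + stp c ∈ U := by
  classical
  by_cases hv : v ∈ U
  swap
  · refine ⟨RB U T B ζ, ∅, ?_, by simp⟩
    intro s
    have h1 : RB U T B (Function.update ζ v s) ↔ RB U T B ζ := by
      apply RB_congr
      intro a ha
      rw [Function.update_of_ne]
      rintro rfl
      exact hv ha
    show RB U T B (Function.update ζ v s) ↔ _
    rw [h1]
    simp
  have hcongr : ∀ s (T' B' : Set V), RB (U \ {v}) T' B' (Function.update ζ v s)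
      ↔ RB (U \ {v}) T' B' ζ := by
    intro s T' B'
    apply RB_congr
    intro a ha
    rw [Function.update_of_ne ha.2]
  refine ⟨RB (U \ {v}) T B ζ, univ.filter (fun c => RB (U \ {v}) {v} B ζ ∧
    RB (U \ {v}) T {v + stp c} ζ), ?_, ?_⟩
  · intro s
    constructor
    · rintro ⟨b, hb, t, ht, h⟩
      have htv : t ≠ v := fun h => hvT (h ▸ ht)
      by_cases hA : RB (U \ {v}) T B ζ
      · exact Or.inl hA
      right
      -- the first visit of `v`
      have h1 : ∀ z, Relation.ReflTransGen (DS U (Function.update ζ v s)) b z →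
          Relation.ReflTransGen (DS (U \ {v}) (Function.update ζ v s)) b z ∨
          RB (U \ {v}) {v} B (Function.update ζ v s) := by
        intro z hz
        induction hz with
        | refl => exact Or.inl Relation.ReflTransGen.refl
        | @tail a c _ hac ih =>
          rcases ih with ih | ih
          · by_cases hav : a = v
            · subst hav
              exact Or.inr ⟨b, hb, a, rfl, ih⟩
            · exact Or.inl (ih.tail ⟨⟨hac.1, hav⟩, hac.2⟩)
          · exact Or.inr ih
      rcases h1 t h with h2 | h2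
      · exact absurd ((hcongr s T B).1 ⟨b, hb, t, ht, h2⟩) hA
      · rcases last_visit htv h with h3 | ⟨c, hc, h3⟩
        · exact absurd ((hcongr s T B).1 ⟨b, hb, t, ht, h3⟩) hA
        · rw [Function.update_self] at hc
          rw [Finset.not_disjoint_iff]
          refine ⟨c, hc, ?_⟩
          rw [Finset.mem_filter]
          exact ⟨Finset.mem_univ _, (hcongr s {v} B).1 h2,
            (hcongr s T {v + stp c}).1 ⟨_, rfl, t, ht, h3⟩⟩
    · rintro (h | h)
      · obtain ⟨b, hb, t, ht, h⟩ := (hcongr s T B).2 h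
        exact ⟨b, hb, t, ht, DS.mono Set.sdiff_subset (fun _ _ => subset_rfl) h⟩
      · rw [Finset.not_disjoint_iff] at h
        obtain ⟨c, hc, h⟩ := h
        rw [Finset.mem_filter] at h
        obtain ⟨-, h1, h2⟩ := h
        obtain ⟨b, hb, t1, ht1, h3⟩ := (hcongr s {v} B).2 h1
        obtain ⟨b2, hb2, t, ht, h4⟩ := (hcongr s T {v + stp c}).2 h2
        rw [Set.mem_singleton_iff] at ht1 hb2
        subst ht1
        subst hb2
        refine ⟨b, hb, t, ht, ?_⟩
        refine Relation.ReflTransGen.trans
          (DS.mono Set.sdiff_subset (fun _ _ => subset_rfl) h3) ?_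
        refine Relation.ReflTransGen.head ⟨hv, c, ?_, rfl⟩
          (DS.mono Set.sdiff_subset (fun _ _ => subset_rfl) h4)
        rw [Function.update_self]
        exact hc
  · intro c hc
    rw [Finset.mem_filter] at hc
    obtain ⟨-, -, b, hb, t, ht, h⟩ := hc
    rw [Set.mem_singleton_iff] at hb
    subst hb
    rcases Relation.ReflTransGen.cases_head h with h1 | ⟨w, h1, -⟩
    · left
      rw [h1]
      exact ht
    · exact Or.inr h1.1.1

end Pool.Agent.R975.BG
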