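import Pool.Agent.R975.BG.Zd
import Pool.Agent.R975.BG.Konig

/-!
# The 2-neighbour graphs percolate in every dimension (helper975): infinite volume
-/

set_option autoImplicit false

namespace Pool.Agent.R975.BG

open MeasureTheory ProbabilityTheory
open Finset H974
open Pool.Agent.R975.BN (V stp box bnd mem_box)
open Pool.Agent.R975.BG2 (uvec Choice law Pick percD percU thetaD thetaU)

variable {d : ℕ}

abbrev Gd (d : ℕ) := Fin d → ℤ
abbrev Cf (d : ℕ) := Gd d → Finset (Fin d × Bool)

/-- the configuration -/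
def cfg (ω : Gd d → Choice d) : Cf d := fun v => (ω v).1

/-- the configuration inside `L`, and `η` outside -/
def asmC (L : List (Gd d)) (ω : Gd d → Choice d) (η : Cf d) : Cf d :=
  fun v => if v ∈ L then (ω v).1 else η v

instance [NeZero d] : IsProbabilityMeasure (law d) := by
  unfold BG2.law
  infer_instance

theorem nu2_eq (d : ℕ) (s : Finset (Fin d × Bool)) :
    nu2 s = if s.card = 2 then 1 / (Fintype.card (Choice d) : ℝ) else 0 := by
  unfold nu2
  rw [Fintype.card_finset_len, Nat.cast_choose_two, one_div_div]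

theorem sum_choice (F : Finset (Fin d × Bool) → ℝ) :
    ∑ c : Choice d, 1 / (Fintype.card (Choice d) : ℝ) * F c.1 = ∑ s, nu2 s * F s := by
  have h1 : ∀ s : Finset (Fin d × Bool), nu2 s * F s
      = if s.card = 2 then 1 / (Fintype.card (Choice d) : ℝ) * F s else 0 := by
    intro s
    rw [nu2_eq]
    split_ifs <;> simp
  rw [Finset.sum_congr rfl (fun s _ => h1 s), ← Finset.sum_filter]
  symm
  apply Finset.sum_subtype
  intro s
  simp

variable [NeZero d]

theorem law_single (v : Gd d) (c : Choice d) :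
    (law d).real {ω | ω v = c} = 1 / (Fintype.card (Choice d) : ℝ) := by
  have h1 : {ω : Gd d → Choice d | ω v = c} = Set.pi (↑({v} : Finset (Gd d))) (fun _ => {c}) := by
    ext ω
    simp
  rw [measureReal_def, h1]
  unfold BG2.law
  rw [Measure.infinitePi_pi _ (fun _ _ => MeasurableSet.of_discrete), Finset.prod_singleton,
    PMF.toMeasure_apply_singleton _ _ MeasurableSet.of_discrete, PMF.uniformOfFintype_apply]
  simp

omit [NeZero d] in
theorem meas_asm (L : List (Gd d)) (η : Cf d) (Q : Cf d → Prop) :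
    ∃ t : Set ((i : L.toFinset) → Choice d), MeasurableSet t ∧
      {ω : Gd d → Choice d | Q (asmC L ω η)} = (fun ω (i : L.toFinset) => ω i) ⁻¹' t := by
  refine ⟨{h | Q (fun v => if hv : v ∈ L.toFinset then (h ⟨v, hv⟩).1 else η v)},
    (Set.toFinite _).measurableSet, ?_⟩
  ext ω
  rw [Set.mem_preimage, Set.mem_ofPred_eq, Set.mem_ofPred_eq]
  have : asmC L ω η = (fun v => if hv : v ∈ L.toFinset then (ω v).1 else η v) := by
    funext v
    unfold asmC
    by_cases hv : v ∈ L
    · rw [if_pos hv, dif_pos (List.mem_toFinset.2 hv)]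
    · rw [if_neg hv, dif_neg (fun h => hv (List.mem_toFinset.1 h))]
  rw [this]

omit [NeZero d] in
theorem meas_event (L : List (Gd d)) (η : Cf d) (Q : Cf d → Prop) :
    MeasurableSet {ω : Gd d → Choice d | Q (asmC L ω η)} := by
  obtain ⟨t, ht, h⟩ := meas_asm L η Q
  rw [h]
  exact (measurable_pi_lambda _ (fun i => measurable_pi_apply _)) ht

theorem law_indep {v : Gd d} {L : List (Gd d)} (hv : v ∉ L) (c : Choice d) (η : Cf d)
    (Q : Cf d → Prop) :
    (law d).real ({ω | ω v = c} ∩ {ω | Q (asmC L ω η)})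
      = (law d).real {ω | ω v = c} * (law d).real {ω | Q (asmC L ω η)} := by
  have hind : iIndepFun (fun (i : Gd d) (ω : Gd d → Choice d) => ω i) (law d) := by
    unfold BG2.law
    exact iIndepFun_infinitePi (P := fun _ : Gd d => (PMF.uniformOfFintype (Choice d)).toMeasure)
      (X := fun _ c => c) (fun _ => measurable_id)
  have h2 := hind.indepFun_finset {v} L.toFinset (by
    rw [Finset.disjoint_singleton_left, List.mem_toFinset]
    exact hv) (fun i => measurable_pi_apply i)
  obtain ⟨t, ht, h3⟩ := meas_asm L η Q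
  have h4 : {ω : Gd d → Choice d | ω v = c} = (fun ω (i : ({v} : Finset (Gd d))) => ω i) ⁻¹'
      {h | h ⟨v, Finset.mem_singleton_self v⟩ = c} := rfl
  have h5 := h2.measure_inter_preimage_eq_mul {h | h ⟨v, Finset.mem_singleton_self v⟩ = c} t
    ((Set.toFinite _).measurableSet) ht
  rw [measureReal_def, measureReal_def, measureReal_def, h3, h4, h5, ENNReal.toReal_mul]

theorem law_event (L : List (Gd d)) (Q : Cf d → Prop) : L.Nodup → ∀ η : Cf d,
    (law d).real {ω | Q (asmC L ω η)} = EL (fun _ => nu2) L (fun η => ind (Q η)) η := by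
  induction L with
  | nil =>
    intro _ η
    have h1 : ∀ ω : Gd d → Choice d, asmC [] ω η = η := by
      intro ω
      funext v
      simp [asmC]
    show _ = ind (Q η)
    by_cases hQ : Q η
    · have h2 : {ω : Gd d → Choice d | Q (asmC [] ω η)} = Set.univ := by
        ext ω
        simp [h1, hQ]
      rw [h2, ind_of hQ]
      simp
    · have h2 : {ω : Gd d → Choice d | Q (asmC [] ω η)} = ∅ := by
        ext ω
        simp [h1, hQ]
      rw [h2, ind_not_of hQ]
      simp
  | cons v L ih =>
    intro hL η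
    rw [List.nodup_cons] at hL
    have h1 : {ω : Gd d → Choice d | Q (asmC (v :: L) ω η)}
        = ⋃ c ∈ (Finset.univ : Finset (Choice d)),
        ({ω | ω v = c} ∩ {ω | Q (asmC L ω (Function.update η v c.1))}) := by
      ext ω
      have h2 : asmC (v :: L) ω η = asmC L ω (Function.update η v (ω v).1) := by
        funext w
        unfold asmC
        by_cases hwL : w ∈ L
        · rw [if_pos hwL, if_pos (List.mem_cons_of_mem _ hwL)]
        · rw [if_neg hwL]
          by_cases hwv : w = v
          · subst hwv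
            rw [if_pos List.mem_cons_self, Function.update_self]
          · rw [Function.update_of_ne hwv, if_neg]
            rw [List.mem_cons, not_or]
            exact ⟨hwv, hwL⟩
      simp only [Set.mem_iUnion, Set.mem_inter_iff, Set.mem_ofPred_eq, Finset.mem_univ, true_and,
        exists_prop]
      rw [h2]
      constructor
      · intro h
        exact ⟨ω v, rfl, h⟩
      · rintro ⟨c, rfl, h⟩
        exact h
    rw [h1, measureReal_biUnion_finset]
    · show _ = ∑ s, nu2 s * EL (fun _ => nu2) L (fun η => ind (Q η)) (Function.update η v s)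
      rw [← sum_choice]
      apply Finset.sum_congr rfl
      intro c _
      rw [law_indep hL.1, law_single, ih hL.2]
    · intro c _ c' _ hne
      rw [Function.onFun, Set.disjoint_left]
      rintro ω ⟨h3, -⟩ ⟨h4, -⟩
      exact hne ((show ω v = c from h3).symm.trans (show ω v = c' from h4))
    · intro c _
      apply MeasurableSet.inter
      · have h5 : {ω : Gd d → Choice d | ω v = c} = (fun ω : Gd d → Choice d => ω v) ⁻¹' {c} := rfl
        rw [h5]
        exact (measurable_pi_apply v) MeasurableSet.of_discrete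
      · exact meas_event L _ Q

/-! ### self-avoiding paths -/

/-- the directed relation of a configuration -/
def RD (η : Cf d) (x y : Gd d) : Prop := ∃ δ ∈ η x, y = x + uvec δ

/-- the undirected relation -/
def RU (η : Cf d) (x y : Gd d) : Prop := RD η x y ∨ RD η y x

omit [NeZero d] in
theorem opf_step (δ : Fin d × Bool) : uvec (opf d δ) = - uvec δ := by
  funext j
  obtain ⟨i, s⟩ := δ
  rw [Pi.neg_apply, uvec_apply, uvec_apply]
  unfold opf
  simp only
  by_cases h : j = i <;> cases s <;> simp [h]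

omit [NeZero d] in
theorem RD_step {η : Cf d} {x y : Gd d} (h : RD η x y) : ∃ δ, y = x + uvec δ := by
  obtain ⟨δ, -, h⟩ := h
  exact ⟨δ, h⟩

omit [NeZero d] in
theorem RU_step {η : Cf d} {x y : Gd d} (h : RU η x y) : ∃ δ, y = x + uvec δ := by
  rcases h with ⟨δ, -, h⟩ | ⟨δ, -, h⟩
  · exact ⟨δ, h⟩
  · refine ⟨opf d δ, ?_⟩
    rw [opf_step, h]
    abel

/-- the ball of radius `k` -/
noncomputable def ball (d k : ℕ) : Finset (Gd d) := Fintype.piFinset (fun _ => Finset.Icc (-(k:ℤ)) k)

omit [NeZero d] in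
theorem mem_ball {k : ℕ} {x : Gd d} : x ∈ ball d k ↔ ∀ i, -(k:ℤ) ≤ x i ∧ x i ≤ k := by
  unfold ball
  rw [Fintype.mem_piFinset]
  simp only [Finset.mem_Icc]

omit [NeZero d] in
theorem ball_step {k : ℕ} {x : Gd d} (hx : x ∈ ball d k) (δ : Fin d × Bool) :
    x + uvec δ ∈ ball d (k + 1) := by
  rw [mem_ball] at hx ⊢
  intro i
  have := hx i
  rw [Pi.add_apply, uvec_apply]
  push_cast
  split_ifs <;> constructor <;> omega

omit [NeZero d] in
theorem ball_mono {k l : ℕ} (h : k ≤ l) {x : Gd d} (hx : x ∈ ball d k) : x ∈ ball d l := by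
  rw [mem_ball] at hx ⊢
  intro i
  have := hx i
  have h' : (k:ℤ) ≤ l := by exact_mod_cast h
  constructor <;> omega

omit [NeZero d] in
theorem zero_ball (k : ℕ) : (0 : Gd d) ∈ ball d k := by
  rw [mem_ball]
  intro i
  rw [Pi.zero_apply]
  constructor <;> omega

omit [NeZero d] in
theorem Nr_ball {m : ℕ} {k : ℕ} {y : Gd d} (h : Nr (Pd d m) k 0 y) : y ∈ ball d k := by
  induction k generalizing y with
  | zero =>
    have : y = 0 := h
    rw [this]
    exact zero_ball 0
  | succ k ih =>
    rcases h with h | ⟨z, hz, δ, rfl⟩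
    · exact ball_mono (Nat.le_succ k) (ih h)
    · exact ball_step (ih hz) δ

/-- the event that there is a self-avoiding path with `n` steps -/
def An (R : Cf d → Gd d → Gd d → Prop) (n : ℕ) : Set (Gd d → Choice d) :=
  {ω | ∃ p, SAP (R (cfg ω)) 0 n p}

omit [NeZero d] in
theorem An_meas {R : Cf d → Gd d → Gd d → Prop} (hR : ∀ η x y, R η x y → ∃ δ, y = x + uvec δ)
    (hloc : ∀ η η' x y, η x = η' x → η y = η' y → R η x y → R η' x y) (n : ℕ) :
    MeasurableSet (An R n) := by
  classical
  have key : ∀ η η' : Cf d, (∀ x ∈ ball d n, η x = η' x) → (∃ p, SAP (R η) 0 n p) →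
      ∃ p, SAP (R η') 0 n p := by
    rintro η η' h ⟨p, h1, h2, h3⟩
    have hb : ∀ i, i ≤ n → p i ∈ ball d i := by
      intro i
      induction i with
      | zero =>
        intro _
        rw [h1]
        exact zero_ball 0
      | succ i ih =>
        intro hi
        obtain ⟨δ, hδ⟩ := hR _ _ _ (h2 i (by omega))
        rw [hδ]
        exact ball_step (ih (by omega)) δ
    refine ⟨p, h1, ?_, h3⟩
    intro i hi
    apply hloc η η' _ _ _ _ (h2 i hi)
    · exact h _ (ball_mono (by omega) (hb i (by omega)))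
    · exact h _ (ball_mono (by omega) (hb (i + 1) (by omega)))
  have he : An R n = {ω | (fun η => ∃ p, SAP (R η) 0 n p)
      (asmC (ball d n).toList ω (fun _ => ∅))} := by
    ext ω
    have h : ∀ x ∈ ball d n, cfg ω x = asmC (ball d n).toList ω (fun _ => ∅) x := by
      intro x hx
      unfold cfg asmC
      rw [if_pos (Finset.mem_toList.2 hx)]
    exact ⟨key _ _ h, key _ _ (fun x hx => (h x hx).symm)⟩
  rw [he]
  exact meas_event (ball d n).toList (fun _ => ∅) (fun η => ∃ p, SAP (R η) 0 n p)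

omit [NeZero d] in
theorem An_anti (R : Cf d → Gd d → Gd d → Prop) {n m : ℕ} (h : n ≤ m) : An R m ⊆ An R n := by
  rintro ω ⟨p, hp⟩
  exact ⟨p, hp.mono h⟩

omit [NeZero d] in
theorem perc_iff {R : Cf d → Gd d → Gd d → Prop} (hR : ∀ η x y, R η x y → ∃ δ, y = x + uvec δ)
    (ω : Gd d → Choice d) : (∃ f : ℕ → Gd d, Function.Injective f ∧ f 0 = 0 ∧
      ∀ n, R (cfg ω) (f n) (f (n + 1))) ↔ ∀ n, ω ∈ An R n := by
  constructor
  · rintro ⟨f, h1, h2, h3⟩ n
    exact ⟨f, h2, fun i _ => h3 i, fun i _ j _ hij => h1 hij⟩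
  · intro h
    apply sap_inf _ h
    intro a
    apply (Set.finite_range (fun δ => a + uvec δ)).subset
    intro b hb
    obtain ⟨δ, hδ⟩ := hR _ _ _ hb
    exact ⟨δ, hδ.symm⟩

omit [NeZero d] in
theorem percD_eq (d : ℕ) : percD d = ⋂ n, An RD n := by
  ext ω
  rw [Set.mem_iInter, ← perc_iff (fun _ _ _ h => RD_step h)]
  rfl

omit [NeZero d] in
theorem percU_eq (d : ℕ) : percU d = ⋂ n, An RU n := by
  ext ω
  rw [Set.mem_iInter, ← perc_iff (fun _ _ _ h => RU_step h)]
  rfl

omit [NeZero d] in
theorem RD_loc (η η' : Cf d) (x y : Gd d) (h : η x = η' x) (_ : η y = η' y) (hR : RD η x y) :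
    RD η' x y := by
  obtain ⟨δ, h1, h2⟩ := hR
  exact ⟨δ, h ▸ h1, h2⟩

omit [NeZero d] in
theorem percD_meas (d : ℕ) : MeasurableSet (percD d) := by
  rw [percD_eq]
  exact MeasurableSet.iInter (fun n => An_meas (fun _ _ _ h => RD_step h) RD_loc n)

omit [NeZero d] in
theorem percU_meas (d : ℕ) : MeasurableSet (percU d) := by
  rw [percU_eq]
  refine MeasurableSet.iInter (fun n => An_meas (fun _ _ _ h => RU_step h) ?_ n)
  intro η η' x y h1 h2 hR
  rcases hR with h | h
  · exact Or.inl (RD_loc η η' x y h1 h2 h)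
  · exact Or.inr (RD_loc η η' y x h2 h1 h)

omit [NeZero d] in
theorem percD_sub (d : ℕ) : percD d ⊆ percU d := by
  rintro ω ⟨f, h1, h2, h3⟩
  exact ⟨f, h1, h2, fun n => Or.inl (h3 n)⟩

theorem thetaU_ge : thetaD d ≤ thetaU d := by
  unfold BG2.thetaD BG2.thetaU
  exact measureReal_mono (percD_sub d)

/-- a lower bound for all the finite volume events -/
theorem thetaD_ge {c : ℝ} (h : ∀ n, c ≤ (law d).real (An RD n)) : c ≤ thetaD d := by
  unfold BG2.thetaD
  rw [percD_eq]
  have h1 : Filter.Tendsto (fun n => law d (An (d := d) RD n)) Filter.atTop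
      (nhds (law d (⋂ n, An (d := d) RD n))) := by
    apply tendsto_measure_iInter_atTop
    · intro n
      exact (An_meas (fun _ _ _ h => RD_step h) RD_loc n).nullMeasurableSet
    · intro n m hnm
      exact An_anti RD hnm
    · exact ⟨0, measure_ne_top _ _⟩
  have h2 : Filter.Tendsto (fun n => (law d).real (An (d := d) RD n)) Filter.atTop
      (nhds ((law d).real (⋂ n, An (d := d) RD n))) :=
    (ENNReal.tendsto_toReal (measure_ne_top _ _)).comp h1
  exact ge_of_tendsto' h2 h

/-! ### the projected exploration -/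

/-- the norm of the projection -/
def Nm (m : ℕ) (x : Gd d) : ℕ := max (prj d m x).1.natAbs (prj d m x).2.natAbs

omit [NeZero d] in
theorem Nm_step (m : ℕ) (x : Gd d) (δ : Fin d × Bool) : Nm m (x + uvec δ) ≤ Nm m x + 1 := by
  unfold Nm prj
  simp only
  rw [sum_step (fun i : Fin d => i.val < m), sum_step (fun i : Fin d => m ≤ i.val ∧ i.val < 2 * m)]
  split_ifs <;> omega

omit [NeZero d] in
theorem Nm_zero (m : ℕ) : Nm m (0 : Gd d) = 0 := by
  unfold Nm prj
  simp

omit [NeZero d] in
theorem RX_sap {m n : ℕ} {ω : Gd d → Choice d} {W : Finset (Gd d)} {η : Cf d} {U : Set V}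
    (h : RX (Pd d m) ↑W U (bnd n) {0} (asmC W.toList ω η)) : ω ∈ An RD n := by
  obtain ⟨x, hx, y, hy, hr⟩ := h
  rw [Set.mem_singleton_iff] at hx
  subst hx
  have hmono : ∀ z, Relation.ReflTransGen (XS (Pd d m) (↑W) U (asmC W.toList ω η)) 0 z →
      Relation.ReflTransGen (RD (cfg ω)) 0 z := by
    intro z hz
    induction hz with
    | refl => exact Relation.ReflTransGen.refl
    | tail _ h2 ih =>
      refine ih.tail ?_
      obtain ⟨ha, -, δ, hδ, hb⟩ := h2
      refine ⟨δ, ?_, hb⟩
      unfold asmC at hδ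
      rw [if_pos (Finset.mem_toList.2 ha)] at hδ
      exact hδ
  have hr' : Relation.ReflTransGen (RD (cfg ω)) 0 y := hmono y hr
  apply sap_of_far hr' (Nm m) (Nm_zero m)
  · rintro a b ⟨δ, -, rfl⟩
    exact Nm_step m a δ
  · obtain ⟨-, hy2⟩ := hy
    have h1 : (prj d m y).1 = ((Pd d m).pr y).1 := rfl
    have h2 : (prj d m y).2 = ((Pd d m).pr y).2 := rfl
    unfold Nm
    rw [h1, h2]
    omega

theorem An_lower {n : ℕ} (hd : 3 ≤ d) {c : ℝ}
    (hc : ∀ (n : ℕ) (ζ : V → S4), c ≤ qB (muP (503 / 1000)) (Ub n) (bnd n) {0} ζ) :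
    c ≤ (law d).real (An RD n) := by
  classical
  set m := (d + 2) / 4 with hm
  set W : Finset (Gd d) := ball d (3 * (Ub n).card) with hW
  have hD2 : 2 ≤ Fintype.card (Fin d × Bool) := by rw [card_dir]; omega
  have h1 := domination (Pd d m) (ν := nu2) (fun s => nu2_nonneg hD2 s) (nu2_one hD2)
    (μ := muP (503 / 1000)) (fun s => muP_nonneg (by norm_num) (by norm_num) s) (muP_one _)
    (hit_Pd hd) (bnd n) W (Ub n).card (Ub n) rfl (fun u hu => (mem_Ub.1 hu).2) {0}
    (by
      intro p hp y hy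
      rw [Set.mem_singleton_iff] at hp
      subst hp
      exact Nr_ball hy) (fun _ => ∅) (fun _ => ∅)
  have h2 : (Pd d m).pr '' {0} = ({0} : Set V) := by
    rw [Set.image_singleton]
    congr 1
    show prj d m 0 = 0
    unfold prj
    simp
  rw [h2] at h1
  refine le_trans (hc n (fun _ => ∅)) (le_trans h1 ?_)
  rw [← law_event W.toList (fun η => RX (Pd d m) ↑W ↑(Ub n) (bnd n) {0} η) (Finset.nodup_toList _)]
  refine measureReal_mono ?_ (measure_ne_top _ _)
  intro ω hω
  exact RX_sap hω

/-- **the 2-neighbour graphs percolate in dimension `d ≥ 3`** -/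
theorem theta_pos (hd : 3 ≤ d) : 0 < thetaD d ∧ 0 < thetaU d := by
  obtain ⟨c, hc0, hc⟩ := q_lower
  have h1 : c ≤ thetaD d := thetaD_ge (fun n => An_lower hd hc)
  exact ⟨lt_of_lt_of_le hc0 h1, lt_of_lt_of_le hc0 (h1.trans thetaU_ge)⟩

end Pool.Agent.R975.BG
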