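import Pool.Agent.R975.BG.Hit2
import Pool.Agent.R975.BG.Mod

/-!
# The 2-neighbour graphs percolate in every dimension (helper975): the projection to the plane
-/

set_option autoImplicit false

namespace Pool.Agent.R975.BG

open Finset H974
open Pool.Agent.R975.BN (V stp)
open Pool.Agent.R975.BG2 (uvec)

/-- the projection -/
def prj (d m : ℕ) (x : Fin d → ℤ) : V :=
  (∑ i, if i.val < m then x i else 0, ∑ i, if m ≤ i.val ∧ i.val < 2 * m then x i else 0)

/-- the class of a direction -/
def clf (d m : ℕ) (δ : Fin d × Bool) : Option (Fin 4) :=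
  if δ.1.val < m then some (if δ.2 then 0 else 2)
  else if δ.1.val < 2 * m then some (if δ.2 then 1 else 3) else none

theorem uvec_apply {d : ℕ} (δ : Fin d × Bool) (j : Fin d) :
    uvec δ j = if j = δ.1 then (if δ.2 then 1 else -1) else 0 := by
  unfold uvec
  rw [Pi.single_apply]

theorem sum_step {d : ℕ} (p : Fin d → Prop) [DecidablePred p] (x : Fin d → ℤ) (δ : Fin d × Bool) :
    (∑ i, if p i then (x + uvec δ) i else 0) = (∑ i, if p i then x i else 0) +
      if p δ.1 then (if δ.2 then 1 else -1) else 0 := by
  have h : ∀ i, (if p i then (x + uvec δ) i else 0) = (if p i then x i else 0) +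
      (if i = δ.1 then (if p δ.1 then (if δ.2 then (1:ℤ) else -1) else 0) else 0) := by
    intro i
    rw [Pi.add_apply, uvec_apply]
    by_cases h : i = δ.1
    · subst h
      by_cases hp : p δ.1 <;> simp [hp]
    · by_cases hp : p i <;> simp [hp, h]
  rw [Finset.sum_congr rfl (fun i _ => h i), Finset.sum_add_distrib]
  congr 1
  simp

/-- the projection with `m` coordinates for each axis -/
def Pd (d m : ℕ) : Fib (Fin d → ℤ) (Fin d × Bool) where
  step := uvec
  pr := prj d m
  cl := clf d m
  hsome := by
    intro x δ c h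
    unfold clf at h
    unfold prj
    rw [sum_step (fun i : Fin d => i.val < m), sum_step (fun i : Fin d => m ≤ i.val ∧ i.val < 2 * m)]
    obtain ⟨i, b⟩ := δ
    simp only at h ⊢
    by_cases h1 : i.val < m
    · rw [if_pos h1] at h
      have h2 : ¬ (m ≤ i.val ∧ i.val < 2 * m) := by omega
      rw [if_pos h1, if_neg h2]
      cases b
      · simp only [Bool.false_eq_true, if_false, Option.some.injEq] at h
        subst h
        simp [stp]
      · simp only [if_true, Option.some.injEq] at h
        subst h
        simp [stp]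
    · rw [if_neg h1] at h
      by_cases h2 : i.val < 2 * m
      · rw [if_pos h2] at h
        have h3 : m ≤ i.val ∧ i.val < 2 * m := by omega
        rw [if_neg h1, if_pos h3]
        cases b
        · simp only [Bool.false_eq_true, if_false, Option.some.injEq] at h
          subst h
          simp [stp]
        · simp only [if_true, Option.some.injEq] at h
          subst h
          simp [stp]
      · rw [if_neg h2] at h
        cases h
  hnone := by
    intro x δ h
    unfold clf at h
    unfold prj
    rw [sum_step (fun i : Fin d => i.val < m), sum_step (fun i : Fin d => m ≤ i.val ∧ i.val < 2 * m)]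
    obtain ⟨i, b⟩ := δ
    simp only at h ⊢
    by_cases h1 : i.val < m
    · rw [if_pos h1] at h
      cases h
    · rw [if_neg h1] at h
      by_cases h2 : i.val < 2 * m
      · rw [if_pos h2] at h
        cases h
      · have h3 : ¬ (m ≤ i.val ∧ i.val < 2 * m) := by omega
        rw [if_neg h1, if_neg h3]
        simp

/-- the opposite direction -/
def opf (d : ℕ) (δ : Fin d × Bool) : Fin d × Bool := (δ.1, !δ.2)

theorem total_step {d : ℕ} (δ : Fin d × Bool) : ∑ i, uvec δ i = if δ.2 then 1 else -1 := by
  rw [Finset.sum_congr rfl (fun i _ => uvec_apply δ i)]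
  simp

theorem z2f {d : ℕ} (a b : Fin d × Bool) (h : uvec a + uvec b = 0) : b = opf d a := by
  have h1 := congrFun h a.1
  rw [Pi.add_apply, uvec_apply, uvec_apply, if_pos rfl, Pi.zero_apply] at h1
  obtain ⟨i, s⟩ := a
  obtain ⟨j, t⟩ := b
  simp only at h1
  unfold opf
  by_cases hij : i = j
  · subst hij
    rw [if_pos rfl] at h1
    cases s <;> cases t <;> simp at h1 ⊢
  · rw [if_neg hij] at h1
    cases s <;> simp at h1

theorem gen_Pd (d m : ℕ) : Gen (Pd d m) (opf d) where
  ne0 := by
    intro a h
    have h1 : uvec a = 0 := h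
    have h2 := congrFun h1 a.1
    rw [uvec_apply, if_pos rfl, Pi.zero_apply] at h2
    split_ifs at h2 <;> omega
  inj := by
    intro a b h
    have h1 : uvec a = uvec b := h
    have h2 := congrFun h1 a.1
    rw [uvec_apply, uvec_apply, if_pos rfl] at h2
    obtain ⟨i, s⟩ := a
    obtain ⟨j, t⟩ := b
    simp only at h2
    by_cases hij : i = j
    · subst hij
      rw [if_pos rfl] at h2
      cases s <;> cases t <;> simp at h2 ⊢
    · rw [if_neg hij] at h2
      cases s <;> simp at h2
  odd := by
    intro a b c h
    have h1 : uvec a + uvec b = uvec c := h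
    have h2 : ∑ i, (uvec a + uvec b) i = ∑ i, uvec c i := by rw [h1]
    rw [Finset.sum_congr rfl (fun i _ => Pi.add_apply (uvec a) (uvec b) i),
      Finset.sum_add_distrib, total_step, total_step, total_step] at h2
    split_ifs at h2 <;> omega
  z2 := z2f
  pairs := by
    intro a a' b b' h
    have h1 : uvec a + uvec a' = uvec b + uvec b' := h
    by_cases hab : a = b
    · exact Or.inl hab
    by_cases hab' : a' = b
    · exact Or.inr (Or.inl hab')
    right; right
    apply z2f
    rw [h1]
    have h2 := congrFun h1 b.1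
    rw [Pi.add_apply, Pi.add_apply, uvec_apply, uvec_apply, uvec_apply, uvec_apply,
      if_pos rfl] at h2
    have key : b' = opf d b := by
      obtain ⟨i, s⟩ := a
      obtain ⟨i', s'⟩ := a'
      obtain ⟨j, t⟩ := b
      obtain ⟨j', t'⟩ := b'
      simp only at h2
      unfold opf
      have q1 : j = i → s ≠ t := by
        rintro rfl rfl
        exact hab rfl
      have q2 : j = i' → s' ≠ t := by
        rintro rfl rfl
        exact hab' rfl
      by_cases h3 : j = i <;> by_cases h4 : j = i' <;> by_cases h5 : j = j' <;>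
        simp only [h3, h4, h5, if_true, if_false, forall_true_left] at h2 q1 q2 ⊢ <;>
        cases s <;> cases s' <;> cases t <;> cases t' <;> simp_all
    rw [key]
    funext k
    rw [Pi.add_apply, uvec_apply, uvec_apply, Pi.zero_apply]
    obtain ⟨j, t⟩ := b
    unfold opf
    simp only
    by_cases hk : k = j <;> cases t <;> simp [hk]

theorem card_range {d a b : ℕ} (hb : b ≤ d) :
    (univ.filter (fun i : Fin d => a ≤ i.val ∧ i.val < b)).card = b - a := by
  have h : (univ.filter (fun i : Fin d => a ≤ i.val ∧ i.val < b)).map Fin.valEmbedding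
      = Finset.Ico a b := by
    ext k
    rw [Finset.mem_map, Finset.mem_Ico]
    constructor
    · rintro ⟨i, hi, rfl⟩
      rw [Finset.mem_filter] at hi
      exact hi.2
    · intro hk
      refine ⟨⟨k, by omega⟩, ?_, rfl⟩
      rw [Finset.mem_filter]
      exact ⟨Finset.mem_univ _, hk⟩
  rw [← Finset.card_map Fin.valEmbedding, h, Nat.card_Ico]

theorem card_class {d m : ℕ} (hm : 2 * m ≤ d) (c : Fin 4) :
    (univ.filter (fun δ : Fin d × Bool => clf d m δ = some c)).card = m := by
  have h0 : (univ.filter (fun i : Fin d => 0 ≤ i.val ∧ i.val < m)).card = m := by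
    rw [card_range (by omega)]
    omega
  have h1 : (univ.filter (fun i : Fin d => m ≤ i.val ∧ i.val < 2 * m)).card = m := by
    rw [card_range hm]
    omega
  have key : ∀ (A : Finset (Fin d)) (b : Bool), A.card = m →
      (univ.filter (fun δ : Fin d × Bool => clf d m δ = some c)) = A ×ˢ {b} →
      (univ.filter (fun δ : Fin d × Bool => clf d m δ = some c)).card = m := by
    intro A b hA h
    rw [h, Finset.card_product, Finset.card_singleton, mul_one, hA]
  have e : ∀ (A : Finset (Fin d)) (b : Bool), (∀ i s, clf d m (i, s) = some c ↔ i ∈ A ∧ s = b) →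
      (univ.filter (fun δ : Fin d × Bool => clf d m δ = some c)) = A ×ˢ {b} := by
    intro A b h
    ext ⟨i, s⟩
    rw [Finset.mem_filter, Finset.mem_product, Finset.mem_singleton, h]
    simp
  fin_cases c
  · refine key _ true h0 (e _ true ?_)
    intro i s
    rw [Finset.mem_filter]
    unfold clf
    by_cases q1 : i.val < m <;> by_cases q2 : i.val < 2 * m <;> cases s <;> simp [q1, q2]
  · refine key _ true h1 (e _ true ?_)
    intro i s
    rw [Finset.mem_filter]
    unfold clf
    by_cases q1 : i.val < m <;> by_cases q2 : i.val < 2 * m <;> cases s <;> simp [q1, q2]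
    all_goals omega
  · refine key _ false h0 (e _ false ?_)
    intro i s
    rw [Finset.mem_filter]
    unfold clf
    by_cases q1 : i.val < m <;> by_cases q2 : i.val < 2 * m <;> cases s <;> simp [q1, q2]
  · refine key _ false h1 (e _ false ?_)
    intro i s
    rw [Finset.mem_filter]
    unfold clf
    by_cases q1 : i.val < m <;> by_cases q2 : i.val < 2 * m <;> cases s <;> simp [q1, q2]
    all_goals omega

theorem card_BB {d m : ℕ} (hm : 2 * m ≤ d) (Y : S4) : (BB (Pd d m) Y).card = m * Y.card := by
  have h1 : BB (Pd d m) Y = Y.biUnion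
      (fun c => univ.filter (fun δ : Fin d × Bool => clf d m δ = some c)) := by
    ext δ
    unfold BB
    rw [Finset.mem_filter, Finset.mem_biUnion]
    constructor
    · rintro ⟨-, c, hc, h⟩
      exact ⟨c, hc, Finset.mem_filter.2 ⟨Finset.mem_univ _, h⟩⟩
    · rintro ⟨c, hc, h⟩
      exact ⟨Finset.mem_univ _, c, hc, (Finset.mem_filter.1 h).2⟩
  rw [h1, Finset.card_biUnion, Finset.sum_congr rfl (fun c _ => card_class hm c),
    Finset.sum_const, smul_eq_mul, mul_comm]
  intro c _ c' _ hcc
  rw [Function.onFun, Finset.disjoint_left]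
  intro δ h2 h3
  rw [Finset.mem_filter] at h2 h3
  rw [h2.2, Option.some.injEq] at h3
  exact hcc h3.2

theorem card_ZZ {d m : ℕ} (hm : 2 * m ≤ d) : (ZZ (Pd d m)).card = 2 * d - 4 * m := by
  have h1 : ZZ (Pd d m) = (univ.filter (fun i : Fin d => 2 * m ≤ i.val ∧ i.val < d)) ×ˢ univ := by
    ext ⟨i, s⟩
    unfold ZZ
    rw [Finset.mem_filter, Finset.mem_product, Finset.mem_filter]
    show _ ∧ clf d m (i, s) = none ↔ _
    unfold clf
    have := i.2
    by_cases q1 : i.val < m <;> by_cases q2 : i.val < 2 * m <;> simp [q1, q2]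
    all_goals omega
  rw [h1, Finset.card_product, card_range le_rfl, Finset.card_univ, Fintype.card_bool]
  omega

theorem card_dir (d : ℕ) : Fintype.card (Fin d × Bool) = 2 * d := by
  rw [Fintype.card_prod, Fintype.card_fin, Fintype.card_bool, mul_comm]

/-- the hitting estimate in dimension `d ≥ 3` -/
theorem hit_Pd {d : ℕ} (hd : 3 ≤ d) (x : Fin d → ℤ) (W : Finset (Fin d → ℤ))
    (η : (Fin d → ℤ) → Finset (Fin d × Bool))
    (hW : ∀ y, Nr (Pd d ((d + 2) / 4)) 2 x y → y ∈ W) (Y : S4) :
    EL (fun _ => nu2) W.toList (fun η => ind (Disjoint (Sx (Pd d ((d + 2) / 4)) x η) Y)) η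
      ≤ ∑ s, muP (503 / 1000) s * ind (Disjoint s Y) := by
  set m := (d + 2) / 4 with hm
  have hm2 : 2 * m ≤ d := by omega
  have hm4 : 4 * m + 2 ≤ 2 * d := by omega
  have hzz := card_ZZ hm2
  refine hit_bound (gen_Pd d m) (by rw [card_dir]; omega) (by omega) ?_ x W η hW Y
  intro Y
  have hY4 : Y.card ≤ 4 := by
    have := Finset.card_le_univ Y
    simpa using this
  have e1 : ((Fintype.card (Fin d × Bool) : ℕ) : ℝ) = 2 * d := by
    rw [card_dir]
    push_cast
    ring
  have e2 : ((ZZ (Pd d m)).card : ℝ) = 2 * d - 4 * m := by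
    rw [hzz, Nat.cast_sub (by omega)]
    push_cast
    ring
  have e3 : ((BB (Pd d m) Y).card : ℝ) = m * Y.card := by
    rw [card_BB hm2]
    push_cast
    ring
  rw [e1, e2, e3]
  have := num_bound hd hm hY4 (n := 2 * d) (z := 2 * d - 4 * m) (be := m * Y.card)
    (al := 4 * m - m * Y.card) rfl rfl rfl rfl
  have e4 : (2 * (d:ℝ) - m * Y.card - (2 * d - 4 * m)) = 4 * m - m * Y.card := by ring
  rw [e4]
  exact this

end Pool.Agent.R975.BG
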